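import Pool.Agent.N430.BP.Path
import Pool.Agent.W401.Cheb.Mean0

set_option autoImplicit false
set_option linter.all false

/-! # Partial summation for means over primes -/

namespace Pool.Agent.N666.TB

open Finset Filter Topology Pool.Agent.N430.BP
open Pool.Agent.W401.Cheb (M pr)

theorem pr_succ_sum (b : ℕ → ℝ) (x : ℕ) :
    ∑ p ∈ pr (x + 1), b p = ∑ p ∈ pr x, b p + if (x + 1).Prime then b (x + 1) else 0 := by
  unfold pr
  rw [Finset.range_add_one (n := x + 1), Finset.filter_insert]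
  split_ifs with h
  · rw [Finset.sum_insert (by simp)]
    ring
  · simp

theorem abel (b : ℕ → ℝ) (x : ℕ) :
    ∑ p ∈ pr x, b p / p = (∑ p ∈ pr x, b p) / (x + 1) +
      ∑ n ∈ Icc 1 x, (∑ p ∈ pr n, b p) / ((n : ℝ) * (n + 1)) := by
  induction x with
  | zero =>
    have : pr 0 = ∅ := by
      unfold pr
      decide
    simp [this]
  | succ x ih =>
    rw [pr_succ_sum (fun p => b p / p), ih, Finset.sum_Icc_succ_top (by omega : 1 ≤ x + 1), pr_succ_sum b x]
    push_cast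
    have h1 : (x : ℝ) + 1 ≠ 0 := by positivity
    have h2 : (x : ℝ) + 1 + 1 ≠ 0 := by positivity
    split_ifs with h
    · field_simp
      ring
    · field_simp
      ring

theorem pr_eq (x : ℕ) : pr x = Pr x := by
  ext p
  unfold pr Pr
  rw [mem_filter, mem_filter, mem_range, mem_Icc]
  constructor
  · rintro ⟨h1, h2⟩
    exact ⟨⟨h2.one_le, by omega⟩, h2⟩
  · rintro ⟨⟨_, h1⟩, h2⟩
    exact ⟨by omega, h2⟩

theorem loglog_top : Tendsto (fun x : ℕ => Real.log (Real.log x)) atTop atTop :=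
  Real.tendsto_log_atTop.comp (Real.tendsto_log_atTop.comp tendsto_natCast_atTop_atTop)

/-- the sums over the primes of a sequence with mean `0` -/
theorem small_of_mean {b : ℕ → ℝ} (h : Tendsto (M b) atTop (𝓝 0)) :
    Tendsto (fun x : ℕ => (∑ p ∈ pr x, b p / p) / Real.log (Real.log x)) atTop (𝓝 0) := by
  obtain ⟨C, hC⟩ := Pool.Agent.Helper256.KM.mertens_inv
  rw [Metric.tendsto_atTop] at h ⊢
  intro ε hε
  obtain ⟨n₀, hn₀⟩ := h (ε / 3) (by positivity)
  -- the bound for the partial sums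
  have hE : ∀ n : ℕ, n₀ ≤ n → |∑ p ∈ pr n, b p| ≤ ε / 3 * ∑ p ∈ pr n, (1 : ℝ) := by
    intro n hn
    have h1 := hn₀ n hn
    rw [Real.dist_eq, sub_zero] at h1
    unfold M at h1
    have e : ∑ p ∈ pr n, (1 : ℝ) = Nat.primeCounting n := by
      rw [Finset.sum_const, nsmul_eq_mul, mul_one]
      unfold pr
      rw [Nat.primeCounting, Nat.primeCounting', Nat.count_eq_card_filter_range]
    rw [e]
    rcases Nat.eq_zero_or_pos (Nat.primeCounting n) with h0 | h0
    · have : pr n = ∅ := by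
        rw [← Finset.card_eq_zero]
        have : ((pr n).card : ℝ) = 0 := by
          have := e
          rw [Finset.sum_const, nsmul_eq_mul, mul_one] at this
          rw [this, h0]
          simp
        exact_mod_cast this
      rw [this, h0]
      simp
    · have hp : (0 : ℝ) < Nat.primeCounting n := by exact_mod_cast h0
      rw [abs_div, abs_of_pos hp, div_lt_iff₀ hp] at h1
      exact h1.le
  -- the constant
  set K : ℝ := |C| + ∑ n ∈ Icc 1 n₀, |(∑ p ∈ pr n, b p) / ((n : ℝ) * (n + 1))| with hK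
  have hK0 : 0 ≤ K := by rw [hK]; positivity
  have hmain : ∀ x : ℕ, n₀ ≤ x → |∑ p ∈ pr x, b p / p| ≤ ε / 3 * (∑ p ∈ pr x, (1 : ℝ) / p) +
      ∑ n ∈ Icc 1 n₀, |(∑ p ∈ pr n, b p) / ((n : ℝ) * (n + 1))| := by
    intro x hx
    rw [abel b x, abel (fun _ => (1 : ℝ)) x, mul_add]
    have hsplit : Icc 1 x = Icc 1 n₀ ∪ (Icc (n₀ + 1) x) := by
      ext n
      rw [mem_union, mem_Icc, mem_Icc, mem_Icc]
      omega
    have hdis : Disjoint (Icc 1 n₀) (Icc (n₀ + 1) x) := by
      rw [Finset.disjoint_left]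
      intro n h1 h2
      rw [mem_Icc] at h1 h2
      omega
    refine (abs_add_le _ _).trans ?_
    have t1 : |(∑ p ∈ pr x, b p) / ((x : ℝ) + 1)| ≤ ε / 3 * ((∑ p ∈ pr x, (1 : ℝ)) / (x + 1)) := by
      rw [abs_div, abs_of_pos (by positivity : (0 : ℝ) < (x : ℝ) + 1), ← mul_div_assoc]
      exact div_le_div_of_nonneg_right (hE x hx) (by positivity)
    have t2 : |∑ n ∈ Icc 1 x, (∑ p ∈ pr n, b p) / ((n : ℝ) * (n + 1))| ≤
        ∑ n ∈ Icc 1 n₀, |(∑ p ∈ pr n, b p) / ((n : ℝ) * (n + 1))| +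
          ε / 3 * ∑ n ∈ Icc 1 x, (∑ p ∈ pr n, (1 : ℝ)) / ((n : ℝ) * (n + 1)) := by
      rw [hsplit, Finset.sum_union hdis, Finset.sum_union hdis]
      refine (abs_add_le _ _).trans ?_
      have s1 : |∑ n ∈ Icc 1 n₀, (∑ p ∈ pr n, b p) / ((n : ℝ) * (n + 1))| ≤
          ∑ n ∈ Icc 1 n₀, |(∑ p ∈ pr n, b p) / ((n : ℝ) * (n + 1))| := Finset.abs_sum_le_sum_abs _ _
      have s2 : |∑ n ∈ Icc (n₀ + 1) x, (∑ p ∈ pr n, b p) / ((n : ℝ) * (n + 1))| ≤
          ε / 3 * ∑ n ∈ Icc (n₀ + 1) x, (∑ p ∈ pr n, (1 : ℝ)) / ((n : ℝ) * (n + 1)) := by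
        refine (Finset.abs_sum_le_sum_abs _ _).trans ?_
        rw [Finset.mul_sum]
        refine Finset.sum_le_sum fun n hn => ?_
        rw [mem_Icc] at hn
        have hn0 : (0 : ℝ) < n := by exact_mod_cast (by omega : 0 < n)
        rw [abs_div, abs_of_pos (by positivity : (0 : ℝ) < (n : ℝ) * (n + 1)), ← mul_div_assoc]
        exact div_le_div_of_nonneg_right (hE n (by omega)) (by positivity)
      have s3 : (0 : ℝ) ≤ ∑ n ∈ Icc 1 n₀, (∑ p ∈ pr n, (1 : ℝ)) / ((n : ℝ) * (n + 1)) := by positivity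
      nlinarith [mul_nonneg (by positivity : (0 : ℝ) ≤ ε / 3) s3]
    linarith
  -- the end
  obtain ⟨x₀, hx₀⟩ := (Filter.tendsto_atTop_atTop.1 loglog_top) (max 1 (3 * (K * (1 + ε)) / ε + 1))
  refine ⟨max (max n₀ x₀) 3, fun x hx => ?_⟩
  have hx1 : n₀ ≤ x := (le_max_left _ _).trans ((le_max_left _ _).trans hx)
  have hx2 : x₀ ≤ x := (le_max_right _ _).trans ((le_max_left _ _).trans hx)
  have hx3 : 3 ≤ x := (le_max_right _ _).trans hx
  have hL := hx₀ x hx2
  set L := Real.log (Real.log x) with hLdef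
  have hL1 : 1 ≤ L := (le_max_left _ _).trans hL
  have hL2 : 3 * (K * (1 + ε)) / ε + 1 ≤ L := (le_max_right _ _).trans hL
  have hL0 : 0 < L := by linarith
  rw [Real.dist_eq, sub_zero, abs_div, abs_of_pos hL0, div_lt_iff₀ hL0]
  have h1 := hmain x hx1
  have h2 := (abs_le.1 (hC x hx3)).2
  have h3 : ∑ p ∈ pr x, (1 : ℝ) / p = ∑ p ∈ (Finset.Icc 1 x).filter Nat.Prime, (1 : ℝ) / p := by
    rw [pr_eq]; rfl
  rw [h3] at h1
  have h4 : ∑ p ∈ (Finset.Icc 1 x).filter Nat.Prime, (1 : ℝ) / p ≤ L + |C| := by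
    have := le_abs_self C
    linarith
  have h5 : ε / 3 * (∑ p ∈ (Finset.Icc 1 x).filter Nat.Prime, (1 : ℝ) / p) ≤ ε / 3 * (L + |C|) :=
    mul_le_mul_of_nonneg_left h4 (by positivity)
  have h6 : |C| ≤ K := by
    rw [hK]
    have : 0 ≤ ∑ n ∈ Icc 1 n₀, |(∑ p ∈ pr n, b p) / ((n : ℝ) * (n + 1))| := by positivity
    linarith
  have h7 : ∑ n ∈ Icc 1 n₀, |(∑ p ∈ pr n, b p) / ((n : ℝ) * (n + 1))| ≤ K := by
    rw [hK]
    linarith [abs_nonneg C]
  have h8 : 3 * (K * (1 + ε)) < ε * L := by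
    have : 3 * (K * (1 + ε)) / ε < L := by linarith
    rw [div_lt_iff₀ hε] at this
    linarith
  nlinarith [mul_le_mul_of_nonneg_left h6 (by positivity : (0 : ℝ) ≤ ε / 3), mul_nonneg hε.le hL0.le, mul_nonneg hK0 hε.le]

theorem pc_one : Tendsto (fun x : ℕ => (∑ p ∈ pr x, (1 : ℝ) / p) / Real.log (Real.log x)) atTop (𝓝 1) := by
  obtain ⟨C, hC⟩ := Pool.Agent.Helper256.KM.mertens_inv
  have h1 : Tendsto (fun x : ℕ => (∑ p ∈ pr x, (1 : ℝ) / p - Real.log (Real.log x)) / Real.log (Real.log x))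
      atTop (𝓝 0) := by
    have h0 : Tendsto (fun x : ℕ => |C| / Real.log (Real.log x)) atTop (𝓝 0) :=
      tendsto_const_nhds.div_atTop loglog_top
    refine squeeze_zero_norm' ?_ h0
    filter_upwards [loglog_top.eventually_gt_atTop 0, eventually_ge_atTop 3] with x hx hx3
    rw [Real.norm_eq_abs, abs_div, abs_of_pos hx]
    apply div_le_div_of_nonneg_right _ hx.le
    have h3 : ∑ p ∈ pr x, (1 : ℝ) / p = ∑ p ∈ (Finset.Icc 1 x).filter Nat.Prime, (1 : ℝ) / p := by
      rw [pr_eq]; rfl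
    rw [h3]
    exact (hC x hx3).trans (le_abs_self C)
  have h2 : Tendsto (fun x : ℕ => 1 + (∑ p ∈ pr x, (1 : ℝ) / p - Real.log (Real.log x)) / Real.log (Real.log x))
      atTop (𝓝 (1 + 0)) := tendsto_const_nhds.add h1
  rw [add_zero] at h2
  refine h2.congr' ?_
  filter_upwards [loglog_top.eventually_gt_atTop 0] with x hx
  field_simp
  ring

/-- **Partial summation**: the sum of `a p / p` over the primes up to `x` is `m log log x (1 + o(1))`, if `a` has
the mean `m` over the primes. -/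
theorem sum_div_of_mean {a : ℕ → ℝ} {m : ℝ} (h : Tendsto (M a) atTop (𝓝 m)) :
    Tendsto (fun x : ℕ => (∑ p ∈ pr x, a p / p) / Real.log (Real.log x)) atTop (𝓝 m) := by
  have h1 : Tendsto (M fun p => a p - m) atTop (𝓝 0) := by
    have h2 : Tendsto (fun N => M a N - m) atTop (𝓝 (m - m)) := h.sub_const m
    rw [sub_self] at h2
    refine h2.congr' ?_
    have h3 : ∀ᶠ N : ℕ in atTop, (0 : ℝ) < Nat.primeCounting N :=
      Pool.Agent.W401.Cheb.tendsto_pc.eventually_gt_atTop 0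
    filter_upwards [h3] with N hN
    unfold M
    rw [Finset.sum_sub_distrib, Finset.sum_const, nsmul_eq_mul]
    have e : ((pr N).card : ℝ) = Nat.primeCounting N := by
      unfold pr
      rw [Nat.primeCounting, Nat.primeCounting', Nat.count_eq_card_filter_range]
    rw [e]
    field_simp
  have h4 := (small_of_mean h1).add ((pc_one).const_mul m)
  rw [zero_add, mul_one] at h4
  refine h4.congr fun x => ?_
  rw [← mul_div_assoc, ← add_div]
  congr 1
  rw [Finset.mul_sum, ← Finset.sum_add_distrib]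
  refine Finset.sum_congr rfl fun p _ => ?_
  ring

end Pool.Agent.N666.TB
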