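import Pool.Agent.N666.TB.PM

set_option autoImplicit false
set_option linter.all false

/-! # Periodic functions of pairs of integers -/

namespace Pool.Agent.N666.TB

open Finset Pool.Agent.Y722.HS Pool.Agent.Y722.LS Pool.Agent.N666.TM Pool.Agent.N430.BP
open Pool.Agent.N430.CLT

theorem int_per {p : ℕ} {H : ℤ → ℝ} (h : ∀ U : ℤ, H (U + (p : ℤ)) = H U) {u u' : ℤ}
    (hu : (u : ZMod p) = (u' : ZMod p)) : H u = H u' := by
  have hk : ∀ (k : ℕ) (U : ℤ), H (U + (p : ℤ) * k) = H U := by
    intro k
    induction k with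
    | zero => intro U; simp
    | succ k ih =>
      intro U
      have := h (U + (p : ℤ) * k)
      rw [ih] at this
      rw [← this]
      congr 1
      push_cast
      ring
  rw [ZMod.intCast_eq_intCast_iff_dvd_sub] at hu
  obtain ⟨k, hk'⟩ := hu
  rcases Int.le_total 0 k with h0 | h0
  · obtain ⟨m, rfl⟩ := Int.eq_ofNat_of_zero_le h0
    have := hk m u
    rw [← this]
    congr 1
    linarith
  · obtain ⟨m, hm⟩ := Int.eq_ofNat_of_zero_le (neg_nonneg.2 h0)
    have := hk m u'
    rw [← this]
    congr 1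
    have : k = -(m : ℤ) := by omega
    subst this
    linarith

theorem pair_Pd {p : ℕ} {G : ℤ → ℤ → ℝ}
    (h : ∀ U V : ℤ, Per p (fun u v : ℕ => G (U + u) (V + v))) :
    Pd p (fun w : Fin 2 → ℤ => G (w 0) (w 1)) := by
  intro c c' hc
  have h0 : ((c 0 : ℤ) : ZMod p) = ((c' 0 : ℤ) : ZMod p) := congrFun hc 0
  have h1 : ((c 1 : ℤ) : ZMod p) = ((c' 1 : ℤ) : ZMod p) := congrFun hc 1
  have g1 : ∀ U V : ℤ, G (U + (p : ℤ)) V = G U V := by
    intro U V
    have := (h U V).1 0 0
    simpa using this
  have g2 : ∀ U V : ℤ, G U (V + (p : ℤ)) = G U V := by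
    intro U V
    have := (h U V).2 0 0
    simpa using this
  show G (c 0) (c 1) = G (c' 0) (c' 1)
  rw [int_per (H := fun u => G u (c 1)) (fun U => g1 U _) h0]
  exact int_per (H := fun v => G (c' 0) v) (fun V => g2 _ V) h1

theorem pair_PM (p : ℕ) (G : ℤ → ℤ → ℝ) :
    PM p (fun w : Fin 2 → ℤ => G (w 0) (w 1)) = avgP2 p (fun u v : ℕ => G u v) := by
  rw [avgP2_eq]
  unfold PM
  rw [Fintype.card_fin]
  congr 1
  have e : ∑ r : Fin 2 → Fin p, G ((r 0 : ℕ) : ℤ) ((r 1 : ℕ) : ℤ) =
      ∑ z : Fin p × Fin p, G ((z.1 : ℕ) : ℤ) ((z.2 : ℕ) : ℤ) :=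
    Fintype.sum_equiv (finTwoArrowEquiv (Fin p)) _ _ fun r => rfl
  rw [e, Fintype.sum_prod_type, Finset.sum_range]
  refine Finset.sum_congr rfl fun u _ => ?_
  rw [Finset.sum_range]

/-- the pairs of the coordinates -/
def prs {m : ℕ} (c : Fin m ⊕ Fin m → ℤ) : Fin m → ℤ × ℤ := fun j => (c (Sum.inl j), c (Sum.inr j))

/-- the translate -/
def trl {m : ℕ} (W : Fin m → ℤ × ℤ) (w : Pt m) : Fin m → ℤ × ℤ :=
  fun j => ((W j).1 + ((w j).1 : ℤ), (W j).2 + ((w j).2 : ℤ))

theorem many_Pd {p m : ℕ} {Z : (Fin m → ℤ × ℤ) → ℝ}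
    (h : ∀ W : Fin m → ℤ × ℤ, PerM p (fun w => Z (trl W w))) :
    Pd p (fun c : Fin m ⊕ Fin m → ℤ => Z (prs c)) := by
  -- one step
  have step : ∀ (W : Fin m → ℤ × ℤ) (j : Fin m),
      Z (Function.update W j ((W j).1 + (p : ℤ), (W j).2)) = Z W ∧
      Z (Function.update W j ((W j).1, (W j).2 + (p : ℤ))) = Z W := by
    intro W j
    have h1 := h W j (fun _ => (0, 0))
    have e0 : trl W (fun _ => (0, 0)) = W := by
      funext i
      simp [trl]
    have e1 : trl W (Function.update (fun _ => ((0, 0) : ℕ × ℕ)) j ((0 : ℕ) + p, (0 : ℕ))) =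
        Function.update W j ((W j).1 + (p : ℤ), (W j).2) := by
      funext i
      by_cases hi : i = j
      · subst hi
        simp [trl]
      · simp [trl, hi]
    have e2 : trl W (Function.update (fun _ => ((0, 0) : ℕ × ℕ)) j ((0 : ℕ), (0 : ℕ) + p)) =
        Function.update W j ((W j).1, (W j).2 + (p : ℤ)) := by
      funext i
      by_cases hi : i = j
      · subst hi
        simp [trl]
      · simp [trl, hi]
    simp only at h1
    rw [e0, e1, e2] at h1
    exact h1
  have upd : ∀ (W : Fin m → ℤ × ℤ) (j : Fin m) (u v : ℤ), (u : ZMod p) = ((W j).1 : ZMod p) →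
      (v : ZMod p) = ((W j).2 : ZMod p) → Z (Function.update W j (u, v)) = Z W := by
    intro W j u v hu hv
    have a1 : Z (Function.update W j (u, v)) = Z (Function.update W j ((W j).1, v)) := by
      refine int_per (H := fun t => Z (Function.update W j (t, v))) (fun U => ?_) hu
      have := (step (Function.update W j (U, v)) j).1
      rw [Function.update_self, Function.update_idem] at this
      exact this
    have a2 : Z (Function.update W j ((W j).1, v)) = Z (Function.update W j ((W j).1, (W j).2)) := by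
      refine int_per (H := fun t => Z (Function.update W j ((W j).1, t))) (fun V => ?_) hv
      have := (step (Function.update W j ((W j).1, V)) j).2
      rw [Function.update_self, Function.update_idem] at this
      exact this
    rw [a1, a2]
    congr 1
    exact Function.update_eq_self j W
  intro c c' hc
  show Z (prs c) = Z (prs c')
  have key : ∀ T : Finset (Fin m), Z (fun j => if j ∈ T then prs c' j else prs c j) = Z (prs c) := by
    intro T
    induction T using Finset.induction_on with
    | empty => simp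
    | insert j T hj ih =>
      rw [← ih]
      have e : (fun i => if i ∈ insert j T then prs c' i else prs c i) =
          Function.update (fun i => if i ∈ T then prs c' i else prs c i) j (prs c' j) := by
        funext i
        by_cases hi : i = j
        · subst hi
          simp
        · simp [hi, Finset.mem_insert]
      rw [e]
      have e2 : prs c' j = ((prs c' j).1, (prs c' j).2) := rfl
      rw [e2]
      apply upd
      · rw [if_neg hj]
        exact (congrFun hc (Sum.inl j)).symm
      · rw [if_neg hj]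
        exact (congrFun hc (Sum.inr j)).symm
  have := key Finset.univ
  rw [← this]
  congr 1
  funext j
  simp

theorem avgPM_sum_eq (p : ℕ) : ∀ (m : ℕ) (F : Pt m → ℝ), avgPM p m F =
    (∑ r : Fin m → Fin p × Fin p, F (fun j => (((r j).1 : ℕ), ((r j).2 : ℕ)))) / (p : ℝ) ^ (2 * m)
  | 0, F => by
    show F Fin.elim0 = _
    rw [Fintype.sum_unique]
    simp only [mul_zero, pow_zero, div_one]
    congr 1
    exact Subsingleton.elim _ _
  | m + 1, F => by
    show avgP2 p (fun u v => avgPM p m (fun w => F (pc u v w))) = _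
    simp only [avgPM_sum_eq p m]
    rw [avgP2_eq]
    simp only [← Finset.sum_div]
    rw [div_div, ← pow_add]
    have e3 : 2 * m + 2 = 2 * (m + 1) := by ring
    rw [e3]
    congr 1
    rw [Finset.sum_range]
    simp only [Finset.sum_range]
    rw [← Fintype.sum_prod_type' (f := fun (u v : Fin p) => ∑ r : Fin m → Fin p × Fin p,
      F (pc (u : ℕ) (v : ℕ) (fun j => (((r j).1 : ℕ), ((r j).2 : ℕ))))),
      ← Fintype.sum_prod_type' (f := fun (z : Fin p × Fin p) (r : Fin m → Fin p × Fin p) =>
      F (pc (z.1 : ℕ) (z.2 : ℕ) (fun j => (((r j).1 : ℕ), ((r j).2 : ℕ)))))]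
    refine Fintype.sum_equiv (Fin.consEquiv (fun _ => Fin p × Fin p)) _ _ fun z => ?_
    congr 1
    funext j
    refine Fin.cases ?_ (fun j => ?_) j
    · simp [pc, Fin.consEquiv]
    · simp [pc, Fin.consEquiv]

theorem many_PM (p m : ℕ) (Z : (Fin m → ℤ × ℤ) → ℝ) :
    PM p (fun c : Fin m ⊕ Fin m → ℤ => Z (prs c)) = avgPM p m (fun w => Z (trl (fun _ => (0, 0)) w)) := by
  rw [avgPM_sum_eq]
  unfold PM
  rw [Fintype.card_sum, Fintype.card_fin, ← two_mul]
  congr 1
  refine Fintype.sum_equiv ((Equiv.sumArrowEquivProdArrow (Fin m) (Fin m) (Fin p)).trans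
    (Equiv.arrowProdEquivProdArrow _ _ _).symm) _ _ fun r => ?_
  show Z (prs fun i => ((r i : ℕ) : ℤ)) = _
  congr 1
  funext j
  simp [prs, trl, Equiv.sumArrowEquivProdArrow, Equiv.arrowProdEquivProdArrow]

end Pool.Agent.N666.TB
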