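import Pool.Agent.N666.TB.CLT
import Pool.Agent.N666.TB.Conv
import Pool.Agent.X278.AV.Art2
import Pool.Agent.N397.AV.TwA
import Pool.Agent.N430.BP.NF4

set_option autoImplicit false
set_option linter.all false

/-! # Artin twists of thin families of elliptic curves at the central point: the local variables -/

namespace Pool.Agent.N666.TB

open Finset Filter Topology Pool.Agent.N430.BP
open Pool.Agent.X278.AV (fA fA_size gA gA_le exA fT)
open Pool.Agent.N397.AV (mA mA_le exA2)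

variable {n : ℕ}

/-- the logarithm of the local factor, as a function of the coefficients -/
noncomputable def gp (μ : Nat.Primes → Fin n → ℂ) (p : ℕ) (w : Fin 2 → ℤ) : ℝ :=
  if h : p.Prime then fA μ ⟨p, h⟩ (fun j => ((w j : ℤ) : ZMod p)) else 0

/-- `∑ Re μ_j²` -/
noncomputable def kap (μ : Nat.Primes → Fin n → ℂ) (p : ℕ) : ℝ :=
  if h : p.Prime then ∑ j, (μ ⟨p, h⟩ j ^ 2).re else 0

/-- `(∑ Re μ_j)²` -/
noncomputable def kap2 (μ : Nat.Primes → Fin n → ℂ) (p : ℕ) : ℝ :=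
  if h : p.Prime then mA μ ⟨p, h⟩ ^ 2 else 0

theorem gp_Pd (μ : Nat.Primes → Fin n → ℂ) {p : ℕ} (hp : p.Prime) : Pd p (gp μ p) := by
  intro c c' hc
  unfold gp
  rw [dif_pos hp, dif_pos hp]
  congr 1

theorem gp_le {μ : Nat.Primes → Fin n → ℂ} (hμ : ∀ p j, ‖μ p j‖ ≤ 1) {p : ℕ} (hp : p.Prime)
    (w : Fin 2 → ℤ) : |gp μ p w| ≤ 8 * n * ri p := by
  unfold gp ri
  rw [dif_pos hp]
  refine (fA_size hμ ⟨p, hp⟩ _).trans (le_of_eq ?_)
  rw [div_eq_mul_inv]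

theorem PM_fun {p : ℕ} [NeZero p] (φ : (Fin 2 → ZMod p) → ℝ) :
    PM p (fun w : Fin 2 → ℤ => φ (fun j => ((w j : ℤ) : ZMod p))) =
      (∑ r : Fin 2 → ZMod p, φ r) / (p : ℝ) ^ 2 := by
  rw [PM_EM]
  unfold Pool.Agent.Y722.HS.EM
  rw [Fintype.card_fin]
  congr 1
  refine Finset.sum_congr rfl fun r _ => ?_
  show φ (fun j => (((r j).val : ℤ) : ZMod p)) = φ r
  congr 1
  funext j
  simp

theorem kap_le {μ : Nat.Primes → Fin n → ℂ} (hμ : ∀ p j, ‖μ p j‖ ≤ 1) (p : ℕ) : |kap μ p| ≤ n := by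
  unfold kap
  split_ifs with h
  · refine (Finset.abs_sum_le_sum_abs _ _).trans ?_
    calc _ ≤ ∑ _j : Fin n, (1 : ℝ) := Finset.sum_le_sum fun j _ => (Complex.abs_re_le_norm _).trans (by
            rw [norm_pow]
            exact pow_le_one₀ (norm_nonneg _) (hμ _ j))
      _ = n := by simp
  · simp

theorem kap2_le {μ : Nat.Primes → Fin n → ℂ} (hμ : ∀ p j, ‖μ p j‖ ≤ 1) (p : ℕ) :
    0 ≤ kap2 μ p ∧ kap2 μ p ≤ n ^ 2 := by
  unfold kap2
  split_ifs with h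
  · exact ⟨sq_nonneg _, mA_le hμ _⟩
  · exact ⟨le_rfl, sq_nonneg _⟩

/-- the passage from the minimal pairs to all pairs -/
theorem avg_of_Ex {p : ℝ} (hp : 2 ≤ p) {A g K : ℝ} (hK : 0 ≤ K) {ε : ℝ} (hε : ε = (p ^ 10)⁻¹)
    (h : |A / (1 - ε) - g| ≤ K / (√p * p)) (hg : |g| ≤ K / p) : |A - g| ≤ 2 * K / (√p * p) := by
  have hp0 : 0 < p := by linarith
  have hs0 : 0 < √p := Real.sqrt_pos.2 hp0
  have hε0 : 0 < ε := by rw [hε]; positivity
  have hε1 : ε ≤ 1 / p := by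
    rw [hε, ← one_div]
    apply one_div_le_one_div_of_le hp0
    have : p ^ 1 ≤ p ^ 10 := pow_le_pow_right₀ (by linarith) (by norm_num)
    simpa using this
  have hε2 : ε ≤ 1 / 2 := hε1.trans (one_div_le_one_div_of_le (by norm_num) hp)
  have e1 : A - g = (1 - ε) * (A / (1 - ε) - g) - ε * g := by
    have : (1 - ε) ≠ 0 := by linarith
    field_simp
    ring
  rw [e1]
  have h3 : √p ≤ p := by
    rw [Real.sqrt_le_left hp0.le]
    nlinarith
  have h1 : |(1 - ε) * (A / (1 - ε) - g)| ≤ K / (√p * p) := by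
    rw [abs_mul, abs_of_nonneg (by linarith : 0 ≤ 1 - ε)]
    calc (1 - ε) * |A / (1 - ε) - g| ≤ 1 * |A / (1 - ε) - g| :=
          mul_le_mul_of_nonneg_right (by linarith) (abs_nonneg _)
      _ ≤ _ := by rw [one_mul]; exact h
  have h2 : |ε * g| ≤ K / (√p * p) := by
    rw [abs_mul, abs_of_pos hε0]
    calc ε * |g| ≤ (1 / p) * (K / p) := mul_le_mul hε1 hg (abs_nonneg _) (by positivity)
      _ ≤ (1 / √p) * (K / p) := by gcongr
      _ = _ := by field_simp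
  refine (abs_sub _ _).trans ((add_le_add h1 h2).trans (le_of_eq ?_))
  ring

theorem ri3_eq (p : ℕ) (hp : 0 < p) : 1 / (√(p : ℝ) * p) = ri p ^ 3 := by
  have hp0 : (0 : ℝ) < p := by exact_mod_cast hp
  unfold ri
  rw [inv_pow, one_div]
  congr 1
  have : √(p : ℝ) ^ 2 = p := Real.sq_sqrt hp0.le
  calc √(p : ℝ) * p = √(p : ℝ) * √(p : ℝ) ^ 2 := by rw [this]
    _ = _ := by ring

theorem mean_gp' {μ : Nat.Primes → Fin n → ℂ} (hμ : ∀ p j, ‖μ p j‖ ≤ 1) (p : Nat.Primes) :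
    |PM p (gp μ p) - kap μ p / (2 * (p : ℕ))| ≤ 48 * n * ri p ^ 3 := by
  have hp : (p : ℕ).Prime := p.2
  have h1 := exA hμ p
  have hg := gA_le hμ p
  have h10 : ∑ j, Pool.Agent.X278.AV.eH j = 10 := by simp [Pool.Agent.X278.AV.eH]
  unfold Pool.Agent.X278.AV.Ex at h1
  rw [h10] at h1
  have hp2 : (2 : ℝ) ≤ (p : ℕ) := by exact_mod_cast hp.two_le
  have hn : (0 : ℝ) ≤ n := Nat.cast_nonneg n
  have e1 : PM p (gp μ p) = Pool.Agent.X278.AV.avg (fA μ p) := by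
    have : gp μ p = fun w : Fin 2 → ℤ => fA μ p (fun j => ((w j : ℤ) : ZMod p)) := by
      funext w
      unfold gp
      rw [dif_pos hp]
      rfl
    rw [this, PM_fun (fA μ p)]
    rfl
  have e2 : kap μ p / (2 * (p : ℕ)) = gA μ p := by
    unfold kap gA
    rw [dif_pos hp, Finset.sum_div]
    rfl
  rw [e1, e2]
  have h2 := avg_of_Ex (K := 24 * n) hp2 (by positivity) rfl h1 (hg.trans (by
    apply (div_le_div_of_nonneg_right (by linarith : (n : ℝ) ≤ 24 * n) (by positivity)).trans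
    apply div_le_div_of_nonneg_left (by positivity) (by linarith)
    linarith))
  refine h2.trans (le_of_eq ?_)
  rw [← ri3_eq p hp.pos]
  ring

theorem mean_gp {μ : Nat.Primes → Fin n → ℂ} (hμ : ∀ p j, ‖μ p j‖ ≤ 1) {p : ℕ} (hp : p.Prime) :
    |PM p (gp μ p) - kap μ p / (2 * p)| ≤ 48 * n * ri p ^ 3 := mean_gp' hμ ⟨p, hp⟩

theorem mean_gp2' {μ : Nat.Primes → Fin n → ℂ} (hμ : ∀ p j, ‖μ p j‖ ≤ 1) (p : Nat.Primes) :
    |PM p (fun w => gp μ p w ^ 2) - kap2 μ p / (p : ℕ)| ≤ 260 * n ^ 2 * ri p ^ 3 := by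
  have hp : (p : ℕ).Prime := p.2
  have h1 := exA2 hμ p
  have hg := mA_le hμ p
  have h10 : ∑ j, Pool.Agent.X278.AV.eH j = 10 := by simp [Pool.Agent.X278.AV.eH]
  unfold Pool.Agent.X278.AV.Ex at h1
  rw [h10] at h1
  have hp2 : (2 : ℝ) ≤ (p : ℕ) := by exact_mod_cast hp.two_le
  have hn : (0 : ℝ) ≤ n := Nat.cast_nonneg n
  have e1 : PM p (fun w => gp μ p w ^ 2) = Pool.Agent.X278.AV.avg (fun r => fA μ p r ^ 2) := by
    have : (fun w => gp μ p w ^ 2) = fun w : Fin 2 → ℤ =>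
        (fun r => fA μ p r ^ 2) (fun j => ((w j : ℤ) : ZMod p)) := by
      funext w
      unfold gp
      rw [dif_pos hp]
      rfl
    rw [this, PM_fun (fun r => fA μ p r ^ 2)]
    rfl
  have e2 : kap2 μ p / (p : ℕ) = mA μ p ^ 2 / (p : ℕ) := by
    unfold kap2
    rw [dif_pos hp]
    rfl
  rw [e1, e2]
  have h2 := avg_of_Ex (K := 130 * n ^ 2) hp2 (by positivity) rfl h1 (by
    rw [abs_of_nonneg (by positivity)]
    apply div_le_div_of_nonneg_right _ (by positivity)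
    nlinarith [sq_nonneg (n : ℝ)])
  refine h2.trans (le_of_eq ?_)
  rw [← ri3_eq p hp.pos]
  ring

theorem mean_gp2 {μ : Nat.Primes → Fin n → ℂ} (hμ : ∀ p j, ‖μ p j‖ ≤ 1) {p : ℕ} (hp : p.Prime) :
    |PM p (fun w => gp μ p w ^ 2) - kap2 μ p / p| ≤ 260 * n ^ 2 * ri p ^ 3 := mean_gp2' hμ ⟨p, hp⟩

/-- the centred variable -/
noncomputable def XA (μ : Nat.Primes → Fin n → ℂ) (p : ℕ) (w : Fin 2 → ℤ) : ℝ :=
  gp μ p w - PM p (gp μ p)

theorem PM_abs_le {ι : Type} [Fintype ι] [DecidableEq ι] {M : ℕ} (hM : 0 < M) {f : (ι → ℤ) → ℝ} {b : ℝ}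
    (h : ∀ w, |f w| ≤ b) : |PM M f| ≤ b := by
  rw [abs_le]
  constructor
  · rw [← PM_const (ι := ι) hM (-b)]
    exact PM_mono fun w => (abs_le.1 (h w)).1
  · rw [← PM_const (ι := ι) hM b]
    exact PM_mono fun w => (abs_le.1 (h w)).2

theorem XA_Pd (μ : Nat.Primes → Fin n → ℂ) {p : ℕ} (hp : p.Prime) : Pd p (XA μ p) := by
  intro c c' hc
  unfold XA
  rw [gp_Pd μ hp c c' hc]

theorem XA_le {μ : Nat.Primes → Fin n → ℂ} (hμ : ∀ p j, ‖μ p j‖ ≤ 1) {p : ℕ} (hp : p.Prime)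
    (w : Fin 2 → ℤ) : |XA μ p w| ≤ (16 * n) * ri p := by
  unfold XA
  have h1 := gp_le hμ hp w
  have h2 := PM_abs_le hp.pos (gp_le hμ hp)
  refine (abs_sub _ _).trans ?_
  linarith

theorem XA_mean (μ : Nat.Primes → Fin n → ℂ) {p : ℕ} (hp : p.Prime) : PM p (XA μ p) = 0 := by
  have e : XA μ p = fun w => gp μ p w + (-PM p (gp μ p)) := by
    funext w
    unfold XA
    ring
  rw [e, PM_add, PM_const hp.pos]
  ring

theorem XA_var {μ : Nat.Primes → Fin n → ℂ} (hμ : ∀ p j, ‖μ p j‖ ≤ 1) {p : ℕ} (hp : p.Prime) :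
    |PM p (fun w => XA μ p w ^ 2) - kap2 μ p / p| ≤ (260 * n ^ 2 + (49 * n) ^ 2) * ri p ^ 3 := by
  set m := PM p (gp μ p) with hm
  have hr0 := ri_nonneg p
  have hr1 := ri_le_one hp.pos
  have hn : (0 : ℝ) ≤ n := Nat.cast_nonneg n
  have hp0 : (0 : ℝ) < p := by exact_mod_cast hp.pos
  have e : PM p (fun w => XA μ p w ^ 2) = PM p (fun w => gp μ p w ^ 2) - m ^ 2 := by
    have e1 : (fun w => XA μ p w ^ 2) = fun w => gp μ p w ^ 2 + ((-2 * m) * gp μ p w + m ^ 2) := by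
      funext w
      unfold XA
      rw [← hm]
      ring
    rw [e1, PM_add, PM_add, PM_mul_left, PM_const hp.pos, ← hm]
    ring
  have h1 := mean_gp2 hμ hp
  have h2 := mean_gp hμ hp
  rw [← hm] at h2
  have h3 : |kap μ p / (2 * p)| ≤ n * ri p ^ 2 := by
    rw [abs_div, abs_of_pos (by positivity : (0 : ℝ) < 2 * p), ri_sq]
    have := kap_le hμ p
    rw [div_le_iff₀ (by positivity)]
    calc |kap μ p| ≤ n := this
      _ ≤ n * 2 := by linarith
      _ = n * (p : ℝ)⁻¹ * (2 * p) := by field_simp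
  have h4 : |m| ≤ 49 * n * ri p ^ 2 := by
    have h5 : m = (m - kap μ p / (2 * p)) + kap μ p / (2 * p) := by ring
    rw [h5]
    refine (abs_add_le _ _).trans ?_
    have h6 : 48 * n * ri p ^ 3 ≤ 48 * n * ri p ^ 2 := by
      apply mul_le_mul_of_nonneg_left _ (by positivity)
      exact pow_le_pow_of_le_one hr0 hr1 (by norm_num)
    linarith
  have h7 : m ^ 2 ≤ (49 * n) ^ 2 * ri p ^ 3 := by
    rw [← sq_abs]
    calc |m| ^ 2 ≤ (49 * n * ri p ^ 2) ^ 2 := pow_le_pow_left₀ (abs_nonneg _) h4 2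
      _ = (49 * n) ^ 2 * ri p ^ 4 := by ring
      _ ≤ _ := mul_le_mul_of_nonneg_left (pow_le_pow_of_le_one hr0 hr1 (by norm_num)) (by positivity)
  rw [e]
  have h8 : PM p (fun w => gp μ p w ^ 2) - m ^ 2 - kap2 μ p / p =
      (PM p (fun w => gp μ p w ^ 2) - kap2 μ p / p) - m ^ 2 := by ring
  rw [h8]
  refine (abs_sub _ _).trans ?_
  rw [abs_of_nonneg (sq_nonneg m), add_mul]
  linarith

/-- the centred logarithm of the product -/
noncomputable def DA (μ : Nat.Primes → Fin n → ℂ) (x : ℕ) (w : Fin 2 → ℤ) : ℝ :=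
  ∑ p ∈ Pr x, gp μ p w - ∑ p ∈ Pr x, kap μ p / (2 * p)

theorem DA_near {μ : Nat.Primes → Fin n → ℂ} (hμ : ∀ p j, ‖μ p j‖ ≤ 1) : ∃ C0 : ℝ, 0 ≤ C0 ∧
    ∀ x : ℕ, 3 ≤ x → ∀ w, |DA μ x w - ∑ p ∈ OP x, XA μ p w| ≤ C0 := by
  set Z := ∑' n : ℕ, (n : ℝ) ^ (-(3 / 2) : ℝ) with hZ
  have hZ0 : 0 ≤ Z := tsum_nonneg fun n => by positivity
  have hn : (0 : ℝ) ≤ n := Nat.cast_nonneg n
  refine ⟨48 * n * Z + (8 * n + n), by positivity, fun x hx w => ?_⟩
  have e1 := sum_OP (fun p => gp μ p w) (x := x) (by omega)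
  have e2 := sum_OP (fun p => kap μ p / (2 * p)) (x := x) (by omega)
  have b1 : |gp μ 2 w| ≤ 8 * n := by
    refine (gp_le hμ Nat.prime_two w).trans ?_
    have := ri_le_one (show 0 < 2 by norm_num)
    exact mul_le_of_le_one_right (by positivity) this
  have b2 : |kap μ 2 / (2 * (2 : ℕ))| ≤ n := by
    rw [abs_div]
    have := kap_le hμ 2
    rw [abs_of_pos (by norm_num : (0 : ℝ) < 2 * ((2 : ℕ) : ℝ)), div_le_iff₀ (by norm_num)]
    push_cast
    linarith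
  have b3 : |∑ p ∈ OP x, (PM p (gp μ p) - kap μ p / (2 * p))| ≤ 48 * n * Z := by
    refine (Finset.abs_sum_le_sum_abs _ _).trans
      ((Finset.sum_le_sum fun p hp => mean_gp hμ (mem_OP.1 hp).2.1).trans ?_)
    rw [← Finset.mul_sum]
    exact mul_le_mul_of_nonneg_left (sum_ri x) (by positivity)
  have e3 : DA μ x w - ∑ p ∈ OP x, XA μ p w =
      ∑ p ∈ OP x, (PM p (gp μ p) - kap μ p / (2 * p)) + (gp μ 2 w - kap μ 2 / (2 * (2 : ℕ))) := by
    unfold DA XA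
    simp only [Finset.sum_sub_distrib]
    linarith [e1, e2]
  rw [e3]
  refine (abs_add_le _ _).trans (add_le_add b3 ((abs_sub _ _).trans (add_le_add b1 b2)))

end Pool.Agent.N666.TB
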