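import Pool.Agent.N666.TB.Gau

set_option autoImplicit false
set_option linter.all false
set_option linter.unusedSectionVars false

/-! # The joint laws at several lengths along a thin sequence: Brownian motion -/

namespace Pool.Agent.N666.TB

open Finset Filter Topology MeasureTheory ProbabilityTheory Pool.Agent.N430.BP
open Pool.Agent.N666.TM (Well WellSeq lawS fixS fixS_ne fixS_ev lawS_prob lawS_apply)

theorem OP_mono_filter {y x : ℕ} (h : y ≤ x) : (OP x).filter (fun p => p ≤ y) = OP y := by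
  ext p
  rw [mem_filter, mem_OP, mem_OP]
  constructor
  · rintro ⟨⟨_, h2⟩, h3⟩
    exact ⟨h3, h2⟩
  · rintro ⟨h3, h2⟩
    exact ⟨⟨h3.trans h, h2⟩, h3⟩

theorem sum_le_filter {y x : ℕ} (h : y ≤ x) (f : ℕ → ℝ) :
    ∑ p ∈ OP x, (if p ≤ y then f p else 0) = ∑ p ∈ OP y, f p := by
  rw [← Finset.sum_filter, OP_mono_filter h]

theorem loglog_min {a b : ℕ} (ha : 3 ≤ a) (hb : 3 ≤ b) :
    Real.log (Real.log ((min a b : ℕ) : ℝ)) = min (Real.log (Real.log a)) (Real.log (Real.log b)) := by
  have key : ∀ {a b : ℕ}, 3 ≤ a → a ≤ b → Real.log (Real.log (a : ℝ)) ≤ Real.log (Real.log b) := by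
    intro a b ha hab
    have h0 : (0 : ℝ) < a := by exact_mod_cast (by omega : 0 < a)
    have h1 : (1 : ℝ) < a := by exact_mod_cast (by omega : 1 < a)
    exact Real.log_le_log (Real.log_pos h1) (Real.log_le_log h0 (by exact_mod_cast hab))
  rcases le_total a b with h | h
  · rw [min_eq_left h, min_eq_left (key ha h)]
  · rw [min_eq_right h, min_eq_right (key hb h)]

section
variable {ι : Type} [Fintype ι] [DecidableEq ι]

/-- **The joint laws at several lengths** -/
theorem fdd_thin {S : ℕ → Finset ℕ} {c : ℕ → ι → ℤ} {ρ : ℝ} (hρ : 0 < ρ) (hS : WellSeq S c ρ)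
    (X : ℕ → (ι → ℤ) → ℝ) {b0 : ℝ} (hb0 : 0 ≤ b0)
    (hper : ∀ p, p.Prime → p ≠ 2 → Pd p (X p))
    (hX : ∀ p, p.Prime → p ≠ 2 → ∀ w, |X p w| ≤ b0 * ri p)
    (hm : ∀ p, p.Prime → p ≠ 2 → PM p (X p) = 0)
    {v : ℝ} (hV : Tendsto (fun x : ℕ => (∑ p ∈ OP x, PM p (fun w => X p w ^ 2)) /
      Real.log (Real.log x)) atTop (𝓝 v))
    (D : ℕ → (ι → ℤ) → ℝ) {C0 : ℝ} (hC0 : 0 ≤ C0)
    (hD : ∀ x : ℕ, 3 ≤ x → ∀ w, |D x w - ∑ p ∈ OP x, X p w| ≤ C0)
    {x : ℕ → ℕ} (hx : Tendsto x atTop atTop) (hxN : ∀ K : ℕ, ∀ᶠ N : ℕ in atTop, x N ^ K ≤ N)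
    {κ : Type} [Fintype κ] (y : κ → ℕ → ℕ) (hyx : ∀ j N, y j N ≤ x N) (hy : ∀ j, Tendsto (y j) atTop atTop)
    (u : κ → ℝ) (hyu : ∀ j, Tendsto (fun N => Real.log (Real.log (y j N)) / Real.log (Real.log (x N)))
      atTop (𝓝 (u j))) (t : κ → ℝ) :
    Tendsto (fun N => SC (S N) c (fun w => Complex.exp (((∑ j, t j * D (y j N) w) /
      √(Real.log (Real.log (x N))) : ℝ) * Complex.I))) atTop
      (𝓝 (Complex.exp (-((v * (∑ i, ∑ j, t i * t j * min (u i) (u j)) / 2 : ℝ) : ℂ)))) := by
  classical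
  have hLt : Tendsto (fun N => Real.log (Real.log (x N))) atTop atTop :=
    Real.tendsto_log_atTop.comp (Real.tendsto_log_atTop.comp (tendsto_natCast_atTop_atTop.comp hx))
  have hsL : Tendsto (fun N => √(Real.log (Real.log (x N)))) atTop atTop := Real.tendsto_sqrt_atTop.comp hLt
  set T : ℝ := 1 + ∑ j, |t j| with hT
  have hT0 : 0 < T := by
    have : 0 ≤ ∑ j, |t j| := Finset.sum_nonneg fun _ _ => abs_nonneg _
    linarith
  set a : ℕ → ℕ → ℝ := fun N p => (∑ j, if p ≤ y j N then t j else 0) / T with ha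
  have ha1 : ∀ N p, |a N p| ≤ 1 := by
    intro N p
    rw [ha]
    simp only
    rw [abs_div, abs_of_pos hT0, div_le_one hT0]
    refine (Finset.abs_sum_le_sum_abs _ _).trans ?_
    have : ∀ j ∈ (Finset.univ : Finset κ), |if p ≤ y j N then t j else 0| ≤ |t j| := by
      intro j _
      split_ifs
      · exact le_rfl
      · rw [abs_zero]; exact abs_nonneg _
    refine (Finset.sum_le_sum this).trans ?_
    rw [hT]
    linarith
  have hsum : ∀ N w, T * ∑ p ∈ OP (x N), a N p * X p w = ∑ j, t j * ∑ p ∈ OP (y j N), X p w := by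
    intro N w
    have e1 : ∀ p, T * (a N p * X p w) = ∑ j, t j * (if p ≤ y j N then X p w else 0) := by
      intro p
      rw [ha]
      simp only
      have : T * ((∑ j, if p ≤ y j N then t j else 0) / T * X p w) = (∑ j, if p ≤ y j N then t j else 0) * X p w := by
        field_simp
      rw [this, Finset.sum_mul]
      refine Finset.sum_congr rfl fun j _ => ?_
      split_ifs <;> ring
    rw [Finset.mul_sum]
    simp only [e1]
    rw [Finset.sum_comm]
    refine Finset.sum_congr rfl fun j _ => ?_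
    rw [← Finset.mul_sum, sum_le_filter (hyx j N)]
  have hmin : ∀ i j, Tendsto (fun N => (∑ p ∈ OP (min (y i N) (y j N)), PM p (fun w => X p w ^ 2)) /
      Real.log (Real.log (x N))) atTop (𝓝 (v * min (u i) (u j))) := by
    intro i j
    have hm1 : Tendsto (fun N => min (y i N) (y j N)) atTop atTop := by
      rw [tendsto_atTop]
      intro b
      filter_upwards [(hy i).eventually_ge_atTop b, (hy j).eventually_ge_atTop b] with N h1 h2
      exact le_min h1 h2
    have hm2 := hV.comp hm1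
    have hm3 : Tendsto (fun N => Real.log (Real.log ((min (y i N) (y j N) : ℕ) : ℝ)) / Real.log (Real.log (x N)))
        atTop (𝓝 (min (u i) (u j))) := by
      refine ((hyu i).min (hyu j)).congr' ?_
      filter_upwards [(hy i).eventually_ge_atTop 3, (hy j).eventually_ge_atTop 3, hLt.eventually_gt_atTop 0]
        with N h1 h2 h3
      rw [loglog_min h1 h2]
      rcases le_total (Real.log (Real.log (y i N))) (Real.log (Real.log (y j N))) with h | h
      · rw [min_eq_left h, min_eq_left (div_le_div_of_nonneg_right h h3.le)]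
      · rw [min_eq_right h, min_eq_right (div_le_div_of_nonneg_right h h3.le)]
    have hm4 : Tendsto (fun N => Real.log (Real.log ((min (y i N) (y j N) : ℕ) : ℝ))) atTop atTop :=
      Real.tendsto_log_atTop.comp (Real.tendsto_log_atTop.comp (tendsto_natCast_atTop_atTop.comp hm1))
    refine (hm2.mul hm3).congr' ?_
    filter_upwards [hm4.eventually_gt_atTop 0, hLt.eventually_gt_atTop 0] with N h1 h2
    simp only [Function.comp]
    field_simp
  have hσ : Tendsto (fun N => (∑ p ∈ OP (x N), a N p ^ 2 * PM p (fun w => X p w ^ 2)) /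
      Real.log (Real.log (x N))) atTop (𝓝 (v * (∑ i, ∑ j, t i * t j * min (u i) (u j)) / T ^ 2)) := by
    have h1 : Tendsto (fun N => (∑ i, ∑ j, t i * t j * ((∑ p ∈ OP (min (y i N) (y j N)),
        PM p (fun w => X p w ^ 2)) / Real.log (Real.log (x N)))) / T ^ 2) atTop
        (𝓝 ((∑ i, ∑ j, t i * t j * (v * min (u i) (u j))) / T ^ 2)) :=
      (tendsto_finsetSum _ fun i _ => tendsto_finsetSum _ fun j _ => (hmin i j).const_mul _).div_const _
    have e1 : (∑ i, ∑ j, t i * t j * (v * min (u i) (u j))) / T ^ 2 =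
        v * (∑ i, ∑ j, t i * t j * min (u i) (u j)) / T ^ 2 := by
      congr 1
      rw [Finset.mul_sum]
      refine Finset.sum_congr rfl fun i _ => ?_
      rw [Finset.mul_sum]
      refine Finset.sum_congr rfl fun j _ => ?_
      ring
    rw [e1] at h1
    refine h1.congr fun N => ?_
    have e2 : ∀ p, a N p ^ 2 * PM p (fun w => X p w ^ 2) = (∑ i, ∑ j, t i * t j *
        (if p ≤ min (y i N) (y j N) then PM p (fun w => X p w ^ 2) else 0)) / T ^ 2 := by
      intro p
      rw [ha]
      simp only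
      rw [div_pow, div_mul_eq_mul_div]
      congr 1
      rw [sq, Finset.sum_mul_sum, Finset.sum_mul]
      refine Finset.sum_congr rfl fun i _ => ?_
      rw [Finset.sum_mul]
      refine Finset.sum_congr rfl fun j _ => ?_
      by_cases h1 : p ≤ y i N <;> by_cases h2 : p ≤ y j N <;> simp [h1, h2]
    have e3 : ∑ p ∈ OP (x N), a N p ^ 2 * PM p (fun w => X p w ^ 2) = (∑ i, ∑ j, t i * t j *
        ∑ p ∈ OP (min (y i N) (y j N)), PM p (fun w => X p w ^ 2)) / T ^ 2 := by
      simp only [e2]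
      rw [← Finset.sum_div, Finset.sum_comm]
      congr 1
      refine Finset.sum_congr rfl fun i _ => ?_
      rw [Finset.sum_comm]
      refine Finset.sum_congr rfl fun j _ => ?_
      rw [← Finset.mul_sum, sum_le_filter ((min_le_left _ _).trans (hyx i N))]
    rw [e3, div_right_comm]
    congr 1
    rw [Finset.sum_div]
    refine Finset.sum_congr rfl fun i _ => ?_
    rw [Finset.sum_div]
    refine Finset.sum_congr rfl fun j _ => ?_
    rw [mul_div_assoc]
  have h2 := clt_thin hρ hS X hb0 hper hX hm a ha1 hx hxN hσ T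
  have e0 : T ^ 2 * (v * (∑ i, ∑ j, t i * t j * min (u i) (u j)) / T ^ 2) / 2 =
      v * (∑ i, ∑ j, t i * t j * min (u i) (u j)) / 2 := by
    field_simp
  rw [e0] at h2
  have h4 : Tendsto (fun N => SC (S N) c (fun w => Complex.exp (((∑ j, t j * D (y j N) w) /
      √(Real.log (Real.log (x N))) : ℝ) * Complex.I)) - SC (S N) c (fun w => Complex.exp ((T *
        ((∑ p ∈ OP (x N), a N p * X p w) / √(Real.log (Real.log (x N)))) : ℝ) * Complex.I))) atTop (𝓝 0) := by
    have h0 : Tendsto (fun N => (∑ j, |t j| * C0) / √(Real.log (Real.log (x N)))) atTop (𝓝 0) :=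
      tendsto_const_nhds.div_atTop hsL
    refine squeeze_zero_norm' ?_ h0
    have hy3 : ∀ᶠ N in atTop, ∀ j, 3 ≤ y j N := by
      rw [eventually_all]
      exact fun j => (hy j).eventually_ge_atTop 3
    filter_upwards [hsL.eventually_gt_atTop 0, hy3] with N hN h3N
    refine SC_sub_le _ _ (by positivity) fun w => (exp_sub_le _ _).trans ?_
    rw [← mul_div_assoc, hsum N w, ← sub_div, abs_div, abs_of_pos hN]
    apply div_le_div_of_nonneg_right _ hN.le
    rw [← Finset.sum_sub_distrib]
    refine (Finset.abs_sum_le_sum_abs _ _).trans (Finset.sum_le_sum fun j _ => ?_)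
    rw [← mul_sub, abs_mul]
    exact mul_le_mul_of_nonneg_left (hD _ (h3N j) w) (abs_nonneg _)
  have h5 := h4.add h2
  rw [zero_add] at h5
  refine h5.congr fun N => ?_
  rw [sub_add_cancel]

end

end Pool.Agent.N666.TB
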