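import Pool.Agent.N666.TB.Art
import Pool.Agent.N666.TB.Ab
import Pool.Agent.N666.TB.Fdd

set_option autoImplicit false
set_option linter.all false

/-! # Artin twists: the parameters of the law -/

namespace Pool.Agent.N666.TB

open Finset Filter Topology Pool.Agent.N430.BP
open Pool.Agent.W401.Cheb (M pr)

variable {n : ℕ}

theorem XA_sum_sq (n : ℕ) : ∃ B : ℝ, 0 ≤ B ∧ ∀ x : ℕ, 16 ≤ x →
    ∑ p ∈ OP x, ((16 * n) * ri p) ^ 2 ≤ B * Real.log (Real.log x) := by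
  obtain ⟨C3, h3⟩ := Pool.Agent.Helper256.KM.mertens_inv
  have hC3 : 0 ≤ C3 := (abs_nonneg _).trans (h3 3 le_rfl)
  refine ⟨(16 * n) ^ 2 * (1 + C3), by positivity, fun x hx => ?_⟩
  have h5 := (abs_le.1 (h3 x (by omega))).2
  have hL1 : 1 ≤ Real.log (Real.log x) := one_le_loglog hx
  have h6 : ∀ p ∈ OP x, ((16 * n) * ri p) ^ 2 = (16 * n) ^ 2 * (1 / (p : ℝ)) := by
    intro p _
    rw [mul_pow, ri_sq, one_div]
  rw [Finset.sum_congr rfl h6, ← Finset.mul_sum, mul_assoc]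
  apply mul_le_mul_of_nonneg_left _ (by positivity)
  have h4 : ∑ p ∈ OP x, (1 : ℝ) / p ≤ ∑ p ∈ (Icc 1 x).filter Nat.Prime, (1 : ℝ) / p :=
    Finset.sum_le_sum_of_subset_of_nonneg (Finset.filter_subset _ _) fun p _ _ => by positivity
  have h8 : C3 ≤ C3 * Real.log (Real.log x) := le_mul_of_one_le_right hC3 hL1
  linarith

theorem kap_lim {μ : Nat.Primes → Fin n → ℂ} {e : ℝ} (h : Tendsto (M (kap μ)) atTop (𝓝 e)) :
    Tendsto (fun x : ℕ => (∑ p ∈ Pr x, kap μ p / (2 * p)) / Real.log (Real.log x)) atTop (𝓝 (e / 2)) := by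
  refine ((sum_div_of_mean h).div_const 2).congr fun x => ?_
  rw [div_right_comm, pr_eq]
  congr 1
  rw [Finset.sum_div]
  refine Finset.sum_congr rfl fun p _ => ?_
  rw [div_div, mul_comm]

theorem XA_V {μ : Nat.Primes → Fin n → ℂ} (hμ : ∀ p j, ‖μ p j‖ ≤ 1) {v : ℝ}
    (h : Tendsto (M (kap2 μ)) atTop (𝓝 v)) :
    Tendsto (fun x : ℕ => (∑ p ∈ OP x, PM p (fun w => XA μ p w ^ 2)) / Real.log (Real.log x)) atTop (𝓝 v) := by
  set Z := ∑' n : ℕ, (n : ℝ) ^ (-(3 / 2) : ℝ) with hZ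
  have hZ0 : 0 ≤ Z := tsum_nonneg fun n => by positivity
  set K : ℝ := (260 * n ^ 2 + (49 * n) ^ 2) with hK
  have hK0 : 0 ≤ K := by positivity
  have h1 := sum_div_of_mean h
  have h2 : Tendsto (fun x : ℕ => (∑ p ∈ OP x, PM p (fun w => XA μ p w ^ 2) - ∑ p ∈ pr x, kap2 μ p / p) /
      Real.log (Real.log x)) atTop (𝓝 0) := by
    have h0 : Tendsto (fun x : ℕ => (K * Z + n ^ 2) / Real.log (Real.log x)) atTop (𝓝 0) :=
      tendsto_const_nhds.div_atTop loglog_top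
    refine squeeze_zero_norm' ?_ h0
    filter_upwards [loglog_top.eventually_gt_atTop 0, eventually_ge_atTop 3] with x hx hx3
    rw [Real.norm_eq_abs, abs_div, abs_of_pos hx]
    apply div_le_div_of_nonneg_right _ hx.le
    have e1 := sum_OP (fun p => kap2 μ p / p) (x := x) (by omega)
    rw [pr_eq]
    have b1 : |∑ p ∈ OP x, (PM p (fun w => XA μ p w ^ 2) - kap2 μ p / p)| ≤ K * Z := by
      refine (Finset.abs_sum_le_sum_abs _ _).trans
        ((Finset.sum_le_sum fun p hp => XA_var hμ (mem_OP.1 hp).2.1).trans ?_)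
      rw [← Finset.mul_sum]
      exact mul_le_mul_of_nonneg_left (sum_ri x) hK0
    have b2 : |kap2 μ 2 / ((2 : ℕ) : ℝ)| ≤ n ^ 2 := by
      obtain ⟨h3, h4⟩ := kap2_le hμ 2
      rw [abs_of_nonneg (by positivity), div_le_iff₀ (by norm_num)]
      push_cast
      nlinarith [sq_nonneg (n : ℝ)]
    have e3 : ∑ p ∈ OP x, PM p (fun w => XA μ p w ^ 2) - ∑ p ∈ Pr x, kap2 μ p / p =
        ∑ p ∈ OP x, (PM p (fun w => XA μ p w ^ 2) - kap2 μ p / p) - kap2 μ 2 / ((2 : ℕ) : ℝ) := by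
      simp only [Finset.sum_sub_distrib]
      linarith [e1]
    rw [e3]
    exact (abs_sub _ _).trans (add_le_add b1 b2)
  have h3 := h2.add h1
  rw [zero_add] at h3
  refine h3.congr fun x => ?_
  rw [← add_div, sub_add_cancel]

end Pool.Agent.N666.TB
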