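import Pool.Agent.N666.TB.PM
import Pool.Agent.N430.BP.Gen

set_option autoImplicit false
set_option linter.all false

/-! # The law for almost all members of a thin sequence: uniform form -/

namespace Pool.Agent.N666.TB

open Finset Pool.Agent.Y722.HS Pool.Agent.Y722.LS Pool.Agent.N666.TM Pool.Agent.N430.BP

section
variable {ι : Type} [Fintype ι] [DecidableEq ι]

open Classical in
/-- **Sums over primes of centred local conditions along a thin sequence, for all lengths at once, uniformly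
in the local conditions.** -/
theorem thin_law_unif {S : ℕ → Finset ℕ} {c : ℕ → ι → ℤ} {ρ : ℝ} (hρ : 0 < ρ) (hS : WellSeq S c ρ)
    {B : ℝ} (hB : 0 ≤ B) {C0 : ℝ} (hC0 : 0 ≤ C0) {ε A : ℝ} (hε : 0 < ε) (hA : 0 < A) :
    ∃ (k : ℕ) (C : ℝ) (N₀ : ℕ), 0 < k ∧ 0 ≤ C ∧
      ∀ (X : ℕ → (ι → ℤ) → ℝ) (b : ℕ → ℝ), (∀ p, 0 ≤ b p) →
      (∀ p, p.Prime → p ≠ 2 → Pd p (X p)) →
      (∀ p, p.Prime → p ≠ 2 → ∀ w, |X p w| ≤ b p) →
      (∀ p, p.Prime → p ≠ 2 → PM p (X p) = 0) →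
      (∀ x : ℕ, 16 ≤ x → ∑ p ∈ OP x, b p ^ 2 ≤ B * Real.log (Real.log x)) →
      ∀ (D : ℕ → (ι → ℤ) → ℝ), (∀ x : ℕ, 16 ≤ x → ∀ w, |D x w - ∑ p ∈ OP x, X p w| ≤ C0) →
      ∀ k', k ≤ k' → ∀ N : ℕ, N₀ ≤ N → ∀ l : ℝ, 1 ≤ l →
      (((S N).filter fun n : ℕ => ∃ x : ℕ, 16 ≤ x ∧ x ^ k' ≤ N ∧
        l * Real.log (Real.log x) ^ (1 / 2 : ℝ) * (1 + Real.log (Real.log (Real.log x))) ^ ε <
          |D x (c n)|).card : ℝ) ≤ C * l ^ (-A) * #(S N) := by
  set q : ℕ := qq' ε A with hq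
  have hq2 : 2 ≤ q := two_le_qq ε A
  obtain ⟨N₁, hN₁⟩ := hS
  set k : ℕ := ⌈(2 * q : ℝ) / ρ⌉₊ + 1 with hk
  set K0 : ℝ := 4 * (2 * q).factorial + 1 with hK0
  have hK00 : 0 ≤ K0 := by positivity
  have hC1 : 0 ≤ CC ε A K0 B C0 := by
    unfold CC
    have := AA_pos (m := qq' ε A) (by omega)
    have := ZZ_nonneg
    positivity
  refine ⟨k, CC ε A K0 B C0, N₁ + 1, by omega, hC1, fun X b hb hper hX hm hsq D hD k' hk' N hN l hl => ?_⟩
  have hN0 : (1 : ℝ) ≤ N := by exact_mod_cast (by omega : 1 ≤ N)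
  set Y : ℕ → ℕ → ℝ := fun n ω => if n.Prime ∧ n ≠ 2 then X n (c ω) else 0 with hY
  set w : ℕ → ℝ := fun n => if n.Prime ∧ n ≠ 2 then b n ^ 2 else 0 with hw
  have hw0 : ∀ n, 0 ≤ w n := by
    intro n
    rw [hw]
    simp only
    split_ifs <;> positivity
  have hwell : ∀ x : ℕ, 16 ≤ x → x ^ k' ≤ N → Well (S N) c (x ^ (2 * q)) := by
    intro x hx16 hxN
    refine hN₁ N (by omega) _ ?_
    have hx1 : (1 : ℝ) ≤ x := by exact_mod_cast (by omega : 1 ≤ x)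
    have h1 : ((x : ℝ) ^ k) ≤ N := by
      have : x ^ k ≤ N := (Nat.pow_le_pow_right (by omega) hk').trans hxN
      exact_mod_cast this
    have h2 : (2 * q : ℝ) ≤ k * ρ := by
      have h3 : (2 * q : ℝ) / ρ ≤ k := by
        rw [hk]
        push_cast
        have := Nat.le_ceil ((2 * q : ℝ) / ρ)
        linarith
      rwa [div_le_iff₀ hρ] at h3
    push_cast
    calc (x : ℝ) ^ (2 * q) = (x : ℝ) ^ ((2 * q : ℕ) : ℝ) := (Real.rpow_natCast _ _).symm
      _ ≤ (x : ℝ) ^ ((k : ℝ) * ρ) := Real.rpow_le_rpow_of_exponent_le hx1 (by push_cast; exact h2)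
      _ = ((x : ℝ) ^ k) ^ ρ := by rw [Real.rpow_mul (by linarith), Real.rpow_natCast]
      _ ≤ (N : ℝ) ^ ρ := Real.rpow_le_rpow (by positivity) h1 hρ.le
  have hfilt : ∀ x : ℕ, ∑ n ∈ Ico 0 (x + 1), w n = ∑ p ∈ OP x, b p ^ 2 := by
    intro x
    rw [hw, ← Finset.sum_filter, filter_eq]
  have hfiltY : ∀ (x ω : ℕ), ∑ n ∈ Ico 0 (x + 1), Y n ω = ∑ p ∈ OP x, X p (c ω) := by
    intro x ω
    rw [hY]
    simp only
    rw [← Finset.sum_filter, filter_eq]
  have main := law_abs (S N) Y w hw0 hε hA (K0 := K0) hK00 (T := fun x => Real.log (Real.log x))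
    (x0 := 16) (fun x hx => one_le_loglog hx) (adm := fun x => 16 ≤ x ∧ x ^ k' ≤ N)
    (by
      rintro x ⟨hx16, hxN⟩ a1 b1 _ hb1
      set I := (Ico a1 b1).filter (fun n => n.Prime ∧ n ≠ 2) with hI
      have hIp : ∀ p ∈ I, p.Prime ∧ p ≠ 2 := fun p hp => (mem_filter.1 hp).2
      have hwl := hwell x hx16 hxN
      have h1 := moment_SA (s := S N) (c := c) I (fun p hp => (hIp p hp).1) (X := X) (b := b)
        hb (fun p hp => hper p (hIp p hp).1 (hIp p hp).2)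
        (fun p hp w => hX p (hIp p hp).1 (hIp p hp).2 w)
        (fun p hp => hm p (hIp p hp).1 (hIp p hp).2) q (by omega) (x := x)
        (fun p hp => by
          have := (mem_Ico.1 (mem_filter.1 hp).1).2
          omega) hwl
      have hs : (0 : ℝ) < (S N).card := by exact_mod_cast hwl.pos
      unfold SA at h1
      rw [div_le_iff₀ hs] at h1
      have e1 : ∀ ω : ℕ, ∑ n ∈ Ico a1 b1, Y n ω = ∑ p ∈ I, X p (c ω) := by
        intro ω
        rw [hY]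
        simp only
        rw [← Finset.sum_filter]
      have e2 : ∑ n ∈ Ico a1 b1, w n = Wt b I := by
        rw [hw]
        unfold Wt
        rw [← Finset.sum_filter]
      rw [e2]
      simp only [e1]
      refine h1.trans (le_of_eq ?_)
      ring)
    hB (fun x hx => by rw [hfilt]; exact hsq x hx) (fun x ω => D x (c ω)) hC0
    (fun x hx ω _ => by rw [hfiltY]; exact hD x hx (c ω)) hl
  refine le_trans ?_ main
  have : ((S N).filter fun n : ℕ => ∃ x : ℕ, 16 ≤ x ∧ x ^ k' ≤ N ∧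
        l * Real.log (Real.log x) ^ (1 / 2 : ℝ) * (1 + Real.log (Real.log (Real.log x))) ^ ε <
          |D x (c n)|) ⊆ ((S N).filter fun ω : ℕ => ∃ x : ℕ, 16 ≤ x ∧ (16 ≤ x ∧ x ^ k' ≤ N) ∧
        l * Real.log (Real.log x) ^ (1 / 2 : ℝ) * (1 + Real.log (Real.log (Real.log x))) ^ ε <
          |D x (c ω)|) := by
    intro n hn
    rw [mem_filter] at hn ⊢
    obtain ⟨h1, x, h2, h3, h4⟩ := hn
    exact ⟨h1, x, h2, ⟨h2, h3⟩, h4⟩
  exact_mod_cast card_le_card this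

end

end Pool.Agent.N666.TB
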