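import Pool.Agent.N666.TB.Char
import Pool.Agent.N666.TB.LawU
import Pool.Agent.N430.BP.NF3

set_option autoImplicit false
set_option linter.all false

/-! # The central limit theorem along thin sequences -/

namespace Pool.Agent.N666.TB

open Finset Filter Topology Pool.Agent.Y722.HS Pool.Agent.Y722.LS Pool.Agent.N666.TM Pool.Agent.N430.BP
open Pool.Agent.N430.CLT (rem norm_rem_le norm_prod_sub_prod cexp_quad)

section
variable {ι : Type} [Fintype ι] [DecidableEq ι]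

/-- sample and period -/
theorem compare_SC {s : Finset ℕ} {c : ℕ → ι → ℤ} (I : Finset ℕ) (hI : ∀ p ∈ I, p.Prime)
    {X : ℕ → (ι → ℤ) → ℝ} {b : ℕ → ℝ}
    (hb : ∀ p, 0 ≤ b p) (hper : ∀ p ∈ I, Pd p (X p)) (hX : ∀ p ∈ I, ∀ w, |X p w| ≤ b p)
    (hm : ∀ p ∈ I, PM p (X p) = 0) {x : ℕ} (hx : ∀ p ∈ I, p ≤ x) (hx1 : 1 ≤ x) (k : ℕ)
    (hw : Well s c (x ^ (2 * (2 * k)))) {B0 : ℝ} (hB0 : 1 ≤ B0) (hsum : ∑ p ∈ I, b p ≤ B0 * x)
    {y : ℝ} (hy : |y| ≤ 1) :
    ‖SC s c (fun w => Complex.exp ((y * ∑ p ∈ I, X p w : ℝ) * Complex.I)) -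
      PC (∏ p ∈ I, p) (fun w => Complex.exp ((y * ∑ p ∈ I, X p w : ℝ) * Complex.I))‖ ≤
      ((2 * k : ℕ) + 1) * (B0 ^ (2 * k) / (x : ℝ) ^ (2 * k)) +
        4 * (1 / 2 : ℝ) ^ (2 * k) * Real.exp (2 * (y ^ 2 * Wt b I)) := by
  set Q := ∏ p ∈ I, p with hQ
  have hQ0 : 0 < Q := Finset.prod_pos fun p hp => (hI p hp).pos
  set K := 2 * k with hK
  have hxr : (1 : ℝ) ≤ x := by exact_mod_cast hx1
  set T : (ι → ℤ) → ℝ := fun w => ∑ p ∈ I, X p w with hT
  set δ : ℝ := B0 ^ K / (x : ℝ) ^ K with hδ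
  have hδ0 : 0 ≤ δ := by positivity
  have hbs : 0 ≤ ∑ p ∈ I, b p := Finset.sum_nonneg fun p _ => hb p
  have hmom : ∀ j, j ≤ K → |SA s c (fun w => T w ^ j) - PM Q (fun w => T w ^ j)| ≤ δ := by
    intro j hj
    refine (pow_SA_PM I hI hb hper hX hx hx1 hw (Nat.pow_le_pow_right hx1 (by omega))).trans ?_
    push_cast
    have h1 : (∑ p ∈ I, b p) ^ j ≤ B0 ^ K * (x : ℝ) ^ K := by
      calc (∑ p ∈ I, b p) ^ j ≤ (B0 * x) ^ j := pow_le_pow_left₀ hbs hsum j
        _ ≤ (B0 * x) ^ K := pow_le_pow_right₀ (by nlinarith) hj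
        _ = _ := mul_pow _ _ _
    have h2 : 1 / (2 * (x : ℝ) ^ (2 * K) + 1) ≤ 1 / (x : ℝ) ^ (2 * K) := by
      apply one_div_le_one_div_of_le (by positivity)
      have : (0 : ℝ) ≤ (x : ℝ) ^ (2 * K) := by positivity
      linarith
    calc (∑ p ∈ I, b p) ^ j * (1 / (2 * (x : ℝ) ^ (2 * K) + 1)) ≤
        (B0 ^ K * (x : ℝ) ^ K) * (1 / (x : ℝ) ^ (2 * K)) := mul_le_mul h1 h2 (by positivity) (by positivity)
      _ = δ := by
        rw [hδ, two_mul, pow_add]
        field_simp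
  have e : ∀ w, Complex.exp ((y * T w : ℝ) * Complex.I) =
      ∑ j ∈ range K, ((y : ℂ) * Complex.I) ^ j / (j.factorial : ℂ) * ((T w ^ j : ℝ) : ℂ) +
        rem K (y * T w) := by
    intro w
    have : ∑ j ∈ range K, ((y : ℂ) * Complex.I) ^ j / (j.factorial : ℂ) * ((T w ^ j : ℝ) : ℂ) =
        ∑ j ∈ range K, (((y * T w : ℝ) : ℂ) * Complex.I) ^ j / (j.factorial : ℂ) := by
      refine Finset.sum_congr rfl fun j _ => ?_
      push_cast
      ring
    rw [this]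
    unfold rem
    ring
  have e1 : SC s c (fun w => Complex.exp ((y * T w : ℝ) * Complex.I)) =
      ∑ j ∈ range K, ((y : ℂ) * Complex.I) ^ j / (j.factorial : ℂ) *
        ((SA s c (fun w => T w ^ j) : ℝ) : ℂ) + SC s c (fun w => rem K (y * T w)) := by
    rw [show (fun w => Complex.exp ((y * T w : ℝ) * Complex.I)) = fun w =>
      ∑ j ∈ range K, ((y : ℂ) * Complex.I) ^ j / (j.factorial : ℂ) * ((T w ^ j : ℝ) : ℂ) +
        rem K (y * T w) from funext e, SC_add, SC_sum]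
    congr 1
    refine Finset.sum_congr rfl fun j _ => ?_
    rw [SC_mul, SC_real]
  have e2 : PC Q (fun w => Complex.exp ((y * T w : ℝ) * Complex.I)) =
      ∑ j ∈ range K, ((y : ℂ) * Complex.I) ^ j / (j.factorial : ℂ) *
        ((PM Q (fun w => T w ^ j) : ℝ) : ℂ) + PC Q (fun w => rem K (y * T w)) := by
    rw [show (fun w => Complex.exp ((y * T w : ℝ) * Complex.I)) = fun w =>
      ∑ j ∈ range K, ((y : ℂ) * Complex.I) ^ j / (j.factorial : ℂ) * ((T w ^ j : ℝ) : ℂ) +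
        rem K (y * T w) from funext e, PC_add, PC_sum]
    congr 1
    refine Finset.sum_congr rfl fun j _ => ?_
    rw [PC_mul_left, PC_real]
  have e3 : SC s c (fun w => Complex.exp ((y * T w : ℝ) * Complex.I)) -
      PC Q (fun w => Complex.exp ((y * T w : ℝ) * Complex.I)) =
      ∑ j ∈ range K, ((y : ℂ) * Complex.I) ^ j / (j.factorial : ℂ) *
        ((SA s c (fun w => T w ^ j) - PM Q (fun w => T w ^ j) : ℝ) : ℂ) +
      (SC s c (fun w => rem K (y * T w)) - PC Q (fun w => rem K (y * T w))) := by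
    rw [e1, e2]
    have : ∀ j ∈ range K, ((y : ℂ) * Complex.I) ^ j / (j.factorial : ℂ) *
        ((SA s c (fun w => T w ^ j) - PM Q (fun w => T w ^ j) : ℝ) : ℂ) =
        ((y : ℂ) * Complex.I) ^ j / (j.factorial : ℂ) * ((SA s c (fun w => T w ^ j) : ℝ) : ℂ) -
        ((y : ℂ) * Complex.I) ^ j / (j.factorial : ℂ) * ((PM Q (fun w => T w ^ j) : ℝ) : ℂ) := by
      intro j _
      push_cast
      ring
    rw [Finset.sum_congr rfl this, Finset.sum_sub_distrib]
    ring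
  have h1 : ‖∑ j ∈ range K, ((y : ℂ) * Complex.I) ^ j / (j.factorial : ℂ) *
        ((SA s c (fun w => T w ^ j) - PM Q (fun w => T w ^ j) : ℝ) : ℂ)‖ ≤ K * δ := by
    refine (norm_sum_le _ _).trans ?_
    have : ∀ j ∈ range K, ‖((y : ℂ) * Complex.I) ^ j / (j.factorial : ℂ) *
        ((SA s c (fun w => T w ^ j) - PM Q (fun w => T w ^ j) : ℝ) : ℂ)‖ ≤ δ := by
      intro j hj
      rw [mem_range] at hj
      rw [norm_mul, norm_div, norm_pow, norm_mul, Complex.norm_real, Complex.norm_I, mul_one,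
        Complex.norm_natCast, Complex.norm_real, Real.norm_eq_abs, Real.norm_eq_abs]
      have h3 : |y| ^ j / (j.factorial : ℝ) ≤ 1 := by
        rw [div_le_one (by exact_mod_cast j.factorial_pos)]
        calc |y| ^ j ≤ 1 := pow_le_one₀ (abs_nonneg _) hy
          _ ≤ _ := by exact_mod_cast j.factorial_pos
      calc |y| ^ j / (j.factorial : ℝ) * |SA s c (fun w => T w ^ j) - PM Q (fun w => T w ^ j)| ≤ 1 * δ :=
            mul_le_mul h3 (hmom j hj.le) (abs_nonneg _) zero_le_one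
        _ = δ := one_mul _
    refine (Finset.sum_le_sum this).trans ?_
    simp
  have hKf : (0 : ℝ) < K.factorial := by exact_mod_cast K.factorial_pos
  have hKe : Even K := even_two_mul k
  have hrem : ∀ w, ‖rem K (y * T w)‖ ≤ |y| ^ K / (K.factorial : ℝ) * T w ^ K := by
    intro w
    refine (norm_rem_le K _).trans (le_of_eq ?_)
    rw [abs_mul, mul_pow, hKe.pow_abs (T w)]
    ring
  have h5 : ‖SC s c (fun w => rem K (y * T w))‖ ≤ |y| ^ K / (K.factorial : ℝ) * SA s c (fun w => T w ^ K) := by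
    refine (SC_norm hrem).trans (le_of_eq ?_)
    rw [SA_mulc]
  have h6 : ‖PC Q (fun w => rem K (y * T w))‖ ≤ |y| ^ K / (K.factorial : ℝ) * PM Q (fun w => T w ^ K) := by
    refine (PC_norm hrem).trans (le_of_eq ?_)
    rw [PM_mul_left]
  have h7 : |y| ^ K / (K.factorial : ℝ) ≤ 1 := by
    rw [div_le_one hKf]
    calc |y| ^ K ≤ 1 := pow_le_one₀ (abs_nonneg _) hy
      _ ≤ _ := by exact_mod_cast K.factorial_pos
  have h8 : |y| ^ K / (K.factorial : ℝ) * SA s c (fun w => T w ^ K) ≤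
      |y| ^ K / (K.factorial : ℝ) * PM Q (fun w => T w ^ K) + δ := by
    have h9 := (abs_le.1 (hmom K le_rfl)).2
    have h10 : (0 : ℝ) ≤ |y| ^ K / (K.factorial : ℝ) := by positivity
    calc |y| ^ K / (K.factorial : ℝ) * SA s c (fun w => T w ^ K) ≤
        |y| ^ K / (K.factorial : ℝ) * (PM Q (fun w => T w ^ K) + δ) :=
          mul_le_mul_of_nonneg_left (by linarith) h10
      _ = |y| ^ K / (K.factorial : ℝ) * PM Q (fun w => T w ^ K) + |y| ^ K / (K.factorial : ℝ) * δ := by ring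
      _ ≤ _ := by
        have := mul_le_mul_of_nonneg_right h7 hδ0
        linarith
  have h11 : |y| ^ K / (K.factorial : ℝ) * PM Q (fun w => T w ^ K) ≤
      2 * (1 / 2 : ℝ) ^ K * Real.exp (2 * (y ^ 2 * Wt b I)) := by
    have h12 : ∀ w, T w ^ K * (|y| ^ K / (K.factorial : ℝ)) ≤ (1 / 2 : ℝ) ^ K *
        (Real.exp ((2 * y) * T w) + Real.exp ((-(2 * y)) * T w)) := by
      intro w
      have h13 := pow_le_exp ((2 * y) * T w) k
      have h14 : |y| ^ K = y ^ K := hKe.pow_abs y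
      rw [h14, ← mul_div_assoc, div_le_iff₀ hKf]
      have h15 : T w ^ K * y ^ K = (1 / 2 : ℝ) ^ K * ((2 * y) * T w) ^ (2 * k) := by
        rw [← hK, ← mul_pow, ← mul_pow]
        congr 1
        ring
      rw [h15, neg_mul]
      calc (1 / 2 : ℝ) ^ K * ((2 * y) * T w) ^ (2 * k) ≤ (1 / 2 : ℝ) ^ K * ((2 * k).factorial *
            (Real.exp ((2 * y) * T w) + Real.exp (-((2 * y) * T w)))) :=
            mul_le_mul_of_nonneg_left h13 (by positivity)
        _ = _ := by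
          rw [← hK]
          ring
    have h16 : |y| ^ K / (K.factorial : ℝ) * PM Q (fun w => T w ^ K) =
        PM Q (fun w => T w ^ K * (|y| ^ K / (K.factorial : ℝ))) := by
      rw [← PM_mul_left]
      congr 1
      funext w
      ring
    rw [h16]
    refine (PM_mono h12).trans ?_
    rw [PM_mul_left, PM_add]
    have h17 := exp_PM I hI hb hper hX hm (2 * y)
    have h18 := exp_PM I hI hb hper hX hm (-(2 * y))
    have e17 : (2 * y) ^ 2 * Wt b I / 2 = 2 * (y ^ 2 * Wt b I) := by ring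
    have e18 : (-(2 * y)) ^ 2 * Wt b I / 2 = 2 * (y ^ 2 * Wt b I) := by ring
    rw [e17] at h17
    rw [e18] at h18
    calc (1 / 2 : ℝ) ^ K * _ ≤ (1 / 2 : ℝ) ^ K * (Real.exp (2 * (y ^ 2 * Wt b I)) +
          Real.exp (2 * (y ^ 2 * Wt b I))) :=
          mul_le_mul_of_nonneg_left (add_le_add h17 h18) (by positivity)
      _ = _ := by ring
  rw [e3]
  refine (norm_add_le _ _).trans ?_
  refine (add_le_add h1 ((norm_sub_le _ _).trans (add_le_add h5 h6))).trans ?_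
  have e19 : ((2 * k : ℕ) : ℝ) = K := by rw [hK]
  rw [← e19] at h1 ⊢
  rw [add_mul, one_mul]
  linarith

/-- **The central limit theorem along a thin sequence, for weighted sums** (convergence of the
characteristic functions) -/
theorem clt_thin {S : ℕ → Finset ℕ} {c : ℕ → ι → ℤ} {ρ : ℝ} (hρ : 0 < ρ) (hS : WellSeq S c ρ)
    (X : ℕ → (ι → ℤ) → ℝ) {b0 : ℝ} (hb0 : 0 ≤ b0)
    (hper : ∀ p, p.Prime → p ≠ 2 → Pd p (X p))
    (hX : ∀ p, p.Prime → p ≠ 2 → ∀ w, |X p w| ≤ b0 * ri p)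
    (hm : ∀ p, p.Prime → p ≠ 2 → PM p (X p) = 0)
    (a : ℕ → ℕ → ℝ) (ha : ∀ N p, |a N p| ≤ 1)
    {x : ℕ → ℕ} (hx : Tendsto x atTop atTop) (hxN : ∀ K : ℕ, ∀ᶠ N : ℕ in atTop, x N ^ K ≤ N)
    {σ : ℝ} (hV : Tendsto (fun N => (∑ p ∈ OP (x N), a N p ^ 2 * PM p (fun w => X p w ^ 2)) /
      Real.log (Real.log (x N))) atTop (𝓝 σ)) (t : ℝ) :
    Tendsto (fun N => SC (S N) c (fun w => Complex.exp ((t * ((∑ p ∈ OP (x N), a N p * X p w) /
      √(Real.log (Real.log (x N)))) : ℝ) * Complex.I))) atTop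
      (𝓝 (Complex.exp (-((t ^ 2 * σ / 2 : ℝ) : ℂ)))) := by
  obtain ⟨N₁, hN₁⟩ := hS
  obtain ⟨C3, h3⟩ := Pool.Agent.Helper256.KM.mertens_inv
  have hC3 : 0 ≤ C3 := (abs_nonneg _).trans (h3 3 le_rfl)
  set Z := ∑' n : ℕ, (n : ℝ) ^ (-(3 / 2) : ℝ) with hZ
  have hZ0 : 0 ≤ Z := tsum_nonneg fun n => by positivity
  set B : ℝ := b0 ^ 2 * (1 + C3) with hB
  have hB0 : 0 ≤ B := by positivity
  set L : ℕ → ℝ := fun N => Real.log (Real.log (x N)) with hL
  have hLt : Tendsto L atTop atTop :=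
    Real.tendsto_log_atTop.comp (Real.tendsto_log_atTop.comp (tendsto_natCast_atTop_atTop.comp hx))
  have hsL : Tendsto (fun N => √(L N)) atTop atTop := Real.tendsto_sqrt_atTop.comp hLt
  rw [Metric.tendsto_atTop]
  intro ε hε
  -- choice of k
  have hK0 : Tendsto (fun k : ℕ => 4 * Real.exp (2 * (t ^ 2 * B)) * (1 / 2 : ℝ) ^ k) atTop (𝓝 0) := by
    have := tendsto_pow_atTop_nhds_zero_of_lt_one (r := (1 / 2 : ℝ)) (by norm_num) (by norm_num)
    simpa using this.const_mul (4 * Real.exp (2 * (t ^ 2 * B)))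
  obtain ⟨k, hk⟩ := (hK0.eventually (gt_mem_nhds (show (0 : ℝ) < ε / 4 by positivity))).exists
  have hk2 : 4 * Real.exp (2 * (t ^ 2 * B)) * (1 / 2 : ℝ) ^ (2 * k) < ε / 4 := by
    refine lt_of_le_of_lt ?_ hk
    apply mul_le_mul_of_nonneg_left _ (by positivity)
    exact pow_le_pow_of_le_one (by norm_num) (by norm_num) (by omega)
  set k1 : ℕ := k + 1 with hk1
  have hk3 : 4 * Real.exp (2 * (t ^ 2 * B)) * (1 / 2 : ℝ) ^ (2 * k1) < ε / 4 := by
    refine lt_of_le_of_lt ?_ hk2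
    apply mul_le_mul_of_nonneg_left _ (by positivity)
    exact pow_le_pow_of_le_one (by norm_num) (by norm_num) (by omega)
  set kρ : ℕ := ⌈(4 * k1 : ℝ) / ρ⌉₊ with hkρ
  have t1 : Tendsto (fun N : ℕ => ((2 * k1 : ℕ) + 1) * ((b0 + 1) ^ (2 * k1) / (x N : ℝ) ^ (2 * k1))) atTop
      (𝓝 0) := by
    have h1 : Tendsto (fun N : ℕ => (x N : ℝ) ^ (2 * k1)) atTop atTop :=
      (tendsto_pow_atTop (by omega)).comp (tendsto_natCast_atTop_atTop.comp hx)
    have h2 := h1.const_div_atTop ((b0 + 1) ^ (2 * k1))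
    simpa using h2.const_mul (((2 * k1 : ℕ) : ℝ) + 1)
  have t2 : Tendsto (fun N : ℕ => 2 * (|t| / √(L N)) ^ 3 * (b0 ^ 3 * Z)) atTop (𝓝 0) := by
    have h1 := ((hsL.const_div_atTop |t|).pow 3).const_mul 2
    have h2 := h1.mul_const (b0 ^ 3 * Z)
    simpa using h2
  have t3 : Tendsto (fun N => Complex.exp (-((t ^ 2 * ((∑ p ∈ OP (x N), a N p ^ 2 *
      PM p (fun w => X p w ^ 2)) / L N) / 2 : ℝ) : ℂ))) atTop
      (𝓝 (Complex.exp (-((t ^ 2 * σ / 2 : ℝ) : ℂ)))) := by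
    have h1 : Continuous fun v : ℝ => Complex.exp (-((t ^ 2 * v / 2 : ℝ) : ℂ)) := by fun_prop
    exact (h1.tendsto σ).comp hV
  have hev := ((((hsL.eventually_ge_atTop (|t| * (b0 + 1) + 1)).and (hx.eventually_ge_atTop 16)).and
    ((t1.eventually (gt_mem_nhds (show (0 : ℝ) < ε / 4 by positivity))).and
    (t2.eventually (gt_mem_nhds (show (0 : ℝ) < ε / 4 by positivity))))).and
    (((Metric.tendsto_atTop'.1 t3 (ε / 4) (by positivity)).elim fun M hM =>
      eventually_gt_atTop M |>.mono fun N hN => hM N hN))).and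
    ((hxN kρ).and (eventually_ge_atTop N₁))
  obtain ⟨N₀, hN₀⟩ := eventually_atTop.1 hev
  refine ⟨N₀, fun N hN => ?_⟩
  obtain ⟨⟨⟨⟨g1, g2⟩, g3, g4⟩, g5⟩, g6, g7⟩ := hN₀ N hN
  have hx1 : (1 : ℝ) ≤ x N := by exact_mod_cast (by omega : 1 ≤ x N)
  have hL1 : 1 ≤ L N := one_le_loglog g2
  set q := √(L N) with hq
  have hq0 : 0 < q := Real.sqrt_pos.2 (by linarith)
  have hq2 : q ^ 2 = L N := Real.sq_sqrt (by linarith)
  set y := t / q with hy
  have hyabs : |y| = |t| / q := by rw [hy, abs_div, abs_of_pos hq0]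
  have ht0 := abs_nonneg t
  have hy1 : |y| ≤ 1 := by
    rw [hyabs, div_le_one hq0]
    nlinarith
  have hyb : |y| * (b0 + 1) ≤ 1 := by
    rw [hyabs, div_mul_eq_mul_div, div_le_one hq0]
    linarith
  -- the weighted variables
  set X' : ℕ → (ι → ℤ) → ℝ := fun p w => a N p * X p w with hX'
  set b : ℕ → ℝ := fun p => b0 * ri p with hb
  have hbn : ∀ p, 0 ≤ b p := fun p => mul_nonneg hb0 (ri_nonneg p)
  have hprime : ∀ p ∈ OP (x N), p.Prime ∧ p ≠ 2 := fun p hp => (mem_OP.1 hp).2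
  have hper' : ∀ p ∈ OP (x N), Pd p (X' p) := fun p hp c1 c2 hc =>
    congrArg (fun z => a N p * z) (hper p (hprime p hp).1 (hprime p hp).2 c1 c2 hc)
  have hXb : ∀ p ∈ OP (x N), ∀ w, |X' p w| ≤ b p := by
    intro p hp w
    rw [hX']
    simp only
    rw [abs_mul]
    calc |a N p| * |X p w| ≤ 1 * (b0 * ri p) := mul_le_mul (ha N p)
          (hX p (hprime p hp).1 (hprime p hp).2 w) (abs_nonneg _) zero_le_one
      _ = _ := one_mul _
  have hm' : ∀ p ∈ OP (x N), PM p (X' p) = 0 := by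
    intro p hp
    rw [hX']
    simp only
    rw [PM_mul_left, hm p (hprime p hp).1 (hprime p hp).2, mul_zero]
  have hri1 : ∀ p ∈ OP (x N), ri p ≤ 1 := fun p hp => ri_le_one (hprime p hp).1.pos
  have hsum : ∑ p ∈ OP (x N), b p ≤ (b0 + 1) * (x N : ℝ) := by
    have h1 : ∀ p ∈ OP (x N), b p ≤ b0 + 1 := by
      intro p hp
      have := mul_le_mul_of_nonneg_left (hri1 p hp) hb0
      rw [hb]
      simp only
      linarith
    refine (Finset.sum_le_sum h1).trans ?_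
    rw [Finset.sum_const, nsmul_eq_mul, mul_comm]
    apply mul_le_mul_of_nonneg_left _ (by linarith)
    have : OP (x N) ⊆ Icc 1 (x N) := fun p hp => mem_Icc.2 ⟨(hprime p hp).1.one_le, (mem_OP.1 hp).1⟩
    have := card_le_card this
    rw [Nat.card_Icc, Nat.add_sub_cancel] at this
    exact_mod_cast this
  have hW : Wt b (OP (x N)) ≤ B * L N := by
    have h5 := (abs_le.1 (h3 (x N) (by omega))).2
    unfold Wt
    have h6 : ∀ p ∈ OP (x N), b p ^ 2 = b0 ^ 2 * (1 / (p : ℝ)) := by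
      intro p _
      rw [hb]
      simp only
      rw [mul_pow, ri_sq, one_div]
    rw [Finset.sum_congr rfl h6, ← Finset.mul_sum, hB, mul_assoc]
    apply mul_le_mul_of_nonneg_left _ (by positivity)
    have h4 : ∑ p ∈ OP (x N), (1 : ℝ) / p ≤ ∑ p ∈ (Icc 1 (x N)).filter Nat.Prime, (1 : ℝ) / p :=
      Finset.sum_le_sum_of_subset_of_nonneg (Finset.filter_subset _ _) fun p _ _ => by positivity
    have h7 : (1 + C3) * L N = L N + C3 * L N := by ring
    have h8 : C3 ≤ C3 * L N := le_mul_of_one_le_right hC3 hL1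
    have h9 : Real.log (Real.log ((x N : ℕ) : ℝ)) = L N := rfl
    rw [h9] at h5
    linarith
  have hb3 : ∑ p ∈ OP (x N), b p ^ 3 ≤ b0 ^ 3 * Z := by
    have h6 : ∀ p ∈ OP (x N), b p ^ 3 = b0 ^ 3 * ri p ^ 3 := by
      intro p _
      rw [hb]
      simp only
      rw [mul_pow]
    rw [Finset.sum_congr rfl h6, ← Finset.mul_sum]
    exact mul_le_mul_of_nonneg_left (sum_ri (x N)) (by positivity)
  have hwell : Well (S N) c (x N ^ (2 * (2 * k1))) := by
    refine hN₁ N g7 _ ?_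
    have h1 : ((x N : ℝ) ^ kρ) ≤ N := by exact_mod_cast g6
    have h2 : (4 * k1 : ℝ) ≤ kρ * ρ := by
      have h3 : (4 * k1 : ℝ) / ρ ≤ kρ := Nat.le_ceil _
      rwa [div_le_iff₀ hρ] at h3
    push_cast
    calc (x N : ℝ) ^ (2 * (2 * k1)) = (x N : ℝ) ^ ((2 * (2 * k1) : ℕ) : ℝ) := (Real.rpow_natCast _ _).symm
      _ ≤ (x N : ℝ) ^ ((kρ : ℝ) * ρ) := Real.rpow_le_rpow_of_exponent_le hx1 (by push_cast; linarith)
      _ = ((x N : ℝ) ^ kρ) ^ ρ := by rw [Real.rpow_mul (by linarith), Real.rpow_natCast]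
      _ ≤ (N : ℝ) ^ ρ := Real.rpow_le_rpow (by positivity) h1 hρ.le
  have c1 := compare_SC (s := S N) (c := c) (OP (x N)) (fun p hp => (hprime p hp).1) hbn hper' hXb hm'
    (fun p hp => (mem_OP.1 hp).1) (by omega) k1 hwell (by linarith : (1 : ℝ) ≤ b0 + 1) hsum hy1
  have c2 := char_PC (OP (x N)) (fun p hp => (hprime p hp).1) hbn hper' hXb hm' (y := y)
    (fun p hp => by
      refine le_trans (mul_le_mul_of_nonneg_left ?_ (abs_nonneg y)) hyb
      have := mul_le_mul_of_nonneg_left (hri1 p hp) hb0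
      rw [hb]
      simp only
      linarith)
  have efun : (fun w : ι → ℤ => Complex.exp ((t * ((∑ p ∈ OP (x N), a N p * X p w) / q) : ℝ) * Complex.I)) =
      fun w => Complex.exp ((y * ∑ p ∈ OP (x N), X' p w : ℝ) * Complex.I) := by
    funext w
    have : t * ((∑ p ∈ OP (x N), a N p * X p w) / q) = y * ∑ p ∈ OP (x N), X' p w := by
      rw [hy, hX']
      ring
    rw [this]
  have hvar : ∑ p ∈ OP (x N), PM p (fun w => X' p w ^ 2) =
      ∑ p ∈ OP (x N), a N p ^ 2 * PM p (fun w => X p w ^ 2) := by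
    refine Finset.sum_congr rfl fun p _ => ?_
    rw [← PM_mul_left]
    congr 1
    funext w
    rw [hX']
    simp only
    ring
  rw [hvar] at c2
  have ey : y ^ 2 * (∑ p ∈ OP (x N), a N p ^ 2 * PM p (fun w => X p w ^ 2)) / 2 =
      t ^ 2 * ((∑ p ∈ OP (x N), a N p ^ 2 * PM p (fun w => X p w ^ 2)) / L N) / 2 := by
    rw [hy, div_pow, hq2]
    ring
  rw [ey] at c2
  have hyW : 2 * (y ^ 2 * Wt b (OP (x N))) ≤ 2 * (t ^ 2 * B) := by
    have h1 : y ^ 2 * Wt b (OP (x N)) ≤ y ^ 2 * (B * L N) := mul_le_mul_of_nonneg_left hW (sq_nonneg _)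
    have h2 : y ^ 2 * (B * L N) = t ^ 2 * B := by
      rw [hy, div_pow, hq2]
      field_simp
    linarith
  have c3 : 4 * (1 / 2 : ℝ) ^ (2 * k1) * Real.exp (2 * (y ^ 2 * Wt b (OP (x N)))) < ε / 4 := by
    refine lt_of_le_of_lt ?_ hk3
    calc 4 * (1 / 2 : ℝ) ^ (2 * k1) * Real.exp (2 * (y ^ 2 * Wt b (OP (x N)))) ≤
        4 * (1 / 2 : ℝ) ^ (2 * k1) * Real.exp (2 * (t ^ 2 * B)) := by gcongr
      _ = _ := by ring
  have c4 : 2 * |y| ^ 3 * ∑ p ∈ OP (x N), b p ^ 3 < ε / 4 := by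
    refine lt_of_le_of_lt ?_ g4
    rw [← hyabs]
    exact mul_le_mul_of_nonneg_left hb3 (by positivity)
  rw [efun, dist_eq_norm]
  rw [dist_eq_norm] at g5
  have e3 : SC (S N) c (fun w => Complex.exp ((y * ∑ p ∈ OP (x N), X' p w : ℝ) * Complex.I)) -
      Complex.exp (-((t ^ 2 * σ / 2 : ℝ) : ℂ)) =
      (SC (S N) c (fun w => Complex.exp ((y * ∑ p ∈ OP (x N), X' p w : ℝ) * Complex.I)) -
        PC (∏ p ∈ OP (x N), p) (fun w => Complex.exp ((y * ∑ p ∈ OP (x N), X' p w : ℝ) * Complex.I))) +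
      (PC (∏ p ∈ OP (x N), p) (fun w => Complex.exp ((y * ∑ p ∈ OP (x N), X' p w : ℝ) * Complex.I)) -
        Complex.exp (-((t ^ 2 * ((∑ p ∈ OP (x N), a N p ^ 2 * PM p (fun w => X p w ^ 2)) / L N) / 2 :
          ℝ) : ℂ))) +
      (Complex.exp (-((t ^ 2 * ((∑ p ∈ OP (x N), a N p ^ 2 * PM p (fun w => X p w ^ 2)) / L N) / 2 :
          ℝ) : ℂ)) - Complex.exp (-((t ^ 2 * σ / 2 : ℝ) : ℂ))) := by ring
  rw [e3]
  refine lt_of_le_of_lt (norm_add₃_le) ?_
  linarith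

end

end Pool.Agent.N666.TB
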