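import Pool.Agent.N666.TB.PM
import Pool.Agent.N430.CLT.Taylor

set_option autoImplicit false
set_option linter.all false

/-! # Characteristic functions of sums over primes along well distributed sequences -/

namespace Pool.Agent.N666.TB

open Finset Pool.Agent.Y722.HS Pool.Agent.Y722.LS Pool.Agent.N666.TM Pool.Agent.N430.BP
open Pool.Agent.N430.CLT (rem norm_rem_le norm_prod_sub_prod cexp_quad)

section
variable {ι : Type} [Fintype ι] [DecidableEq ι]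

/-- the mean over the sample, complex values -/
noncomputable def SC (s : Finset ℕ) (c : ℕ → ι → ℤ) (F : (ι → ℤ) → ℂ) : ℂ :=
  (∑ n ∈ s, F (c n)) / s.card

/-- the mean over a period, complex values -/
noncomputable def PC (M : ℕ) (F : (ι → ℤ) → ℂ) : ℂ :=
  (∑ r : ι → Fin M, F (fun i => ((r i : ℕ) : ℤ))) / (M : ℂ) ^ Fintype.card ι

variable {s : Finset ℕ} {c : ℕ → ι → ℤ}

theorem SC_add (F G : (ι → ℤ) → ℂ) : SC s c (fun w => F w + G w) = SC s c F + SC s c G := by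
  simp [SC, Finset.sum_add_distrib, add_div]

theorem SC_mul (t : ℂ) (F : (ι → ℤ) → ℂ) : SC s c (fun w => t * F w) = t * SC s c F := by
  simp [SC, ← Finset.mul_sum, mul_div_assoc]

theorem SC_sum {κ : Type*} (u : Finset κ) (F : κ → (ι → ℤ) → ℂ) :
    SC s c (fun w => ∑ k ∈ u, F k w) = ∑ k ∈ u, SC s c (F k) := by
  simp only [SC]
  rw [Finset.sum_comm, Finset.sum_div]

theorem SC_real (f : (ι → ℤ) → ℝ) : SC s c (fun w => ((f w : ℝ) : ℂ)) = ((SA s c f : ℝ) : ℂ) := by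
  unfold SC SA
  push_cast
  rfl

theorem SC_norm {F : (ι → ℤ) → ℂ} {f : (ι → ℤ) → ℝ} (h : ∀ w, ‖F w‖ ≤ f w) : ‖SC s c F‖ ≤ SA s c f := by
  unfold SC SA
  rw [norm_div, Complex.norm_natCast]
  gcongr
  exact (norm_sum_le _ _).trans (Finset.sum_le_sum fun n _ => h _)

theorem PC_add (M : ℕ) (F G : (ι → ℤ) → ℂ) : PC M (fun w => F w + G w) = PC M F + PC M G := by
  simp [PC, Finset.sum_add_distrib, add_div]

theorem PC_mul_left (M : ℕ) (t : ℂ) (F : (ι → ℤ) → ℂ) : PC M (fun w => t * F w) = t * PC M F := by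
  simp [PC, ← Finset.mul_sum, mul_div_assoc]

theorem PC_sum {κ : Type*} (u : Finset κ) (M : ℕ) (F : κ → (ι → ℤ) → ℂ) :
    PC M (fun w => ∑ k ∈ u, F k w) = ∑ k ∈ u, PC M (F k) := by
  simp only [PC]
  rw [Finset.sum_comm, Finset.sum_div]

theorem PC_real (M : ℕ) (f : (ι → ℤ) → ℝ) : PC M (fun w => ((f w : ℝ) : ℂ)) = ((PM M f : ℝ) : ℂ) := by
  unfold PC PM
  push_cast
  rfl

theorem PC_norm {M : ℕ} {F : (ι → ℤ) → ℂ} {f : (ι → ℤ) → ℝ} (h : ∀ w, ‖F w‖ ≤ f w) :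
    ‖PC M F‖ ≤ PM M f := by
  unfold PC PM
  rw [norm_div, norm_pow, Complex.norm_natCast]
  gcongr
  exact (norm_sum_le _ _).trans (Finset.sum_le_sum fun n _ => h _)

/-- periodic modulo `M`, complex values -/
def PdC (M : ℕ) (f : (ι → ℤ) → ℂ) : Prop := ∀ c c' : ι → ℤ, red M c = red M c' → f c = f c'

theorem PdC.dvd {M M' : ℕ} {f : (ι → ℤ) → ℂ} (h : PdC M f) (hd : M ∣ M') : PdC M' f := by
  intro c c' hc
  refine h c c' ?_
  funext i
  have h1 : ((c i : ℤ) : ZMod M') = ((c' i : ℤ) : ZMod M') := congrFun hc i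
  have h2 : ((c i : ℤ) : ZMod M) = ((c' i : ℤ) : ZMod M) := by
    rw [ZMod.intCast_eq_intCast_iff_dvd_sub] at h1 ⊢
    exact (Int.natCast_dvd_natCast.2 hd).trans h1
  exact h2

theorem PdC.prod {κ : Type*} (T : Finset κ) (f : κ → (ι → ℤ) → ℂ) {M : ℕ}
    (h : ∀ k ∈ T, PdC M (f k)) : PdC M (fun c => ∏ k ∈ T, f k c) :=
  fun c c' hc => Finset.prod_congr rfl fun k hk => h k hk c c' hc

theorem PC_EM (M : ℕ) [NeZero M] (f : (ι → ℤ) → ℂ) :
    PC M f = (∑ r : ι → ZMod M, f (fun i => ((r i).val : ℤ))) / (M : ℂ) ^ Fintype.card ι := by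
  obtain ⟨n, rfl⟩ : ∃ n, M = n + 1 := ⟨M - 1, (Nat.succ_pred_eq_of_ne_zero (NeZero.ne M)).symm⟩
  rfl

theorem PC_mul {M q : ℕ} (hM : 0 < M) (hq : 0 < q) (hc : Nat.Coprime M q) {f g : (ι → ℤ) → ℂ}
    (hf : PdC M f) (hg : PdC q g) : PC (M * q) (fun c => f c * g c) = PC M f * PC q g := by
  haveI : NeZero M := ⟨hM.ne'⟩
  haveI : NeZero q := ⟨hq.ne'⟩
  haveI : NeZero (M * q) := ⟨(Nat.mul_pos hM hq).ne'⟩
  rw [PC_EM, PC_EM, PC_EM]
  set E : (ι → ZMod (M * q)) ≃ (ι → ZMod M) × (ι → ZMod q) :=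
    (Equiv.piCongrRight fun _ => (ZMod.chineseRemainder hc).toEquiv).trans
      (Equiv.arrowProdEquivProdArrow _ _ _) with hE
  have h1 : ∑ c : ι → ZMod (M * q), f (fun i => ((c i).val : ℤ)) * g (fun i => ((c i).val : ℤ)) =
      ∑ r : (ι → ZMod M) × (ι → ZMod q), f (fun i => ((r.1 i).val : ℤ)) *
        g (fun i => ((r.2 i).val : ℤ)) := by
    refine Fintype.sum_equiv E _ _ fun r => ?_
    have e1 : ∀ i, ((E r).1 i) = (((r i).val : ℕ) : ZMod M) := by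
      intro i
      have : (E r).1 i = (ZMod.chineseRemainder hc (r i)).1 := rfl
      rw [this]
      conv_lhs => rw [← ZMod.natCast_zmod_val (r i)]
      rw [map_natCast]
      rfl
    have e2 : ∀ i, ((E r).2 i) = (((r i).val : ℕ) : ZMod q) := by
      intro i
      have : (E r).2 i = (ZMod.chineseRemainder hc (r i)).2 := rfl
      rw [this]
      conv_lhs => rw [← ZMod.natCast_zmod_val (r i)]
      rw [map_natCast]
      rfl
    congr 1
    · apply hf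
      funext i
      simp only [red, e1]
      simp
    · apply hg
      funext i
      simp only [red, e2]
      simp
  rw [h1, Fintype.sum_prod_type]
  simp_rw [← Finset.mul_sum]
  rw [← Finset.sum_mul]
  push_cast
  rw [mul_pow, mul_div_mul_comm]

theorem PC_prod (T : Finset ℕ) (hT : ∀ p ∈ T, p.Prime) (f : ℕ → (ι → ℤ) → ℂ)
    (hf : ∀ p ∈ T, PdC p (f p)) :
    PC (∏ p ∈ T, p) (fun c => ∏ p ∈ T, f p c) = ∏ p ∈ T, PC p (f p) := by
  classical
  induction T using Finset.induction_on with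
  | empty => simp [PC]
  | insert p T hp ih =>
    have hT' : ∀ p ∈ T, p.Prime := fun q hq => hT q (Finset.mem_insert_of_mem hq)
    have hpp := hT p (Finset.mem_insert_self p T)
    have hc : Nat.Coprime p (∏ q ∈ T, q) := by
      apply Nat.Coprime.prod_right
      intro q hq
      exact (Nat.coprime_primes hpp (hT' q hq)).2 (by rintro rfl; exact hp hq)
    rw [Finset.prod_insert hp, Finset.prod_insert hp,
      ← ih hT' (fun q hq => hf q (Finset.mem_insert_of_mem hq))]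
    have e : (fun c => ∏ q ∈ insert p T, f q c) = fun c => f p c * ∏ q ∈ T, f q c := by
      funext c
      rw [Finset.prod_insert hp]
    rw [e]
    exact PC_mul hpp.pos (Finset.prod_pos fun q hq => (hT' q hq).pos) hc
      (hf p (Finset.mem_insert_self p T))
      (PdC.prod T f fun q hq => (hf q (Finset.mem_insert_of_mem hq)).dvd (Finset.dvd_prod_of_mem _ hq))

/-- one prime -/
theorem PC_cexp {p : ℕ} (hp : 0 < p) {X : (ι → ℤ) → ℝ} {b : ℝ} (hX : ∀ w, |X w| ≤ b) (hb : 0 ≤ b)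
    (hm : PM p X = 0) {y : ℝ} (hy : |y| * b ≤ 1) :
    ‖PC p (fun w => Complex.exp ((y * X w : ℝ) * Complex.I)) -
      Complex.exp (-((y ^ 2 * PM p (fun w => X w ^ 2) / 2 : ℝ) : ℂ))‖ ≤ 2 * (|y| * b) ^ 3 := by
  set v : ℝ := PM p (fun w => X w ^ 2) with hv
  have hv0 : 0 ≤ v := PM_nonneg fun w => sq_nonneg _
  have hvb : v ≤ b ^ 2 := by
    rw [hv, ← PM_const (ι := ι) hp (b ^ 2)]
    exact PM_mono fun w => sq_le_sq' (abs_le.1 (hX w)).1 (abs_le.1 (hX w)).2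
  set θ : ℝ := |y| * b with hθ
  have hθ0 : 0 ≤ θ := by positivity
  have hyX : ∀ w, |y * X w| ≤ θ := fun w => by
    rw [abs_mul, hθ]
    exact mul_le_mul_of_nonneg_left (hX w) (abs_nonneg y)
  have e1 : PC p (fun w => (1 + ((y * X w : ℝ) : ℂ) * Complex.I - (((y * X w) ^ 2 / 2 : ℝ) : ℂ))) =
      1 - ((y ^ 2 * v / 2 : ℝ) : ℂ) := by
    have e2 : (fun w : ι → ℤ => (1 + ((y * X w : ℝ) : ℂ) * Complex.I - (((y * X w) ^ 2 / 2 : ℝ) : ℂ))) =
        fun w => ((1 : ℝ) : ℂ) + (((y : ℂ) * Complex.I) * ((X w : ℝ) : ℂ) +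
          (-((y : ℂ) ^ 2 / 2)) * (((X w) ^ 2 : ℝ) : ℂ)) := by
      funext w
      push_cast
      ring
    rw [e2, PC_add, PC_add, PC_mul_left, PC_mul_left, PC_real, PC_real, PC_real, PM_const hp, hm]
    push_cast
    ring
  have h2 : ‖PC p (fun w => Complex.exp ((y * X w : ℝ) * Complex.I)) -
      (1 - ((y ^ 2 * v / 2 : ℝ) : ℂ))‖ ≤ θ ^ 3 := by
    have e3 : PC p (fun w => Complex.exp ((y * X w : ℝ) * Complex.I)) -
        (1 - ((y ^ 2 * v / 2 : ℝ) : ℂ)) = PC p (fun w => Complex.exp ((y * X w : ℝ) * Complex.I) +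
        (-1) * (1 + ((y * X w : ℝ) : ℂ) * Complex.I - (((y * X w) ^ 2 / 2 : ℝ) : ℂ))) := by
      rw [PC_add, PC_mul_left, e1]
      ring
    rw [e3, ← PM_const (ι := ι) hp (θ ^ 3)]
    refine PC_norm fun w => ?_
    have := cexp_quad ((hyX w).trans hy)
    rw [neg_one_mul, ← sub_eq_add_neg]
    exact this.trans (pow_le_pow_left₀ (abs_nonneg _) (hyX w) 3)
  set z : ℝ := y ^ 2 * v / 2 with hz
  have hz0 : 0 ≤ z := by positivity
  have hzθ : z ≤ θ ^ 2 / 2 := by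
    rw [hz, hθ, mul_pow, sq_abs]
    have : y ^ 2 * v ≤ y ^ 2 * b ^ 2 := mul_le_mul_of_nonneg_left hvb (sq_nonneg _)
    linarith
  have hθ1 : θ ^ 2 ≤ 1 := pow_le_one₀ hθ0 hy
  have h4 : ‖(1 - (z : ℂ)) - Complex.exp (-(z : ℂ))‖ ≤ θ ^ 3 := by
    have h5 := Real.abs_exp_sub_one_sub_id_le (x := -z) (by rw [abs_neg, abs_of_nonneg hz0]; linarith)
    have e : (1 - (z : ℂ)) - Complex.exp (-(z : ℂ)) = ((-(Real.exp (-z) - 1 - -z) : ℝ) : ℂ) := by
      push_cast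
      ring
    rw [e, Complex.norm_real, Real.norm_eq_abs, abs_neg]
    refine h5.trans ?_
    rw [neg_sq]
    have h6 : z ^ 2 ≤ (θ ^ 2 / 2) ^ 2 := pow_le_pow_left₀ hz0 hzθ 2
    have h7 : θ ^ 4 ≤ θ ^ 3 := pow_le_pow_of_le_one hθ0 hy (by norm_num)
    have h8 : (0 : ℝ) ≤ θ ^ 3 := by positivity
    nlinarith
  have e2 : PC p (fun w => Complex.exp ((y * X w : ℝ) * Complex.I)) -
      Complex.exp (-((z : ℝ) : ℂ)) =
      (PC p (fun w => Complex.exp ((y * X w : ℝ) * Complex.I)) - (1 - ((z : ℝ) : ℂ))) +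
      ((1 - ((z : ℝ) : ℂ)) - Complex.exp (-((z : ℝ) : ℂ))) := by ring
  rw [e2]
  refine (norm_add_le _ _).trans ?_
  linarith

theorem char_PC (I : Finset ℕ) (hI : ∀ p ∈ I, p.Prime) {X : ℕ → (ι → ℤ) → ℝ} {b : ℕ → ℝ}
    (hb : ∀ p, 0 ≤ b p) (hper : ∀ p ∈ I, Pd p (X p)) (hX : ∀ p ∈ I, ∀ w, |X p w| ≤ b p)
    (hm : ∀ p ∈ I, PM p (X p) = 0) {y : ℝ} (hy : ∀ p ∈ I, |y| * b p ≤ 1) :
    ‖PC (∏ p ∈ I, p) (fun w => Complex.exp ((y * ∑ p ∈ I, X p w : ℝ) * Complex.I)) -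
      Complex.exp (-((y ^ 2 * (∑ p ∈ I, PM p (fun w => X p w ^ 2)) / 2 : ℝ) : ℂ))‖ ≤
      2 * |y| ^ 3 * ∑ p ∈ I, b p ^ 3 := by
  have e : (fun w => Complex.exp ((y * ∑ p ∈ I, X p w : ℝ) * Complex.I)) =
      fun w => ∏ p ∈ I, Complex.exp ((y * X p w : ℝ) * Complex.I) := by
    funext w
    rw [← Complex.exp_sum, Finset.mul_sum, Complex.ofReal_sum, Finset.sum_mul]
  have e2 : Complex.exp (-((y ^ 2 * (∑ p ∈ I, PM p (fun w => X p w ^ 2)) / 2 : ℝ) : ℂ)) =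
      ∏ p ∈ I, Complex.exp (-((y ^ 2 * PM p (fun w => X p w ^ 2) / 2 : ℝ) : ℂ)) := by
    rw [← Complex.exp_sum]
    congr 1
    push_cast
    rw [Finset.mul_sum, Finset.sum_div, Finset.sum_neg_distrib]
  rw [e, e2, PC_prod I hI (fun p w => Complex.exp ((y * X p w : ℝ) * Complex.I))
    (fun p hp c c' hc => congrArg (fun z : ℝ => Complex.exp ((y * z : ℝ) * Complex.I))
      (hper p hp c c' hc))]
  refine (norm_prod_sub_prod _ _ _ ?_ ?_).trans ?_
  · intro p hp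
    have h := PC_norm (M := p) (F := fun w : ι → ℤ => Complex.exp ((y * X p w : ℝ) * Complex.I))
      (f := fun _ => 1) (fun m => le_of_eq (Complex.norm_exp_ofReal_mul_I _))
    rwa [PM_const (hI p hp).pos] at h
  · intro p hp
    rw [Complex.norm_exp, Complex.neg_re, Complex.ofReal_re, Real.exp_le_one_iff]
    have : 0 ≤ PM p (fun w => X p w ^ 2) := PM_nonneg fun w => sq_nonneg _
    have : 0 ≤ y ^ 2 * PM p (fun w => X p w ^ 2) / 2 := by positivity
    linarith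
  · refine (Finset.sum_le_sum fun p hp =>
      PC_cexp (hI p hp).pos (hX p hp) (hb p) (hm p hp) (hy p hp)).trans (le_of_eq ?_)
    rw [Finset.mul_sum]
    exact Finset.sum_congr rfl fun p _ => by ring

/-- one power of the sum -/
theorem pow_SA_PM (I : Finset ℕ) (hI : ∀ p ∈ I, p.Prime) {X : ℕ → (ι → ℤ) → ℝ} {b : ℕ → ℝ}
    (hb : ∀ p, 0 ≤ b p) (hper : ∀ p ∈ I, Pd p (X p)) (hX : ∀ p ∈ I, ∀ w, |X p w| ≤ b p)
    {x H : ℕ} (hx : ∀ p ∈ I, p ≤ x) (hx1 : 1 ≤ x) (hw : Well s c H) {j : ℕ} (hj : x ^ j ≤ H) :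
    |SA s c (fun w => (∑ p ∈ I, X p w) ^ j) - PM (∏ p ∈ I, p) (fun w => (∑ p ∈ I, X p w) ^ j)| ≤
      (∑ p ∈ I, b p) ^ j * (1 / (2 * H + 1)) := by
  classical
  set Q := ∏ p ∈ I, p with hQ
  set A := Fintype.piFinset (fun _ : Fin j => I) with hA
  have hexp : ∀ (Y : ℕ → ℝ), (∑ p ∈ I, Y p) ^ j = ∑ v ∈ A, ∏ i, Y (v i) := by
    intro Y
    have := Finset.prod_univ_sum (fun _ : Fin j => I) (fun _ (q : ℕ) => Y q)
    rw [hA, ← this]
    simp
  have e : (fun w => (∑ p ∈ I, X p w) ^ j) =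
      fun w => ∑ z ∈ A, (fun (z : Fin j → ℕ) (w : ι → ℤ) => ∏ i, X (z i) w) z w := by
    funext w
    exact hexp (fun p => X p w)
  have key : ∀ z ∈ A, |SA s c (fun w => ∏ i, X (z i) w) -
      PM Q (fun w => ∏ i, X (z i) w)| ≤ (∏ i, b (z i)) * (1 / (2 * H + 1)) := by
    intro z hz
    rw [hA, Fintype.mem_piFinset] at hz
    set T := (univ : Finset (Fin j)).image z with hT
    have hTI : T ⊆ I := by
      intro p hp
      rw [hT, mem_image] at hp
      obtain ⟨i, _, rfl⟩ := hp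
      exact hz i
    set M := ∏ p ∈ T, p with hM
    have hdvd : ∀ i, z i ∣ M := fun i =>
      Finset.dvd_prod_of_mem _ (Finset.mem_image_of_mem z (mem_univ i))
    have hperM : Pd M (fun w => ∏ i, X (z i) w) :=
      Pd.prod univ (fun i => X (z i)) fun i _ => (hper _ (hz i)).dvd (hdvd i)
    have hM0 : 0 < M := Finset.prod_pos fun p hp => (hI p (hTI hp)).pos
    have hMx : M ≤ x ^ j := by
      calc M ≤ ∏ _p ∈ T, x := Finset.prod_le_prod' fun p hp => hx p (hTI hp)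
        _ = x ^ #T := by simp
        _ ≤ x ^ j := Nat.pow_le_pow_right hx1 (by
          calc #T ≤ #(univ : Finset (Fin j)) := Finset.card_image_le
            _ = j := by simp)
    have hB : ∀ w, |∏ i, X (z i) w| ≤ ∏ i, b (z i) := by
      intro w
      rw [Finset.abs_prod]
      exact Finset.prod_le_prod (fun _ _ => abs_nonneg _) fun i _ => hX _ (hz i) w
    rw [PM_sub hTI hI hperM]
    have h1 := SA_PM hw hM0 (by omega) hperM
    refine h1.trans ?_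
    have h2 : PM M (fun w => |∏ i, X (z i) w|) ≤ ∏ i, b (z i) := by
      rw [← PM_const (ι := ι) hM0 (∏ i, b (z i))]
      exact PM_mono hB
    rw [mul_comm]
    exact mul_le_mul_of_nonneg_right h2 (by positivity)
  rw [e, SA_sum, PM_sum, ← Finset.sum_sub_distrib, hexp b, Finset.sum_mul]
  exact (Finset.abs_sum_le_sum_abs _ _).trans (Finset.sum_le_sum key)

end

end Pool.Agent.N666.TB
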