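import Pool.Agent.N666.TB.CLT
import Pool.Agent.N666.TM.LawF

set_option autoImplicit false
set_option linter.all false
set_option linter.unusedSectionVars false

/-! # The distribution functions along a thin sequence -/

namespace Pool.Agent.N666.TB

open Finset Filter Topology MeasureTheory ProbabilityTheory Pool.Agent.N430.BP
open Pool.Agent.N666.TM (Well WellSeq lawS fixS fixS_ne fixS_ev lawS_prob lawS_apply)

section
variable {ι : Type} [Fintype ι] [DecidableEq ι]

theorem SC_sub_le (s : Finset ℕ) (c : ℕ → ι → ℤ) {F G : (ι → ℤ) → ℂ} {δ : ℝ} (hδ : 0 ≤ δ)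
    (h : ∀ w, ‖F w - G w‖ ≤ δ) : ‖SC s c F - SC s c G‖ ≤ δ := by
  unfold SC
  rw [← sub_div, ← Finset.sum_sub_distrib, norm_div, Complex.norm_natCast]
  rcases Nat.eq_zero_or_pos s.card with h0 | h0
  · rw [h0]
    simpa using hδ
  · have hc : (0 : ℝ) < s.card := by exact_mod_cast h0
    rw [div_le_iff₀ hc]
    refine (norm_sum_le _ _).trans ((Finset.sum_le_sum fun n _ => h (c n)).trans ?_)
    rw [Finset.sum_const, nsmul_eq_mul]
    linarith [mul_comm δ (s.card : ℝ)]

theorem exp_sub_le (u v : ℝ) : ‖Complex.exp ((u : ℂ) * Complex.I) - Complex.exp ((v : ℂ) * Complex.I)‖ ≤ |u - v| := by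
  have e : Complex.exp ((u : ℂ) * Complex.I) - Complex.exp ((v : ℂ) * Complex.I) =
      Complex.exp ((v : ℂ) * Complex.I) * (Complex.exp (Complex.I * ((u - v : ℝ) : ℂ)) - 1) := by
    rw [mul_sub, mul_one, ← Complex.exp_add]
    congr 2
    push_cast
    ring
  rw [e, norm_mul, Complex.norm_exp_ofReal_mul_I, one_mul]
  refine (Real.norm_exp_I_mul_ofReal_sub_one_le).trans (le_of_eq ?_)
  rw [Real.norm_eq_abs]

theorem charFun_lawS (s : Finset ℕ) (Y : ℕ → ℝ) (t : ℝ) :
    charFun (lawS s Y) t = (∑ n ∈ s, Complex.exp ((t * Y n : ℝ) * Complex.I)) / s.card := by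
  rw [charFun_apply_real]
  unfold lawS
  rw [integral_smul_measure, integral_finsetSum_measure (by
    intro i _
    exact integrable_dirac (by simp))]
  simp only [integral_dirac]
  rw [ENNReal.toReal_inv, ENNReal.toReal_natCast, Complex.real_smul]
  push_cast
  rw [div_eq_inv_mul]

/-- the distribution function of the standard normal law -/
noncomputable def Phi (t : ℝ) : ℝ := (gaussianReal 0 1 (Set.Iic t)).toReal

open Classical in
/-- **The central limit theorem along a thin sequence** -/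
theorem dist_thin {S : ℕ → Finset ℕ} {c : ℕ → ι → ℤ} {ρ : ℝ} (hρ : 0 < ρ) (hS : WellSeq S c ρ)
    (X : ℕ → (ι → ℤ) → ℝ) {b0 : ℝ} (hb0 : 0 ≤ b0)
    (hper : ∀ p, p.Prime → p ≠ 2 → Pd p (X p))
    (hX : ∀ p, p.Prime → p ≠ 2 → ∀ w, |X p w| ≤ b0 * ri p)
    (hm : ∀ p, p.Prime → p ≠ 2 → PM p (X p) = 0)
    {v : ℝ} (hv : 0 < v) (hV : Tendsto (fun x : ℕ => (∑ p ∈ OP x, PM p (fun w => X p w ^ 2)) /
      Real.log (Real.log x)) atTop (𝓝 v))
    (D : ℕ → (ι → ℤ) → ℝ) {C0 : ℝ} (hC0 : 0 ≤ C0)
    (hD : ∀ x : ℕ, 3 ≤ x → ∀ w, |D x w - ∑ p ∈ OP x, X p w| ≤ C0)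
    {x : ℕ → ℕ} (hx : Tendsto x atTop atTop) (hxN : ∀ K : ℕ, ∀ᶠ N : ℕ in atTop, x N ^ K ≤ N) (z : ℝ) :
    Tendsto (fun N => (((S N).filter fun n => D (x N) (c n) ≤ z * √(v * Real.log (Real.log (x N)))).card : ℝ) /
      (S N).card) atTop (𝓝 (Phi z)) := by
  have hfix : ∀ᶠ n in atTop, fixS S n = S n := by
    obtain ⟨N₁, hN₁⟩ := hS
    filter_upwards [eventually_ge_atTop N₁] with n hn
    have h0 := hN₁ n hn 0 (by simpa using Real.rpow_nonneg (Nat.cast_nonneg n) ρ)
    unfold fixS
    rw [if_neg h0.pos.ne']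
  have hLt : Tendsto (fun N => Real.log (Real.log (x N))) atTop atTop :=
    Real.tendsto_log_atTop.comp (Real.tendsto_log_atTop.comp (tendsto_natCast_atTop_atTop.comp hx))
  have hsv : 0 < √v := Real.sqrt_pos.2 hv
  have hsL : Tendsto (fun N => √(Real.log (Real.log (x N)))) atTop atTop := Real.tendsto_sqrt_atTop.comp hLt
  let Y : ℕ → ℕ → ℝ := fun N n => D (x N) (c n) / √(v * Real.log (Real.log (x N)))
  let μ : ℕ → ProbabilityMeasure ℝ := fun N => ⟨lawS (fixS S N) (Y N), lawS_prob _ (fixS_ne S N) _⟩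
  let ν : ProbabilityMeasure ℝ := ⟨gaussianReal 0 1, inferInstance⟩
  have h1 : Tendsto μ atTop (𝓝 ν) := by
    rw [ProbabilityMeasure.tendsto_iff_tendsto_charFun]
    intro s
    have h3 : charFun (ν : Measure ℝ) s = Complex.exp (-((s ^ 2 / 2 : ℝ) : ℂ)) := by
      change charFun (gaussianReal 0 1) s = _
      rw [charFun_gaussianReal]
      congr 1
      push_cast
      ring
    rw [h3]
    have h2 := clt_thin hρ hS X hb0 hper hX hm (fun _ _ => 1) (fun _ _ => by simp) hx hxN
      (σ := v) (by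
        refine (hV.comp hx).congr fun N => ?_
        simp only [Function.comp, one_pow, one_mul]) (s / √v)
    have e0 : (s / √v) ^ 2 * v / 2 = s ^ 2 / 2 := by
      rw [div_pow, Real.sq_sqrt hv.le]
      field_simp
    rw [e0] at h2
    simp only [one_mul] at h2
    have h4 : Tendsto (fun N => SC (S N) c (fun w => Complex.exp (((s / √v) * (D (x N) w /
        √(Real.log (Real.log (x N)))) : ℝ) * Complex.I)) - SC (S N) c (fun w => Complex.exp (((s / √v) *
        ((∑ p ∈ OP (x N), X p w) / √(Real.log (Real.log (x N)))) : ℝ) * Complex.I))) atTop (𝓝 0) := by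
      have h0 : Tendsto (fun N => |s / √v| * C0 / √(Real.log (Real.log (x N)))) atTop (𝓝 0) :=
        tendsto_const_nhds.div_atTop hsL
      refine squeeze_zero_norm' ?_ h0
      filter_upwards [hsL.eventually_gt_atTop 0, hx.eventually_ge_atTop 3] with N hN h3N
      refine SC_sub_le _ _ (by positivity) fun w => (exp_sub_le _ _).trans ?_
      rw [← mul_sub, ← sub_div, abs_mul, abs_div (D (x N) w - ∑ p ∈ OP (x N), X p w), abs_of_pos hN, mul_div_assoc]
      exact mul_le_mul_of_nonneg_left (div_le_div_of_nonneg_right (hD (x N) h3N w) hN.le) (abs_nonneg _)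
    have h5 := h4.add h2
    rw [zero_add] at h5
    refine h5.congr' ?_
    filter_upwards [hfix, hsL.eventually_gt_atTop 0, hLt.eventually_gt_atTop 0] with N hN hL0 hL1
    change _ = charFun (lawS (fixS S N) (Y N)) s
    rw [hN, charFun_lawS, sub_add_cancel]
    unfold SC
    congr 1
    refine Finset.sum_congr rfl fun n _ => ?_
    congr 3
    simp only [Y]
    rw [Real.sqrt_mul hv.le]
    field_simp
  have h2 : (ν : Measure ℝ) (frontier (Set.Iic z)) = 0 := by
    rw [frontier_Iic]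
    change gaussianReal 0 1 {z} = 0
    have := noAtoms_gaussianReal (μ := 0) (v := 1) one_ne_zero
    exact measure_singleton z
  have h3 := ProbabilityMeasure.tendsto_measure_of_null_frontier_of_tendsto' h1 h2
  have h4 := (ENNReal.tendsto_toReal (measure_ne_top (ν : Measure ℝ) (Set.Iic z))).comp h3
  refine (h4.congr' ?_)
  filter_upwards [hfix, hLt.eventually_gt_atTop 0] with N hN hL1
  change (lawS (fixS S N) (Y N) (Set.Iic z)).toReal = _
  have hq : 0 < √(v * Real.log (Real.log (x N))) := Real.sqrt_pos.2 (mul_pos hv hL1)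
  rw [hN, lawS_apply _ _ _ measurableSet_Iic, ENNReal.toReal_mul, ENNReal.toReal_inv, ENNReal.toReal_natCast,
    ENNReal.toReal_natCast, ← div_eq_inv_mul]
  congr 3
  ext n
  rw [mem_filter, mem_filter, Set.mem_Iic]
  simp only [Y]
  rw [div_le_iff₀ hq]

end

end Pool.Agent.N666.TB
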