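import Pool.Agent.N666.TB.Law
import Pool.Agent.N666.TB.Conv
import Pool.Agent.N430.BP.NF4

set_option autoImplicit false
set_option linter.all false

/-! # The original products for thin families over a number field -/

namespace Pool.Agent.N666.TB

open Finset Module NumberField IsDedekindDomain
open Pool.Agent.Y722.HS Pool.Agent.Y722.LS Pool.Agent.N666.TM Pool.Agent.N430.BP
open Pool.Agent.N430.CLT

section gen

variable {m : ℕ} {T : Type} (d : LocalData m ((Fin m → ℤ × ℤ) × T)) (Z : T → ℕ → (Fin m → ℤ × ℤ) → ℝ)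

open Classical in
/-- thin sequences, for local data given by functions of integer vectors -/
theorem thin_data (hZ : ∀ (t : T) (p : ℕ) (W : Fin m → ℤ × ℤ) (w : Pt m), d.X (W, t) p w = Z t p (trl W w))
    {S : ℕ → Finset ℕ} {z : ℕ → Fin m ⊕ Fin m → ℤ} {ρ : ℝ} (hρ : 0 < ρ) (hS : WellSeq S z ρ) (t : T)
    (D : ℕ → (Fin m → ℤ × ℤ) → ℝ) {C0 : ℝ} (hC0 : 0 ≤ C0)
    (hD : ∀ x : ℕ, 16 ≤ x → ∀ w, |D x w - ∑ p ∈ OP x, Z t p w| ≤ C0)
    {ε A : ℝ} (hε : 0 < ε) (hA : 0 < A) :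
    ∃ (k : ℕ) (C : ℝ) (N₀ : ℕ), 0 < k ∧ 0 ≤ C ∧ ∀ k', k ≤ k' → ∀ N : ℕ, N₀ ≤ N → ∀ l : ℝ, 1 ≤ l →
      (((S N).filter fun n : ℕ => ∃ x : ℕ, 16 ≤ x ∧ x ^ k' ≤ N ∧
        l * Real.log (Real.log x) ^ (1 / 2 : ℝ) * (1 + Real.log (Real.log (Real.log x))) ^ ε <
          |D x (prs (z n))|).card : ℝ) ≤ C * l ^ (-A) * #(S N) := by
  refine thin_law hρ hS (fun p c => Z t p (prs c)) d.b d.b_nonneg ?_ ?_ ?_ d.B_nonneg d.sum_sq
    (fun x c => D x (prs c)) hC0 (fun x hx c => hD x hx (prs c)) hε hA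
  · intro p hp h2
    apply many_Pd
    intro W
    have h1 := d.per (W, t) p hp h2
    have e : (fun w => Z t p (trl W w)) = d.X (W, t) p := by
      funext w
      exact (hZ t p W w).symm
    rw [e]
    exact h1
  · intro p hp h2 c
    have h1 := d.bound (prs c, t) p hp h2 (fun _ => (0, 0))
    rw [hZ] at h1
    have e : trl (prs c) (fun _ => ((0, 0) : ℕ × ℕ)) = prs c := by
      funext i
      simp [trl]
    rw [e] at h1
    exact h1
  · intro p hp h2
    rw [many_PM p m (Z t p)]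
    have h1 := d.mean ((fun _ => (0, 0)), t) p hp h2
    have e : (fun w => Z t p (trl (fun _ => (0, 0)) w)) = d.X ((fun _ => (0, 0)), t) p := by
      funext w
      exact (hZ t p _ w).symm
    rw [e]
    exact h1

end gen

section nf

variable {K : Type} [Field K] [NumberField K] {n : ℕ} (B : Basis (Fin n) ℤ (𝓞 K))

open Classical in
theorem thin_NF {S : ℕ → Finset ℕ} {z : ℕ → Fin n ⊕ Fin n → ℤ} {ρ : ℝ} (hρ : 0 < ρ)
    (hS : WellSeq S z ρ) {ε A : ℝ} (hε : 0 < ε) (hA : 0 < A) :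
    ∃ (k : ℕ) (C : ℝ) (N₀ : ℕ), 0 < k ∧ 0 ≤ C ∧ ∀ k', k ≤ k' → ∀ N : ℕ, N₀ ≤ N → ∀ l : ℝ, 1 ≤ l →
      (((S N).filter fun ω : ℕ => ∃ x : ℕ, 16 ≤ x ∧ x ^ k' ≤ N ∧
        l * gauge ε x < |∑ v ∈ Tx K x, lf v (elA B (prs (z ω))) (elB B (prs (z ω))) -
          1 / 2 * Real.log (Real.log x)|).card : ℝ) ≤ C * l ^ (-A) * #(S N) := by
  obtain ⟨C0, hC0, hdec⟩ := nf_dec K
  set Z : Bool → ℕ → (Fin n → ℤ × ℤ) → ℝ := fun t p w =>
    XF (if t then 1 else 2) p (elA B w) (elB B w) with hZ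
  have hZX : ∀ (t : Bool) (p : ℕ) (W : Fin n → ℤ × ℤ) (w : Pt n),
      (nfData B).X (W, t) p w = Z t p (trl W w) := fun t p W w => rfl
  set Dt : ℕ → (Fin n → ℤ × ℤ) → ℝ := fun x w => ∑ v ∈ Tx K x, lf v (elA B w) (elB B w) -
      1 / 2 * Real.log (Real.log x) - ∑ p ∈ OP (Nat.sqrt x), XF 2 p (elA B w) (elB B w) with hDt
  set Df : ℕ → (Fin n → ℤ × ℤ) → ℝ := fun x w => ∑ p ∈ OP x, XF 2 p (elA B w) (elB B w) with hDf
  obtain ⟨k₁, C₁, N₁, hk₁, hC₁, L1'⟩ := thin_data (nfData B) Z hZX hρ hS true Dt hC0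
    (fun x hx w => hdec x hx (elA B w) (elB B w)) hε hA
  obtain ⟨k₂, C₂, N₂, hk₂, hC₂, L2'⟩ := thin_data (nfData B) Z hZX hρ hS false Df hC0
    (fun x hx w => by
      have : Df x w - ∑ p ∈ OP x, Z false p w = 0 := by
        rw [sub_eq_zero]
        rfl
      rw [this, abs_zero]
      exact hC0) hε hA
  set C2 : ℝ := ∑ p ∈ OP 16, (nfData B).b p with hC2
  have hC20 : 0 ≤ C2 := Finset.sum_nonneg fun p _ => (nfData B).b_nonneg p
  set l0 : ℝ := 2 + 2 * C2 with hl0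
  have hl00 : 0 ≤ l0 := by rw [hl0]; linarith
  have h2A : (0 : ℝ) < 2 ^ A := Real.rpow_pos_of_pos (by norm_num) _
  refine ⟨max k₁ k₂, (C₁ + C₂) * 2 ^ A + l0 ^ A, max N₁ N₂, by omega, by positivity,
    fun k hk N hN l hl => ?_⟩
  have hlp : 0 < l := by linarith
  have hlA : 0 < l ^ (-A) := Real.rpow_pos_of_pos hlp _
  set E := (S N).filter fun ω : ℕ => ∃ x : ℕ, 16 ≤ x ∧ x ^ k ≤ N ∧
        l * gauge ε x < |∑ v ∈ Tx K x, lf v (elA B (prs (z ω))) (elB B (prs (z ω))) -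
          1 / 2 * Real.log (Real.log x)| with hE
  have hs0 : (0 : ℝ) ≤ #(S N) := Nat.cast_nonneg _
  have hcardS : ((#E : ℕ) : ℝ) ≤ #(S N) := by exact_mod_cast card_filter_le _ _
  by_cases hlC : l < l0
  · have h1 : (1 : ℝ) ≤ l0 ^ A * l ^ (-A) := by
      rw [Real.rpow_neg hlp.le, ← div_eq_mul_inv, one_le_div (Real.rpow_pos_of_pos hlp _)]
      exact Real.rpow_le_rpow hlp.le hlC.le hA.le
    have h2 : (0 : ℝ) ≤ (C₁ + C₂) * 2 ^ A * l ^ (-A) := by positivity
    calc ((#E : ℕ) : ℝ) ≤ 1 * #(S N) := by rw [one_mul]; exact hcardS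
      _ ≤ ((C₁ + C₂) * 2 ^ A + l0 ^ A) * l ^ (-A) * #(S N) := by
        refine mul_le_mul_of_nonneg_right ?_ hs0
        rw [add_mul]
        linarith
  push Not at hlC
  have hl2 : 1 ≤ l / 2 := by linarith
  have L1 := L1' k (by omega) N (by omega) (l / 2) hl2
  have L2 := L2' k (by omega) N (by omega) (l / 2) hl2
  set E1 := (S N).filter fun ω : ℕ => ∃ x : ℕ, 16 ≤ x ∧ x ^ k ≤ N ∧
        l / 2 * Real.log (Real.log x) ^ (1 / 2 : ℝ) * (1 + Real.log (Real.log (Real.log x))) ^ ε <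
          |Dt x (prs (z ω))| with hE1
  set E2 := (S N).filter fun ω : ℕ => ∃ x : ℕ, 16 ≤ x ∧ x ^ k ≤ N ∧
        l / 2 * Real.log (Real.log x) ^ (1 / 2 : ℝ) * (1 + Real.log (Real.log (Real.log x))) ^ ε <
          |Df x (prs (z ω))| with hE2
  have hsub : E ⊆ E1 ∪ E2 := by
    intro ω hω
    rw [hE, mem_filter] at hω
    obtain ⟨hωB, x, hx, hxN, hxl⟩ := hω
    rw [mem_union]
    by_cases h1 : l / 2 * gauge ε x < |Dt x (prs (z ω))|
    · left
      rw [hE1, mem_filter]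
      refine ⟨hωB, x, hx, hxN, ?_⟩
      rw [mul_assoc]
      exact h1
    · right
      push Not at h1
      set y := Nat.sqrt x with hy
      have hDt' : Dt x (prs (z ω)) = ∑ v ∈ Tx K x, lf v (elA B (prs (z ω))) (elB B (prs (z ω))) -
          1 / 2 * Real.log (Real.log x) - Df y (prs (z ω)) := rfl
      have h2 : l / 2 * gauge ε x < |Df y (prs (z ω))| := by
        have h3 : ∑ v ∈ Tx K x, lf v (elA B (prs (z ω))) (elB B (prs (z ω))) -
          1 / 2 * Real.log (Real.log x) = Dt x (prs (z ω)) + Df y (prs (z ω)) := by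
          rw [hDt']
          ring
        rw [h3] at hxl
        have := abs_add_le (Dt x (prs (z ω))) (Df y (prs (z ω)))
        linarith
      have hyx : y ≤ x := Nat.sqrt_le_self x
      have hy16 : 16 ≤ y := by
        by_contra hcon
        push Not at hcon
        have h4 : |Df y (prs (z ω))| ≤ C2 := by
          have h5 : Df y (prs (z ω)) = ∑ p ∈ OP y, (nfData B).X (prs (z ω), false) p (fun _ => (0, 0)) := by
            have e : trl (prs (z ω)) (fun _ => ((0, 0) : ℕ × ℕ)) = prs (z ω) := by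
              funext i
              simp [trl]
            simp only [hZX, e]
            rfl
          rw [h5]
          refine (Finset.abs_sum_le_sum_abs _ _).trans ?_
          refine (Finset.sum_le_sum fun p hp => (nfData B).bound (prs (z ω), false) p (mem_OP.1 hp).2.1
            (mem_OP.1 hp).2.2 _).trans ?_
          refine Finset.sum_le_sum_of_subset_of_nonneg ?_ fun p _ _ => (nfData B).b_nonneg p
          intro p hp
          rw [mem_OP] at hp ⊢
          exact ⟨by omega, hp.2⟩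
        have h6 := gauge_ge hε hx
        have h7 : l / 2 ≤ l / 2 * gauge ε x := le_mul_of_one_le_right (by linarith) h6
        linarith
      rw [hE2, mem_filter]
      refine ⟨hωB, y, hy16, (Nat.pow_le_pow_left hyx k).trans hxN, ?_⟩
      rw [mul_assoc]
      have h8 := gauge_mono hε hy16 hyx
      have h9 : l / 2 * gauge ε y ≤ l / 2 * gauge ε x := mul_le_mul_of_nonneg_left h8 (by linarith)
      exact lt_of_le_of_lt h9 h2
  have hcard : ((#E : ℕ) : ℝ) ≤ (#E1 : ℝ) + #E2 := by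
    have := (card_le_card hsub).trans (card_union_le _ _)
    exact_mod_cast this
  have hl2A : (l / 2) ^ (-A) = 2 ^ A * l ^ (-A) := by
    rw [Real.div_rpow hlp.le (by norm_num), Real.rpow_neg (by norm_num : (0 : ℝ) ≤ 2), div_inv_eq_mul,
      mul_comm]
  rw [hl2A] at L1 L2
  have hl0A : 0 ≤ l0 ^ A := by positivity
  calc ((#E : ℕ) : ℝ) ≤ (#E1 : ℝ) + #E2 := hcard
    _ ≤ C₁ * (2 ^ A * l ^ (-A)) * #(S N) + C₂ * (2 ^ A * l ^ (-A)) * #(S N) := add_le_add L1 L2
    _ = ((C₁ + C₂) * 2 ^ A) * l ^ (-A) * #(S N) := by ring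
    _ ≤ _ := by
      refine mul_le_mul_of_nonneg_right (mul_le_mul_of_nonneg_right ?_ hlA.le) hs0
      linarith

end nf

end Pool.Agent.N666.TB
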