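import Pool.Agent.N666.TM.Law
import Pool.Agent.N430.BP.Abs
import Pool.Agent.N430.BP.BoxM

set_option autoImplicit false
set_option linter.all false

/-! # Even moments of sums over primes along well distributed sequences of integer vectors -/

namespace Pool.Agent.N666.TB

open Finset Pool.Agent.Y722.HS Pool.Agent.Y722.LS Pool.Agent.N666.TM Pool.Agent.N430.BP

section
variable {ι : Type} [Fintype ι] [DecidableEq ι]

/-- the mean over the vectors with coordinates `0, …, M - 1` -/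
noncomputable def PM (M : ℕ) (f : (ι → ℤ) → ℝ) : ℝ :=
  (∑ r : ι → Fin M, f (fun i => ((r i : ℕ) : ℤ))) / (M : ℝ) ^ Fintype.card ι

/-- periodic modulo `M` -/
def Pd (M : ℕ) (f : (ι → ℤ) → ℝ) : Prop := ∀ c c' : ι → ℤ, red M c = red M c' → f c = f c'

theorem PM_mono {M : ℕ} {f g : (ι → ℤ) → ℝ} (h : ∀ c, f c ≤ g c) : PM M f ≤ PM M g := by
  unfold PM
  gcongr
  exact h _

theorem PM_add (M : ℕ) (f g : (ι → ℤ) → ℝ) : PM M (fun c => f c + g c) = PM M f + PM M g := by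
  simp [PM, Finset.sum_add_distrib, add_div]

theorem PM_mul_left (M : ℕ) (t : ℝ) (f : (ι → ℤ) → ℝ) : PM M (fun c => t * f c) = t * PM M f := by
  simp [PM, ← Finset.mul_sum, mul_div_assoc]

theorem PM_sum {κ : Type*} (u : Finset κ) (M : ℕ) (f : κ → (ι → ℤ) → ℝ) :
    PM M (fun c => ∑ k ∈ u, f k c) = ∑ k ∈ u, PM M (f k) := by
  simp only [PM]
  rw [Finset.sum_comm, Finset.sum_div]

theorem PM_const {M : ℕ} (hM : 0 < M) (t : ℝ) : PM M (fun _ : ι → ℤ => t) = t := by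
  have hp0 : (0 : ℝ) < M := by exact_mod_cast hM
  unfold PM
  rw [Finset.sum_const, nsmul_eq_mul, Finset.card_univ, Fintype.card_fun, Fintype.card_fin]
  push_cast
  field_simp

theorem PM_nonneg {M : ℕ} {f : (ι → ℤ) → ℝ} (h : ∀ c, 0 ≤ f c) : 0 ≤ PM M f := by
  unfold PM
  exact div_nonneg (Finset.sum_nonneg fun _ _ => h _) (by positivity)

theorem PM_EM (M : ℕ) [NeZero M] (f : (ι → ℤ) → ℝ) :
    PM M f = EM M (fun r : ι → ZMod M => f (fun i => ((r i).val : ℤ))) := by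
  obtain ⟨n, rfl⟩ : ∃ n, M = n + 1 := ⟨M - 1, (Nat.succ_pred_eq_of_ne_zero (NeZero.ne M)).symm⟩
  unfold PM EM
  rfl

theorem red_val (M : ℕ) [NeZero M] (c : ι → ℤ) :
    red M (fun i => (((c i : ZMod M)).val : ℤ)) = red M c := by
  funext i
  simp [red]

/-- the mean over the sample and the mean over a period -/
theorem SA_PM {s : Finset ℕ} {x : ℕ → ι → ℤ} {H : ℕ} (hw : Well s x H) {M : ℕ} (hM0 : 0 < M)
    (hM : M ≤ 2 * H + 1) {f : (ι → ℤ) → ℝ} (hf : Pd M f) :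
    |SA s x f - PM M f| ≤ 1 / (2 * H + 1) * PM M (fun c => |f c|) := by
  haveI : NeZero M := ⟨hM0.ne'⟩
  have h1 := SA_near hw M hM (fun r : ι → ZMod M => f (fun i => ((r i).val : ℤ)))
  have e : (fun c : ι → ℤ => (fun r : ι → ZMod M => f (fun i => ((r i).val : ℤ))) (red M c)) = f := by
    funext c
    exact hf _ _ (red_val M c)
  rw [e] at h1
  rw [PM_EM, PM_EM]
  exact h1

theorem Pd.dvd {M M' : ℕ} {f : (ι → ℤ) → ℝ} (h : Pd M f) (hd : M ∣ M') : Pd M' f := by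
  intro c c' hc
  refine h c c' ?_
  funext i
  have h1 : ((c i : ℤ) : ZMod M') = ((c' i : ℤ) : ZMod M') := congrFun hc i
  have h2 : ((c i : ℤ) : ZMod M) = ((c' i : ℤ) : ZMod M) := by
    rw [ZMod.intCast_eq_intCast_iff_dvd_sub] at h1 ⊢
    exact (Int.natCast_dvd_natCast.2 hd).trans h1
  exact h2

theorem Pd.prod {κ : Type*} (T : Finset κ) (f : κ → (ι → ℤ) → ℝ) {M : ℕ}
    (h : ∀ k ∈ T, Pd M (f k)) : Pd M (fun c => ∏ k ∈ T, f k c) :=
  fun c c' hc => Finset.prod_congr rfl fun k hk => h k hk c c' hc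

theorem PM_mul {M q : ℕ} (hM : 0 < M) (hq : 0 < q) (hc : Nat.Coprime M q) {f g : (ι → ℤ) → ℝ}
    (hf : Pd M f) (hg : Pd q g) : PM (M * q) (fun c => f c * g c) = PM M f * PM q g := by
  haveI : NeZero M := ⟨hM.ne'⟩
  haveI : NeZero q := ⟨hq.ne'⟩
  haveI : NeZero (M * q) := ⟨(Nat.mul_pos hM hq).ne'⟩
  rw [PM_EM, PM_EM, PM_EM]
  set E : (ι → ZMod (M * q)) ≃ (ι → ZMod M) × (ι → ZMod q) :=
    (Equiv.piCongrRight fun _ => (ZMod.chineseRemainder hc).toEquiv).trans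
      (Equiv.arrowProdEquivProdArrow _ _ _) with hE
  unfold EM
  have h1 : ∑ c : ι → ZMod (M * q), f (fun i => ((c i).val : ℤ)) * g (fun i => ((c i).val : ℤ)) =
      ∑ r : (ι → ZMod M) × (ι → ZMod q), f (fun i => ((r.1 i).val : ℤ)) *
        g (fun i => ((r.2 i).val : ℤ)) := by
    refine Fintype.sum_equiv E _ _ fun r => ?_
    have e1 : ∀ i, ((E r).1 i) = (((r i).val : ℕ) : ZMod M) := by
      intro i
      have : (E r).1 i = (ZMod.chineseRemainder hc (r i)).1 := rfl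
      rw [this]
      conv_lhs => rw [← ZMod.natCast_zmod_val (r i)]
      rw [map_natCast]
      rfl
    have e2 : ∀ i, ((E r).2 i) = (((r i).val : ℕ) : ZMod q) := by
      intro i
      have : (E r).2 i = (ZMod.chineseRemainder hc (r i)).2 := rfl
      rw [this]
      conv_lhs => rw [← ZMod.natCast_zmod_val (r i)]
      rw [map_natCast]
      rfl
    congr 1
    · apply hf
      funext i
      simp only [red, e1]
      simp
    · apply hg
      funext i
      simp only [red, e2]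
      simp
  rw [h1, Fintype.sum_prod_type]
  simp_rw [← Finset.mul_sum]
  rw [← Finset.sum_mul]
  push_cast
  rw [mul_pow, mul_div_mul_comm]

theorem PM_prod (T : Finset ℕ) (hT : ∀ p ∈ T, p.Prime) (f : ℕ → (ι → ℤ) → ℝ)
    (hf : ∀ p ∈ T, Pd p (f p)) :
    PM (∏ p ∈ T, p) (fun c => ∏ p ∈ T, f p c) = ∏ p ∈ T, PM p (f p) := by
  classical
  induction T using Finset.induction_on with
  | empty => simp [PM]
  | insert p T hp ih =>
    have hT' : ∀ p ∈ T, p.Prime := fun q hq => hT q (Finset.mem_insert_of_mem hq)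
    have hpp := hT p (Finset.mem_insert_self p T)
    have hc : Nat.Coprime p (∏ q ∈ T, q) := by
      apply Nat.Coprime.prod_right
      intro q hq
      exact (Nat.coprime_primes hpp (hT' q hq)).2 (by rintro rfl; exact hp hq)
    rw [Finset.prod_insert hp, Finset.prod_insert hp,
      ← ih hT' (fun q hq => hf q (Finset.mem_insert_of_mem hq))]
    have e : (fun c => ∏ q ∈ insert p T, f q c) = fun c => f p c * ∏ q ∈ T, f q c := by
      funext c
      rw [Finset.prod_insert hp]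
    rw [e]
    exact PM_mul hpp.pos (Finset.prod_pos fun q hq => (hT' q hq).pos) hc
      (hf p (Finset.mem_insert_self p T))
      (Pd.prod T f fun q hq => (hf q (Finset.mem_insert_of_mem hq)).dvd (Finset.dvd_prod_of_mem _ hq))

/-- a larger period -/
theorem PM_sub {T I : Finset ℕ} (hTI : T ⊆ I) (hI : ∀ p ∈ I, p.Prime) {f : (ι → ℤ) → ℝ}
    (hf : Pd (∏ p ∈ T, p) f) : PM (∏ p ∈ I, p) f = PM (∏ p ∈ T, p) f := by
  classical
  have h0 : ∏ p ∈ I, p = (∏ p ∈ T, p) * ∏ p ∈ I \ T, p := by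
    rw [mul_comm, Finset.prod_sdiff hTI]
  have hK : 0 < ∏ p ∈ I \ T, p := Finset.prod_pos fun p hp => (hI p (Finset.mem_sdiff.1 hp).1).pos
  have hc : Nat.Coprime (∏ p ∈ T, p) (∏ p ∈ I \ T, p) := by
    apply Nat.Coprime.prod_left
    intro p hp
    apply Nat.Coprime.prod_right
    intro q hq
    rw [Finset.mem_sdiff] at hq
    exact (Nat.coprime_primes (hI p (hTI hp)) (hI q hq.1)).2 (by rintro rfl; exact hq.2 hp)
  have h1 := PM_mul (ι := ι) (Finset.prod_pos fun p hp => (hI p (hTI hp)).pos) hK hc hf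
    (g := fun _ => (1 : ℝ)) (fun _ _ _ => rfl)
  rw [PM_const hK, mul_one, ← h0] at h1
  simpa using h1

/-- Hoeffding's inequality for one centred bounded variable -/
theorem hoeffding_PM {p : ℕ} (hp : 0 < p) {X : (ι → ℤ) → ℝ} {b : ℝ} (hb : 0 ≤ b)
    (hX : ∀ w, |X w| ≤ b) (hm : PM p X = 0) (t : ℝ) :
    PM p (fun w => Real.exp (t * X w)) ≤ Real.exp (t ^ 2 * b ^ 2 / 2) := by
  have hc := fun c : ℝ => PM_const (ι := ι) hp c
  rcases hb.eq_or_lt with rfl | hb
  · have h0 : X = fun _ => 0 := by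
      funext w
      exact abs_nonpos_iff.1 (hX w)
    rw [h0]
    simp only [mul_zero, Real.exp_zero]
    rw [hc]
    simp
  have h1 : ∀ w, Real.exp (t * X w) ≤ Real.cosh (t * b) + (Real.sinh (t * b) / b) * X w := by
    intro w
    have h2 := abs_le.1 (hX w)
    set l := (1 + X w / b) / 2 with hl
    have hl0 : 0 ≤ l := by
      rw [hl]
      have : -1 ≤ X w / b := by rw [le_div_iff₀ hb]; linarith
      linarith
    have hl1 : 0 ≤ 1 - l := by
      rw [hl]
      have : X w / b ≤ 1 := by rw [div_le_iff₀ hb]; linarith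
      linarith
    have h3 := convexOn_exp.2 (Set.mem_univ (t * b)) (Set.mem_univ (-(t * b))) hl0 hl1 (by ring)
    simp only [smul_eq_mul] at h3
    have h4 : l * (t * b) + (1 - l) * -(t * b) = t * X w := by
      rw [hl]
      field_simp
      ring
    rw [h4] at h3
    refine h3.trans (le_of_eq ?_)
    rw [Real.cosh_eq, Real.sinh_eq, hl]
    field_simp
    ring
  refine (PM_mono h1).trans ?_
  rw [PM_add, hc, PM_mul_left, hm, mul_zero, add_zero]
  refine (Real.cosh_le_exp_half_sq _).trans (le_of_eq ?_)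
  rw [mul_pow]

theorem exp_PM (I : Finset ℕ) (hI : ∀ p ∈ I, p.Prime) {X : ℕ → (ι → ℤ) → ℝ} {b : ℕ → ℝ}
    (hb : ∀ p, 0 ≤ b p) (hper : ∀ p ∈ I, Pd p (X p)) (hX : ∀ p ∈ I, ∀ w, |X p w| ≤ b p)
    (hm : ∀ p ∈ I, PM p (X p) = 0) (t : ℝ) :
    PM (∏ p ∈ I, p) (fun w => Real.exp (t * ∑ p ∈ I, X p w)) ≤
      Real.exp (t ^ 2 * Wt b I / 2) := by
  have e : (fun w => Real.exp (t * ∑ p ∈ I, X p w)) =
      fun w => ∏ p ∈ I, (fun p w => Real.exp (t * X p w)) p w := by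
    funext w
    rw [Finset.mul_sum, Real.exp_sum]
  rw [e, PM_prod I hI _ (fun p hp c c' hc => congrArg (fun z => Real.exp (t * z)) (hper p hp c c' hc))]
  refine (Finset.prod_le_prod (fun p _ => ?_) (fun p hp =>
    hoeffding_PM (hI p hp).pos (hb p) (hX p hp) (hm p hp) t)).trans (le_of_eq ?_)
  · exact PM_nonneg fun c => (Real.exp_pos _).le
  · rw [← Real.exp_sum]
    congr 1
    unfold Wt
    rw [Finset.mul_sum, Finset.sum_div]

/-- moments over a full period -/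
theorem moment_PM (I : Finset ℕ) (hI : ∀ p ∈ I, p.Prime) {X : ℕ → (ι → ℤ) → ℝ} {b : ℕ → ℝ}
    (hb : ∀ p, 0 ≤ b p) (hper : ∀ p ∈ I, Pd p (X p)) (hX : ∀ p ∈ I, ∀ w, |X p w| ≤ b p)
    (hm : ∀ p ∈ I, PM p (X p) = 0) (m : ℕ) (hm1 : 1 ≤ m) :
    PM (∏ p ∈ I, p) (fun w => (∑ p ∈ I, X p w) ^ (2 * m)) ≤
      4 * (2 * m).factorial * Wt b I ^ m := by
  have hQ0 : 0 < ∏ p ∈ I, p := Finset.prod_pos fun p hp => (hI p hp).pos
  rcases (Wt_nonneg b I).eq_or_lt with h0 | h0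
  · have hz : ∀ p ∈ I, b p = 0 := by
      intro p hp
      have := (Finset.sum_eq_zero_iff_of_nonneg (fun p _ => sq_nonneg (b p))).1 h0.symm p hp
      exact pow_eq_zero_iff two_ne_zero |>.1 this
    have e : (fun w => (∑ p ∈ I, X p w) ^ (2 * m)) = fun _ => (0 : ℝ) := by
      funext w
      rw [Finset.sum_eq_zero (fun p hp => ?_), zero_pow (by omega)]
      have := hX p hp w
      rw [hz p hp] at this
      exact abs_nonpos_iff.1 this
    rw [e, ← h0, zero_pow (by omega), PM_const hQ0]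
    simp
  set s := Real.sqrt (Wt b I) with hs
  have hs0 : 0 < s := Real.sqrt_pos.2 h0
  have hs2 : s ^ 2 = Wt b I := Real.sq_sqrt h0.le
  have h1 : ∀ w, (∑ p ∈ I, X p w) ^ (2 * m) ≤ (Wt b I ^ m * (2 * m).factorial) *
      (Real.exp (s⁻¹ * ∑ p ∈ I, X p w) + Real.exp (-s⁻¹ * ∑ p ∈ I, X p w)) := by
    intro w
    have h2 := pow_le_exp (s⁻¹ * ∑ p ∈ I, X p w) m
    have h3 : (∑ p ∈ I, X p w) ^ (2 * m) = Wt b I ^ m * (s⁻¹ * ∑ p ∈ I, X p w) ^ (2 * m) := by
      rw [mul_pow, ← hs2, ← pow_mul, ← mul_assoc, ← mul_pow, mul_inv_cancel₀ hs0.ne', one_pow, one_mul]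
    rw [h3, mul_assoc, neg_mul]
    exact mul_le_mul_of_nonneg_left h2 (by positivity)
  refine (PM_mono h1).trans ?_
  rw [PM_mul_left, PM_add]
  have h4 := exp_PM I hI hb hper hX hm s⁻¹
  have h5 := exp_PM I hI hb hper hX hm (-s⁻¹)
  have h6 : s⁻¹ ^ 2 * Wt b I / 2 = 1 / 2 := by
    rw [← hs2, ← mul_pow, inv_mul_cancel₀ hs0.ne', one_pow]
  have h6' : (-s⁻¹) ^ 2 * Wt b I / 2 = 1 / 2 := by rw [neg_sq, h6]
  rw [h6] at h4
  rw [h6'] at h5
  have h7 : Real.exp (1 / 2) ≤ 2 := by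
    have h8 : Real.exp (1 / 2) ^ 2 ≤ 2 ^ 2 := by
      rw [← Real.exp_nat_mul]
      have := Real.exp_one_lt_d9
      norm_num
      linarith
    exact le_of_sq_le_sq h8 (by norm_num)
  have h8 : (0 : ℝ) ≤ Wt b I ^ m * (2 * m).factorial := by positivity
  calc (Wt b I ^ m * (2 * m).factorial) * _ ≤ (Wt b I ^ m * (2 * m).factorial) * (2 + 2) :=
        mul_le_mul_of_nonneg_left (add_le_add (h4.trans h7) (h5.trans h7)) h8
    _ = _ := by ring

/-- **All even moments over a sample.** -/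
theorem moment_SA {s : Finset ℕ} {c : ℕ → ι → ℤ} (I : Finset ℕ) (hI : ∀ p ∈ I, p.Prime)
    {X : ℕ → (ι → ℤ) → ℝ} {b : ℕ → ℝ}
    (hb : ∀ p, 0 ≤ b p) (hper : ∀ p ∈ I, Pd p (X p)) (hX : ∀ p ∈ I, ∀ w, |X p w| ≤ b p)
    (hm : ∀ p ∈ I, PM p (X p) = 0) (m : ℕ) (hm1 : 1 ≤ m) {x : ℕ} (hx : ∀ p ∈ I, p ≤ x)
    (hw : Well s c (x ^ (2 * m))) :
    SA s c (fun w => (∑ p ∈ I, X p w) ^ (2 * m)) ≤
      (4 * (2 * m).factorial + 1) * Wt b I ^ m := by
  classical
  set Q := ∏ p ∈ I, p with hQ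
  have hQ0 : 0 < Q := Finset.prod_pos fun p hp => (hI p hp).pos
  set A := Fintype.piFinset (fun _ : Fin (2 * m) => I) with hA
  have hexp : ∀ (Y : ℕ → ℝ), (∑ p ∈ I, Y p) ^ (2 * m) = ∑ v ∈ A, ∏ i, Y (v i) := by
    intro Y
    have := Finset.prod_univ_sum (fun _ : Fin (2 * m) => I) (fun _ (q : ℕ) => Y q)
    rw [hA, ← this]
    simp
  have e : (fun w => (∑ p ∈ I, X p w) ^ (2 * m)) =
      fun w => ∑ z ∈ A, (fun (z : Fin (2 * m) → ℕ) (w : ι → ℤ) => ∏ i, X (z i) w) z w := by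
    funext w
    exact hexp (fun p => X p w)
  have hx0 : (0 : ℝ) ≤ x := Nat.cast_nonneg _
  set L : ℝ := 1 / (2 * (x : ℝ) ^ (2 * m) + 1) with hL
  have key : ∀ z ∈ A, |SA s c (fun w => ∏ i, X (z i) w) -
      PM Q (fun w => ∏ i, X (z i) w)| ≤ (∏ i, b (z i)) * L := by
    intro z hz
    rw [hA, Fintype.mem_piFinset] at hz
    set T := (univ : Finset (Fin (2 * m))).image z with hT
    have hTI : T ⊆ I := by
      intro p hp
      rw [hT, mem_image] at hp
      obtain ⟨i, _, rfl⟩ := hp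
      exact hz i
    set M := ∏ p ∈ T, p with hM
    have hdvd : ∀ i, z i ∣ M := fun i =>
      Finset.dvd_prod_of_mem _ (Finset.mem_image_of_mem z (mem_univ i))
    have hperM : Pd M (fun w => ∏ i, X (z i) w) :=
      Pd.prod univ (fun i => X (z i)) fun i _ => (hper _ (hz i)).dvd (hdvd i)
    have hM0 : 0 < M := Finset.prod_pos fun p hp => (hI p (hTI hp)).pos
    have i0 : Fin (2 * m) := ⟨0, by omega⟩
    have hx1' : 1 ≤ x := (hI _ (hz i0)).one_le.trans (hx _ (hz i0))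
    have hMx : M ≤ x ^ (2 * m) := by
      calc M ≤ ∏ _p ∈ T, x := Finset.prod_le_prod' fun p hp => hx p (hTI hp)
        _ = x ^ #T := by simp
        _ ≤ x ^ (2 * m) := Nat.pow_le_pow_right hx1' (by
          calc #T ≤ #(univ : Finset (Fin (2 * m))) := Finset.card_image_le
            _ = 2 * m := by simp)
    have hB : ∀ w, |∏ i, X (z i) w| ≤ ∏ i, b (z i) := by
      intro w
      rw [Finset.abs_prod]
      exact Finset.prod_le_prod (fun _ _ => abs_nonneg _) fun i _ => hX _ (hz i) w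
    rw [PM_sub hTI hI hperM]
    have h1 := SA_PM hw hM0 (by omega) hperM
    refine h1.trans ?_
    have h2 : PM M (fun w => |∏ i, X (z i) w|) ≤ ∏ i, b (z i) := by
      rw [← PM_const (ι := ι) hM0 (∏ i, b (z i))]
      exact PM_mono hB
    rw [mul_comm]
    push_cast
    exact mul_le_mul_of_nonneg_right h2 (by positivity)
  have h1 : |SA s c (fun w => (∑ p ∈ I, X p w) ^ (2 * m)) -
      PM Q (fun w => (∑ p ∈ I, X p w) ^ (2 * m))| ≤
      (∑ p ∈ I, b p) ^ (2 * m) * L := by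
    rw [e, SA_sum, PM_sum, ← Finset.sum_sub_distrib, hexp b, Finset.sum_mul]
    exact (Finset.abs_sum_le_sum_abs _ _).trans (Finset.sum_le_sum key)
  have h2 := moment_PM I hI hb hper hX hm m hm1
  have hcard : (#I : ℝ) ≤ x := by
    have : I ⊆ Icc 1 x := fun p hp => mem_Icc.2 ⟨(hI p hp).one_le, hx p hp⟩
    have := card_le_card this
    rw [Nat.card_Icc, Nat.add_sub_cancel] at this
    exact_mod_cast this
  have h3 : (∑ p ∈ I, b p) ^ (2 * m) ≤ (x : ℝ) ^ m * Wt b I ^ m := by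
    have h4 := sq_sum_le_card_mul_sum_sq (s := I) (f := b)
    rw [pow_mul, ← mul_pow]
    refine pow_le_pow_left₀ (sq_nonneg _) (h4.trans ?_) m
    exact mul_le_mul_of_nonneg_right hcard (Wt_nonneg b I)
  have hW0 : 0 ≤ Wt b I ^ m := pow_nonneg (Wt_nonneg b I) m
  have h4 : (∑ p ∈ I, b p) ^ (2 * m) * L ≤ Wt b I ^ m := by
    have h5 : (x : ℝ) ^ m * L ≤ 1 := by
      rw [hL, mul_one_div, div_le_one (by positivity)]
      have h6 : (x : ℝ) ^ (2 * m) = (x : ℝ) ^ m * (x : ℝ) ^ m := by rw [two_mul, pow_add]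
      rw [h6]
      nlinarith [sq_nonneg ((x : ℝ) ^ m - 1), pow_nonneg hx0 m]
    calc (∑ p ∈ I, b p) ^ (2 * m) * L ≤ ((x : ℝ) ^ m * Wt b I ^ m) * L :=
          mul_le_mul_of_nonneg_right h3 (by positivity)
      _ = ((x : ℝ) ^ m * L) * Wt b I ^ m := by ring
      _ ≤ 1 * Wt b I ^ m := mul_le_mul_of_nonneg_right h5 hW0
      _ = _ := one_mul _
  have h5 := (abs_le.1 h1).2
  rw [add_mul, one_mul]
  linarith

end

end Pool.Agent.N666.TB
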