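import Pool.Agent.N666.TB.LawU
import Pool.Agent.N666.TB.Conv
import Pool.Agent.N430.BP.Poly3

set_option autoImplicit false
set_option linter.all false

/-! # The products at the central point for thin families of polynomials -/

namespace Pool.Agent.N666.TB

open Finset Polynomial
open Pool.Agent.Y722.HS Pool.Agent.Y722.LS Pool.Agent.N666.TM Pool.Agent.N430.BP
open Pool.Agent.N430.CLT

/-- the member of the family -/
noncomputable def memP (f₀ : ℤ[X]) (z : Fin 1 → ℤ × ℤ) : ℤ[X] := f₀ + C (z 0).1 * X + C (z 0).2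

/-- the local variable -/
noncomputable def ZP (f₀ : ℤ[X]) (p : ℕ) (z : Fin 1 → ℤ × ℤ) : ℝ := LLf (memP f₀ z) p - ELL f₀ p

theorem trl_zero {m : ℕ} (W : Fin m → ℤ × ℤ) : trl W (fun _ => ((0, 0) : ℕ × ℕ)) = W := by
  funext i
  simp [trl]

open Classical in
theorem thin_poly {n : ℕ} (hn : 2 ≤ n) {S : ℕ → Finset ℕ} {z : ℕ → Fin 1 ⊕ Fin 1 → ℤ} {ρ : ℝ}
    (hρ : 0 < ρ) (hS : WellSeq S z ρ) {ε A : ℝ} (hε : 0 < ε) (hA : 0 < A) :
    ∃ (k : ℕ) (C' : ℝ) (N₀ : ℕ), 0 < k ∧ 0 ≤ C' ∧ ∀ f₀ : ℤ[X], f₀.Monic → f₀.natDegree = n →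
      ∀ k', k ≤ k' → ∀ N : ℕ, N₀ ≤ N → ∀ l : ℝ, 1 ≤ l →
      (((S N).filter fun m : ℕ => ∃ x : ℕ, 16 ≤ x ∧ x ^ k' ≤ N ∧
        l * Real.log (Real.log x) ^ (1 / 2 : ℝ) * (1 + Real.log (Real.log (Real.log x))) ^ ε <
          |∑ p ∈ Pr x, LLf (memP f₀ (prs (z m))) p - 1 / 2 * Real.log (Real.log x)|).card : ℝ) ≤
        C' * l ^ (-A) * #(S N) := by
  obtain ⟨C0, hC0, h0⟩ := poly_dec hn
  obtain ⟨k, C', N₀, hk, hC', h1⟩ := thin_law_unif hρ hS (polyData hn).B_nonneg hC0 hε hA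
  refine ⟨k, C', N₀, hk, hC', fun f₀ hf hd => ?_⟩
  have hX : ∀ (p : ℕ) (W : Fin 1 → ℤ × ℤ) (w : Pt 1),
      (polyData hn).X (⟨f₀, hf, hd⟩, W) p w = ZP f₀ p (trl W w) := fun p W w => rfl
  refine h1 (fun p c => ZP f₀ p (prs c)) (polyData hn).b (polyData hn).b_nonneg ?_ ?_ ?_
    (polyData hn).sum_sq
    (fun x c => ∑ p ∈ Pr x, LLf (memP f₀ (prs c)) p - 1 / 2 * Real.log (Real.log x)) ?_
  · intro p hp h2
    apply many_Pd
    intro W
    exact (polyData hn).per (⟨f₀, hf, hd⟩, W) p hp h2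
  · intro p hp h2 c
    have h3 := (polyData hn).bound (⟨f₀, hf, hd⟩, prs c) p hp h2 (fun _ => (0, 0))
    rw [hX, trl_zero] at h3
    exact h3
  · intro p hp h2
    rw [many_PM p 1 (ZP f₀ p)]
    exact (polyData hn).mean (⟨f₀, hf, hd⟩, fun _ => (0, 0)) p hp h2
  · intro x hx c
    have h3 := h0 (⟨f₀, hf, hd⟩, prs c) x (fun _ => (0, 0)) hx
    simp only [hX, trl_zero] at h3
    have e : famP f₀ (prs c) (fun _ => (0, 0)) = memP f₀ (prs c) := by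
      have := trl_zero (prs c)
      unfold famP memP
      have e2 : sh (prs c) (fun _ => ((0, 0) : ℕ × ℕ)) = prs c := this
      rw [e2]
    rw [e] at h3
    exact h3

end Pool.Agent.N666.TB
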