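import Pool.Agent.N666.TB.Law
import Pool.Agent.N666.TB.Conv
import Pool.Agent.N430.BP.Drift

set_option autoImplicit false
set_option linter.all false

/-! # The original products for thin families over the rationals -/

namespace Pool.Agent.N666.TB

open Finset Polynomial Pool.Agent.Y722.HS Pool.Agent.Y722.LS Pool.Agent.N666.TM Pool.Agent.N430.BP
open Pool.Agent.N430.CLT

theorem bb_sum (c : ℤ[X]) : ∃ B : ℝ, 0 ≤ B ∧ ∀ x : ℕ, 16 ≤ x →
    ∑ p ∈ OP x, bb c p ^ 2 ≤ B * Real.log (Real.log x) := by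
  obtain ⟨C, hC, h⟩ := ww_bound c
  refine ⟨C, hC, fun x hx => ?_⟩
  have h1 := h x hx
  unfold ww at h1
  rw [← Finset.sum_filter, filter_eq] at h1
  exact h1

open Classical in
theorem thin_Q {a b c : ℤ[X]} (h : Hyp a b c) {S : ℕ → Finset ℕ} {z : ℕ → Fin 2 → ℤ} {ρ : ℝ}
    (hρ : 0 < ρ) (hS : WellSeq S z ρ) {ε A : ℝ} (hε : 0 < ε) (hA : 0 < A) :
    ∃ (k : ℕ) (C : ℝ) (N₀ : ℕ), 0 < k ∧ 0 ≤ C ∧ ∀ k', k ≤ k' → ∀ N : ℕ, N₀ ≤ N → ∀ l : ℝ, 1 ≤ l →
      (((S N).filter fun n : ℕ => ∃ x : ℕ, 16 ≤ x ∧ x ^ k' ≤ N ∧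
        l * Real.log (Real.log x) ^ (1 / 2 : ℝ) * (1 + Real.log (Real.log (Real.log x))) ^ ε <
          |∑ p ∈ OP x, logFactor (fam a b c (z n 0) (z n 1)) p -
            (rk a b c + 1 / 2) * Real.log (Real.log x)|).card : ℝ) ≤ C * l ^ (-A) * #(S N) := by
  obtain ⟨C0, hC0, hlog⟩ := log_prod h
  obtain ⟨B, hB, hsq⟩ := bb_sum c
  exact thin_law hρ hS (fun p w => XX a b c p (w 0) (w 1)) (bb c) (bb_nonneg c)
    (fun p hp _ => pair_Pd fun U V => XX_per hp U V)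
    (fun p hp _ w => XX_bound h hp _ _)
    (fun p hp _ => by
      have h1 := XX_mean (a := a) (b := b) (c := c) hp 0 0
      rw [pair_PM p (fun u v => XX a b c p u v)]
      simpa using h1)
    hB hsq
    (fun x w => ∑ p ∈ OP x, logFactor (fam a b c (w 0) (w 1)) p -
            (rk a b c + 1 / 2) * Real.log (Real.log x)) hC0
    (fun x hx w => hlog x (by omega) (w 0) (w 1)) hε hA

end Pool.Agent.N666.TB
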