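import Pool.Agent.N666.TB.Fdd
import Pool.Agent.N666.TB.Law
import Pool.Agent.N666.TB.Conv
import Pool.Agent.X278.AV.LocA
import Pool.Agent.N534.AS.Frob

set_option autoImplicit false
set_option linter.all false
set_option linter.unusedSectionVars false

/-! # Quadratic twists by thin sequences: the local variables -/

namespace Pool.Agent.N666.TB

open Finset Filter Topology NumberField IsDedekindDomain Pool.Agent.N430.BP
open Pool.Agent.H921R2.TatePole (nm two_le_nm nm_ne_zero below deg nm_eq below_le_nm fiber_card_le below_eq_of_mem)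

section
variable {ι : Type} [Fintype ι] [DecidableEq ι]

theorem PM_shift {p : ℕ} (hp : 0 < p) {f : (ι → ℤ) → ℝ} (hf : Pd p f) (e : ι → ℤ) :
    PM p (fun w => f (w + e)) = PM p f := by
  haveI : NeZero p := ⟨hp.ne'⟩
  rw [PM_EM, PM_EM]
  unfold Pool.Agent.Y722.HS.EM
  congr 1
  refine Fintype.sum_equiv (Equiv.addRight (fun i => ((e i : ℤ) : ZMod p))) _ _ fun r => ?_
  refine hf _ _ ?_
  funext i
  simp [Pool.Agent.Y722.HS.red]

theorem PM_avg {p : ℕ} (hp : 0 < p) {f : (ι → ℤ) → ℝ} (hf : Pd p f) {Y : Type*} [Fintype Y] [Nonempty Y]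
    (e : Y → ι → ℤ) : PM p f = PM p (fun w => (∑ y, f (w + e y)) / Fintype.card Y) := by
  have hc : (Fintype.card Y : ℝ) ≠ 0 := by
    have := Fintype.card_pos (α := Y)
    exact_mod_cast this.ne'
  have e1 : (fun w : ι → ℤ => (∑ y, f (w + e y)) / Fintype.card Y) =
      fun w => ((Fintype.card Y : ℝ))⁻¹ * ∑ y, f (w + e y) := by
    funext w
    rw [div_eq_inv_mul]
  rw [e1, PM_mul_left, PM_sum, Finset.sum_congr rfl fun y _ => PM_shift hp hf (e y), Finset.sum_const,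
    nsmul_eq_mul, Finset.card_univ]
  field_simp

end

/-- the quadratic symbol; `0` in characteristic `2` -/
noncomputable def chiR {k : Type*} [Ring k] (y : k) : ℝ :=
  open Classical in if (2 : k) = 0 ∨ y = 0 then 0 else if IsSquare y then 1 else -1

theorem ff_sum {k : Type*} [Field k] [Fintype k] (h2 : (2 : k) ≠ 0) :
    ∑ y : k, chiR y = 0 ∧ ∑ y : k, chiR y ^ 2 = Fintype.card k - 1 := by
  classical
  have hc : ringChar k ≠ 2 := by
    intro h
    have := ringChar.Nat.cast_ringChar (R := k)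
    rw [h] at this
    exact h2 (by exact_mod_cast this)
  constructor
  · have h1 := quadraticChar_sum_zero hc
    have h3 : ∀ y : k, chiR y = ((quadraticChar k y : ℤ) : ℝ) := by
      intro y
      unfold chiR
      rw [quadraticChar_apply]
      unfold quadraticCharFun
      simp only [h2, false_or]
      split_ifs <;> simp
    simp only [h3]
    exact_mod_cast h1
  · have h3 : ∀ y : k, chiR y ^ 2 = 1 - (if y = 0 then (1 : ℝ) else 0) := by
      intro y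
      unfold chiR
      simp only [h2, false_or]
      split_ifs <;> simp
    simp only [h3]
    rw [Finset.sum_sub_distrib, Finset.sum_const, nsmul_eq_mul, mul_one, Finset.card_univ, Finset.sum_ite_eq',
      if_pos (Finset.mem_univ _)]

theorem ff_mean {k : Type*} [Field k] [Fintype k] (h2 : (2 : k) ≠ 0) {f : ℝ → ℝ} (h0 : f 0 = 0) :
    (∑ y : k, f (chiR y)) / Fintype.card k = (1 - 1 / Fintype.card k) * ((f 1 + f (-1)) / 2) := by
  classical
  have hc : (0 : ℝ) < Fintype.card k := by exact_mod_cast Fintype.card_pos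
  have h3 : ∀ y : k, f (chiR y) = (f 1 + f (-1)) / 2 * chiR y ^ 2 + (f 1 - f (-1)) / 2 * chiR y := by
    intro y
    unfold chiR
    split_ifs
    · rw [h0]; ring
    · ring
    · ring
  obtain ⟨s1, s2⟩ := ff_sum h2
  simp only [h3]
  rw [Finset.sum_add_distrib, ← Finset.mul_sum, ← Finset.mul_sum, s1, s2]
  field_simp
  ring

section
variable {n : ℕ}

/-- the logarithm of the Euler factor -/
noncomputable def gT (μ : Fin n → ℂ) (q : ℕ) (s : ℝ) : ℝ := -∑ j, Real.log ‖1 - (s : ℂ) * μ j / ((√(q : ℝ) : ℝ) : ℂ)‖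

theorem gT_zero (μ : Fin n → ℂ) (q : ℕ) : gT μ q 0 = 0 := by
  unfold gT
  simp

theorem z_le {m : ℂ} (hm : ‖m‖ ≤ 1) {q : ℕ} (hq : 2 ≤ q) {s : ℝ} (hs : |s| ≤ 1) :
    ‖(s : ℂ) * m / ((√(q : ℝ) : ℝ) : ℂ)‖ ≤ ri q ∧ ri q ≤ 5 / 7 := by
  have hq2 : (2 : ℝ) ≤ q := by exact_mod_cast hq
  have hs0 : 0 < √(q : ℝ) := Real.sqrt_pos.2 (by linarith)
  constructor
  · rw [norm_div, norm_mul, Complex.norm_real, Complex.norm_real, Real.norm_eq_abs, Real.norm_eq_abs,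
      abs_of_pos hs0]
    unfold ri
    rw [div_eq_mul_inv]
    apply mul_le_of_le_one_left (by positivity)
    exact mul_le_one₀ hs (norm_nonneg _) hm
  · unfold ri
    rw [inv_le_comm₀ hs0 (by norm_num)]
    apply Real.le_sqrt_of_sq_le
    norm_num
    linarith

theorem gT_le {μ : Fin n → ℂ} (hμ : ∀ j, ‖μ j‖ ≤ 1) {q : ℕ} (hq : 2 ≤ q) {s : ℝ} (hs : |s| ≤ 1) :
    |gT μ q s| ≤ 4 * n * ri q := by
  unfold gT
  rw [abs_neg]
  refine (Finset.abs_sum_le_sum_abs _ _).trans ?_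
  have h : ∀ j ∈ (Finset.univ : Finset (Fin n)), |Real.log ‖1 - (s : ℂ) * μ j / ((√(q : ℝ) : ℝ) : ℂ)‖| ≤ 4 * ri q := by
    intro j _
    obtain ⟨h1, h2⟩ := z_le (hμ j) hq hs
    exact (Pool.Agent.X278.AV.log_exp2 (h1.trans h2)).2.trans (by linarith)
  refine (Finset.sum_le_sum h).trans (le_of_eq ?_)
  rw [Finset.sum_const, nsmul_eq_mul, Finset.card_univ, Fintype.card_fin]
  ring

theorem gT_exp {μ : Fin n → ℂ} (hμ : ∀ j, ‖μ j‖ ≤ 1) {q : ℕ} (hq : 2 ≤ q) {s : ℝ} (hs : s ^ 2 = 1) :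
    |gT μ q s - (s * (∑ j, (μ j).re) * ri q + (∑ j, (μ j ^ 2).re) / 2 * ri q ^ 2)| ≤ 2 * n * ri q ^ 3 := by
  have hs1 : |s| ≤ 1 := by
    rw [abs_le_one_iff_mul_self_le_one]
    nlinarith
  have hq2 : (2 : ℝ) ≤ q := by exact_mod_cast hq
  have hs0 : 0 < √(q : ℝ) := Real.sqrt_pos.2 (by linarith)
  have e : gT μ q s - (s * (∑ j, (μ j).re) * ri q + (∑ j, (μ j ^ 2).re) / 2 * ri q ^ 2) =
      -∑ j, (Real.log ‖1 - (s : ℂ) * μ j / ((√(q : ℝ) : ℝ) : ℂ)‖ -
        (-((s : ℂ) * μ j / ((√(q : ℝ) : ℝ) : ℂ)).re - (((s : ℂ) * μ j / ((√(q : ℝ) : ℝ) : ℂ)) ^ 2).re / 2)) := by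
    have e1 : ∀ j, ((s : ℂ) * μ j / ((√(q : ℝ) : ℝ) : ℂ)).re = s * (μ j).re * ri q := by
      intro j
      rw [Complex.div_ofReal_re, Complex.re_ofReal_mul]
      unfold ri
      rw [div_eq_mul_inv]
    have e2 : ∀ j, (((s : ℂ) * μ j / ((√(q : ℝ) : ℝ) : ℂ)) ^ 2).re = (μ j ^ 2).re * ri q ^ 2 := by
      intro j
      have : ((s : ℂ) * μ j / ((√(q : ℝ) : ℝ) : ℂ)) ^ 2 = (μ j ^ 2) / (((√(q : ℝ)) ^ 2 : ℝ) : ℂ) := by
        rw [div_pow, mul_pow]
        have : ((s : ℂ)) ^ 2 = 1 := by exact_mod_cast hs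
        rw [this, one_mul]
        push_cast
        rfl
      rw [this, Complex.div_ofReal_re]
      unfold ri
      rw [div_eq_mul_inv, inv_pow]
    simp only [e1, e2]
    unfold gT
    rw [Finset.sum_sub_distrib, Finset.sum_sub_distrib, Finset.sum_neg_distrib, ← Finset.sum_div, ← Finset.sum_mul,
      ← Finset.sum_mul, ← Finset.mul_sum]
    ring
  rw [e, abs_neg]
  refine (Finset.abs_sum_le_sum_abs _ _).trans ?_
  have h : ∀ j ∈ (Finset.univ : Finset (Fin n)), |Real.log ‖1 - (s : ℂ) * μ j / ((√(q : ℝ) : ℝ) : ℂ)‖ -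
        (-((s : ℂ) * μ j / ((√(q : ℝ) : ℝ) : ℂ)).re - (((s : ℂ) * μ j / ((√(q : ℝ) : ℝ) : ℂ)) ^ 2).re / 2)| ≤
        2 * ri q ^ 3 := by
    intro j _
    obtain ⟨h1, h2⟩ := z_le (hμ j) hq hs1
    refine (Pool.Agent.X278.AV.log_exp2 (h1.trans h2)).1.trans ?_
    exact mul_le_mul_of_nonneg_left (pow_le_pow_left₀ (norm_nonneg _) h1 3) (by norm_num)
  refine (Finset.sum_le_sum h).trans (le_of_eq ?_)
  rw [Finset.sum_const, nsmul_eq_mul, Finset.card_univ, Fintype.card_fin]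
  ring

theorem re_sum_le {μ : Fin n → ℂ} (hμ : ∀ j, ‖μ j‖ ≤ 1) : |∑ j, (μ j).re| ≤ n ∧ |∑ j, (μ j ^ 2).re| ≤ n := by
  constructor
  · refine (Finset.abs_sum_le_sum_abs _ _).trans ?_
    calc _ ≤ ∑ _j : Fin n, (1 : ℝ) := Finset.sum_le_sum fun j _ => (Complex.abs_re_le_norm _).trans (hμ j)
      _ = n := by simp
  · refine (Finset.abs_sum_le_sum_abs _ _).trans ?_
    calc _ ≤ ∑ _j : Fin n, (1 : ℝ) := Finset.sum_le_sum fun j _ => (Complex.abs_re_le_norm _).trans (by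
            rw [norm_pow]
            exact pow_le_one₀ (norm_nonneg _) (hμ _))
      _ = n := by simp

/-- the mean and the variance of the local variable -/
theorem gT_mean {μ : Fin n → ℂ} (hμ : ∀ j, ‖μ j‖ ≤ 1) {q : ℕ} (hq : 2 ≤ q) :
    |(1 - 1 / (q : ℝ)) * ((gT μ q 1 + gT μ q (-1)) / 2) - (∑ j, (μ j ^ 2).re) / 2 * ri q ^ 2| ≤ 6 * n * ri q ^ 3 ∧
    |(1 - 1 / (q : ℝ)) * ((gT μ q 1 ^ 2 + gT μ q (-1) ^ 2) / 2) -
      ((1 - 1 / (q : ℝ)) * ((gT μ q 1 + gT μ q (-1)) / 2)) ^ 2 - (∑ j, (μ j).re) ^ 2 * ri q ^ 2| ≤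
      60 * n ^ 2 * ri q ^ 3 := by
  have hq2 : (2 : ℝ) ≤ q := by exact_mod_cast hq
  have hn : (0 : ℝ) ≤ n := Nat.cast_nonneg n
  have hr0 : 0 ≤ ri q := ri_nonneg q
  have hr1 : ri q ≤ 1 := ri_le_one (by omega)
  set r := ri q with hr
  set a := ∑ j, (μ j).re with ha
  set b := ∑ j, (μ j ^ 2).re with hb
  obtain ⟨ha1, hb1⟩ := re_sum_le hμ
  rw [← ha] at ha1
  rw [← hb] at hb1
  have hqi : 1 / (q : ℝ) = r ^ 2 := by
    rw [hr, ri_sq, one_div]
  rw [hqi]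
  have g1 := gT_exp hμ hq (s := 1) (by norm_num)
  have g2 := gT_exp hμ hq (s := -1) (by norm_num)
  rw [← ha, ← hb, ← hr] at g1 g2
  have l1 := gT_le hμ hq (s := 1) (by norm_num)
  have l2 := gT_le hμ hq (s := -1) (by norm_num)
  rw [← hr] at l1 l2
  set x := gT μ q 1 with hx
  set y := gT μ q (-1) with hy
  set A := (x + y) / 2 with hA
  set B := (x - y) / 2 with hB
  have hA1 : |A - b / 2 * r ^ 2| ≤ 2 * n * r ^ 3 := by
    have : A - b / 2 * r ^ 2 = ((x - (1 * a * r + b / 2 * r ^ 2)) + (y - (-1 * a * r + b / 2 * r ^ 2))) / 2 := by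
      rw [hA]; ring
    rw [this, abs_div, abs_two, div_le_iff₀ (by norm_num)]
    refine (abs_add_le _ _).trans ?_
    linarith
  have hB1 : |B - a * r| ≤ 2 * n * r ^ 3 := by
    have : B - a * r = ((x - (1 * a * r + b / 2 * r ^ 2)) - (y - (-1 * a * r + b / 2 * r ^ 2))) / 2 := by
      rw [hB]; ring
    rw [this, abs_div, abs_two, div_le_iff₀ (by norm_num)]
    refine (abs_sub _ _).trans ?_
    linarith
  have hA2 : |A| ≤ 4 * n * r := by
    rw [hA, abs_div, abs_two, div_le_iff₀ (by norm_num)]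
    refine (abs_add_le _ _).trans ?_
    linarith
  have hB2 : |B| ≤ 4 * n * r := by
    rw [hB, abs_div, abs_two, div_le_iff₀ (by norm_num)]
    refine (abs_sub _ _).trans ?_
    linarith
  have hr32 : r ^ 3 ≤ r ^ 2 := pow_le_pow_of_le_one hr0 hr1 (by norm_num)
  have hr43 : r ^ 4 ≤ r ^ 3 := pow_le_pow_of_le_one hr0 hr1 (by norm_num)
  have hA3 : |A| ≤ 5 / 2 * n * r ^ 2 := by
    have h1 : A = (A - b / 2 * r ^ 2) + b / 2 * r ^ 2 := by ring
    rw [h1]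
    refine (abs_add_le _ _).trans ?_
    have h2 : |b / 2 * r ^ 2| ≤ n / 2 * r ^ 2 := by
      rw [abs_mul, abs_div, abs_two, abs_of_nonneg (by positivity : 0 ≤ r ^ 2)]
      gcongr
    have h3 : 2 * n * r ^ 3 ≤ 2 * n * r ^ 2 := by gcongr
    linarith
  constructor
  · have e : (1 - r ^ 2) * A - b / 2 * r ^ 2 = (A - b / 2 * r ^ 2) - r ^ 2 * A := by ring
    rw [e]
    refine (abs_sub _ _).trans ?_
    have h2 : |r ^ 2 * A| ≤ 4 * n * r ^ 3 := by
      rw [abs_mul, abs_of_nonneg (by positivity : 0 ≤ r ^ 2)]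
      calc r ^ 2 * |A| ≤ r ^ 2 * (4 * n * r) := by gcongr
        _ = _ := by ring
    linarith
  · have e : (1 - r ^ 2) * ((x ^ 2 + y ^ 2) / 2) - ((1 - r ^ 2) * A) ^ 2 - a ^ 2 * r ^ 2 =
        (B - a * r) * (B + a * r) + (A ^ 2 - r ^ 2 * (A ^ 2 + B ^ 2) - ((1 - r ^ 2) * A) ^ 2) := by
      rw [hA, hB]; ring
    rw [e]
    have t1 : |(B - a * r) * (B + a * r)| ≤ 10 * n ^ 2 * r ^ 4 := by
      rw [abs_mul]
      have : |B + a * r| ≤ 5 * n * r := by
        refine (abs_add_le _ _).trans ?_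
        rw [abs_mul, abs_of_nonneg hr0]
        have : |a| * r ≤ n * r := by gcongr
        linarith
      calc |B - a * r| * |B + a * r| ≤ (2 * n * r ^ 3) * (5 * n * r) := by gcongr
        _ = _ := by ring
    have sA : A ^ 2 ≤ 25 / 4 * n ^ 2 * r ^ 4 := by
      rw [← sq_abs]
      calc |A| ^ 2 ≤ (5 / 2 * n * r ^ 2) ^ 2 := by gcongr
        _ = _ := by ring
    have sA2 : A ^ 2 ≤ 16 * n ^ 2 * r ^ 2 := by
      rw [← sq_abs]
      calc |A| ^ 2 ≤ (4 * n * r) ^ 2 := by gcongr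
        _ = _ := by ring
    have sB2 : B ^ 2 ≤ 16 * n ^ 2 * r ^ 2 := by
      rw [← sq_abs]
      calc |B| ^ 2 ≤ (4 * n * r) ^ 2 := by gcongr
        _ = _ := by ring
    have t2 : |A ^ 2 - r ^ 2 * (A ^ 2 + B ^ 2) - ((1 - r ^ 2) * A) ^ 2| ≤ 50 * n ^ 2 * r ^ 4 := by
      have u1 : 0 ≤ r ^ 2 * (A ^ 2 + B ^ 2) := by positivity
      have u2 : r ^ 2 * (A ^ 2 + B ^ 2) ≤ r ^ 2 * (32 * n ^ 2 * r ^ 2) := by gcongr; linarith
      have u3 : 0 ≤ ((1 - r ^ 2) * A) ^ 2 := sq_nonneg _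
      have u4 : ((1 - r ^ 2) * A) ^ 2 ≤ A ^ 2 := by
        rw [mul_pow]
        apply mul_le_of_le_one_left (sq_nonneg _)
        have h1 : 0 ≤ 1 - r ^ 2 := by nlinarith
        have h2 : 1 - r ^ 2 ≤ 1 := by nlinarith [sq_nonneg r]
        exact pow_le_one₀ h1 h2
      have u5 : 0 ≤ A ^ 2 := sq_nonneg _
      have u6 : 0 ≤ (n : ℝ) ^ 2 * r ^ 4 := by positivity
      rw [abs_le]
      constructor <;> nlinarith
    have t3 : (n : ℝ) ^ 2 * r ^ 4 ≤ (n : ℝ) ^ 2 * r ^ 3 := by gcongr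
    refine (abs_add_le _ _).trans ?_
    linarith

end

end Pool.Agent.N666.TB
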