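import Pool.Agent.N666.TB.TwA

set_option autoImplicit false
set_option linter.all false
set_option linter.unusedSectionVars false

/-! # Quadratic twists by thin sequences over a number field: the variables -/

namespace Pool.Agent.N666.TB

open Finset Filter Topology NumberField IsDedekindDomain Pool.Agent.N430.BP
open Pool.Agent.H921R2.TatePole (nm two_le_nm nm_ne_zero below deg nm_eq below_le_nm fiber_card_le below_eq_of_mem)
open Pool.Agent.Y722.HS (red)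

theorem ff_mean' {k : Type*} [CommRing k] [Fintype k] (hk : IsField k) (h2 : (2 : k) ≠ 0) {f : ℝ → ℝ} (h0 : f 0 = 0) :
    (∑ y : k, f (chiR y)) / Fintype.card k = (1 - 1 / Fintype.card k) * ((f 1 + f (-1)) / 2) := by
  letI := hk.toField
  exact ff_mean h2 h0

section
variable {K : Type} [Field K] [NumberField K] {ι : Type} [Fintype ι] [DecidableEq ι] {n : ℕ}

/-- the number with the coordinates `w` -/
noncomputable def DD (ω : Module.Basis ι ℤ (𝓞 K)) (w : ι → ℤ) : 𝓞 K := ∑ i, w i • ω i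

theorem DD_add (ω : Module.Basis ι ℤ (𝓞 K)) (w e : ι → ℤ) : DD ω (w + e) = DD ω w + DD ω e := by
  unfold DD
  rw [← Finset.sum_add_distrib]
  refine Finset.sum_congr rfl fun i _ => ?_
  rw [Pi.add_apply, add_smul]

theorem DD_surj (ω : Module.Basis ι ℤ (𝓞 K)) (x : 𝓞 K) : ∃ e, DD ω e = x := ⟨fun i => ω.repr x i, ω.sum_repr x⟩

theorem finQ (v : HeightOneSpectrum (𝓞 K)) : Finite (𝓞 K ⧸ v.asIdeal) := Nat.finite_of_card_ne_zero (by
  have := nm_ne_zero v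
  exact this)

noncomputable instance fq (v : HeightOneSpectrum (𝓞 K)) : Fintype (𝓞 K ⧸ v.asIdeal) := @Fintype.ofFinite _ (finQ v)

theorem card_q (v : HeightOneSpectrum (𝓞 K)) : Fintype.card (𝓞 K ⧸ v.asIdeal) = nm v := by
  rw [← Nat.card_eq_fintype_card]
  rfl

theorem isField_q (v : HeightOneSpectrum (𝓞 K)) : IsField (𝓞 K ⧸ v.asIdeal) :=
  (Ideal.Quotient.maximal_ideal_iff_isField_quotient _).1 (v.isPrime.isMaximal v.ne_bot)

theorem DD_mod (ω : Module.Basis ι ℤ (𝓞 K)) {p : ℕ} {v : HeightOneSpectrum (𝓞 K)} (hv : (p : 𝓞 K) ∈ v.asIdeal)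
    {c c' : ι → ℤ} (h : red p c = red p c') :
    Ideal.Quotient.mk v.asIdeal (DD ω c) = Ideal.Quotient.mk v.asIdeal (DD ω c') := by
  rw [Ideal.Quotient.eq]
  unfold DD
  rw [← Finset.sum_sub_distrib]
  refine Ideal.sum_mem _ fun i _ => ?_
  rw [← sub_smul, zsmul_eq_mul]
  have h1 : ((c i : ℤ) : ZMod p) = ((c' i : ℤ) : ZMod p) := congrFun h i
  rw [ZMod.intCast_eq_intCast_iff_dvd_sub] at h1
  obtain ⟨k, hk⟩ := h1
  have : c i - c' i = p * (-k) := by linarith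
  rw [this]
  push_cast
  exact Ideal.mul_mem_right _ _ (Ideal.mul_mem_right _ _ hv)

theorem mem_v {p : Nat.Primes} (v : {v : HeightOneSpectrum (𝓞 K) // below v = p}) : ((p : ℕ) : 𝓞 K) ∈ v.1.asIdeal := by
  have := (nm_eq v.1).2.2
  rwa [v.2] at this

theorem PM_place (ω : Module.Basis ι ℤ (𝓞 K)) (p : Nat.Primes) (v : {v : HeightOneSpectrum (𝓞 K) // below v = p})
    (F : (𝓞 K ⧸ v.1.asIdeal) → ℝ) (G : (ι → ℤ) → ℝ) (hG : Pd (p : ℕ) G)
    (hGs : ∀ e : ι → ℤ, (∀ v' : {v : HeightOneSpectrum (𝓞 K) // below v = p}, v' ≠ v → DD ω e ∈ v'.1.asIdeal) →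
      ∀ w, G (w + e) = G w) :
    PM (p : ℕ) (fun w => F (Ideal.Quotient.mk v.1.asIdeal (DD ω w)) * G w) =
      (∑ y, F y) / Fintype.card (𝓞 K ⧸ v.1.asIdeal) * PM (p : ℕ) G := by
  classical
  haveI : Nonempty (𝓞 K ⧸ v.1.asIdeal) := ⟨0⟩
  choose x hx1 hx2 using fun y : 𝓞 K ⧸ v.1.asIdeal => Pool.Agent.N534.AS.exists_elt p v y
  choose e he using fun y => DD_surj ω (x y)
  have hPd : Pd (p : ℕ) (fun w => F (Ideal.Quotient.mk v.1.asIdeal (DD ω w)) * G w) := by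
    intro c c' h
    show F _ * G c = F _ * G c'
    rw [DD_mod ω (mem_v v) h, hG c c' h]
  rw [PM_avg p.2.pos hPd e]
  have e1 : (fun w : ι → ℤ => (∑ y, F (Ideal.Quotient.mk v.1.asIdeal (DD ω (w + e y))) * G (w + e y)) /
      (Fintype.card (𝓞 K ⧸ v.1.asIdeal) : ℝ)) =
      fun w => ((∑ y, F y) / Fintype.card (𝓞 K ⧸ v.1.asIdeal)) * G w := by
    funext w
    have e2 : ∀ y, F (Ideal.Quotient.mk v.1.asIdeal (DD ω (w + e y))) * G (w + e y) =
        F (Ideal.Quotient.mk v.1.asIdeal (DD ω w) + y) * G w := by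
      intro y
      rw [DD_add, map_add, he y, hx1 y, hGs (e y) (fun v' hv' => by rw [he y]; exact hx2 y v' hv') w]
    simp only [e2]
    rw [← Finset.sum_mul]
    have e3 : ∑ y, F (Ideal.Quotient.mk v.1.asIdeal (DD ω w) + y) = ∑ y, F y :=
      Fintype.sum_equiv (Equiv.addLeft (Ideal.Quotient.mk v.1.asIdeal (DD ω w)))
        (fun y => F (Ideal.Quotient.mk v.1.asIdeal (DD ω w) + y)) F fun y => rfl
    rw [e3]
    ring
  rw [e1, PM_mul_left]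

theorem PM_place1 (ω : Module.Basis ι ℤ (𝓞 K)) (p : Nat.Primes) (v : {v : HeightOneSpectrum (𝓞 K) // below v = p})
    (F : (𝓞 K ⧸ v.1.asIdeal) → ℝ) :
    PM (p : ℕ) (fun w => F (Ideal.Quotient.mk v.1.asIdeal (DD ω w))) =
      (∑ y, F y) / Fintype.card (𝓞 K ⧸ v.1.asIdeal) := by
  have h := PM_place ω p v F (fun _ => 1) (fun _ _ _ => rfl) (fun _ _ _ => rfl)
  rw [PM_const p.2.pos, mul_one] at h
  simpa using h

/-- the local variable at `v` -/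
noncomputable def gv (μ : HeightOneSpectrum (𝓞 K) → Fin n → ℂ) (v : HeightOneSpectrum (𝓞 K)) (y : 𝓞 K ⧸ v.asIdeal) : ℝ :=
  gT (μ v) (nm v) (chiR y)

/-- its mean -/
noncomputable def mv (μ : HeightOneSpectrum (𝓞 K) → Fin n → ℂ) (v : HeightOneSpectrum (𝓞 K)) : ℝ :=
  (∑ y, gv μ v y) / Fintype.card (𝓞 K ⧸ v.asIdeal)

/-- the local variable at `p` -/
noncomputable def gK (ω : Module.Basis ι ℤ (𝓞 K)) (μ : HeightOneSpectrum (𝓞 K) → Fin n → ℂ) (p : ℕ) (w : ι → ℤ) : ℝ :=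
  if h : p.Prime then ∑ v : {v : HeightOneSpectrum (𝓞 K) // below v = ⟨p, h⟩},
    gv μ v.1 (Ideal.Quotient.mk v.1.asIdeal (DD ω w)) else 0

/-- the centre at `p` -/
noncomputable def kK (μ : HeightOneSpectrum (𝓞 K) → Fin n → ℂ) (p : ℕ) : ℝ :=
  if h : p.Prime then ∑ v : {v : HeightOneSpectrum (𝓞 K) // below v = ⟨p, h⟩},
    (∑ j, (μ v.1 j ^ 2).re) / 2 * ri (nm v.1) ^ 2 else 0

/-- the variance at `p` -/
noncomputable def vK (μ : HeightOneSpectrum (𝓞 K) → Fin n → ℂ) (p : ℕ) : ℝ :=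
  if h : p.Prime then ∑ v : {v : HeightOneSpectrum (𝓞 K) // below v = ⟨p, h⟩},
    (∑ j, (μ v.1 j).re) ^ 2 * ri (nm v.1) ^ 2 else 0

/-- the centred variable -/
noncomputable def XK (ω : Module.Basis ι ℤ (𝓞 K)) (μ : HeightOneSpectrum (𝓞 K) → Fin n → ℂ) (p : ℕ) (w : ι → ℤ) : ℝ :=
  gK ω μ p w - PM p (gK ω μ p)

variable {ω : Module.Basis ι ℤ (𝓞 K)} {μ : HeightOneSpectrum (𝓞 K) → Fin n → ℂ}

theorem chiR_le {k : Type*} [Ring k] (y : k) : |chiR y| ≤ 1 := by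
  unfold chiR
  split_ifs <;> simp

theorem ri_mono {p : Nat.Primes} (v : {v : HeightOneSpectrum (𝓞 K) // below v = p}) : ri (nm v.1) ≤ ri (p : ℕ) := by
  have h1 := below_le_nm v.1
  rw [v.2] at h1
  unfold ri
  have hp : (0 : ℝ) < (p : ℕ) := by exact_mod_cast p.2.pos
  exact inv_anti₀ (Real.sqrt_pos.2 hp) (Real.sqrt_le_sqrt (by exact_mod_cast h1))

theorem card_le {p : Nat.Primes} : (Fintype.card {v : HeightOneSpectrum (𝓞 K) // below v = p} : ℝ) ≤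
    Module.finrank ℚ K := by exact_mod_cast fiber_card_le p

theorem gv_le (hμ : ∀ v j, ‖μ v j‖ ≤ 1) {p : Nat.Primes} (v : {v : HeightOneSpectrum (𝓞 K) // below v = p})
    (y : 𝓞 K ⧸ v.1.asIdeal) : |gv μ v.1 y| ≤ 4 * n * ri (p : ℕ) := by
  unfold gv
  refine (gT_le (hμ v.1) (two_le_nm v.1) (chiR_le y)).trans ?_
  exact mul_le_mul_of_nonneg_left (ri_mono v) (by positivity)

theorem gK_le (hμ : ∀ v j, ‖μ v j‖ ≤ 1) {p : ℕ} (hp : p.Prime) (w : ι → ℤ) :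
    |gK ω μ p w| ≤ Module.finrank ℚ K * (4 * n * ri p) := by
  unfold gK
  rw [dif_pos hp]
  refine (Finset.abs_sum_le_sum_abs _ _).trans ((Finset.sum_le_sum fun v _ => gv_le hμ v _).trans ?_)
  rw [Finset.sum_const, nsmul_eq_mul, Finset.card_univ]
  exact mul_le_mul_of_nonneg_right card_le (mul_nonneg (by positivity) (ri_nonneg _))

theorem gK_Pd {p : ℕ} (hp : p.Prime) : Pd p (gK ω μ p) := by
  intro c c' h
  unfold gK
  rw [dif_pos hp, dif_pos hp]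
  refine Finset.sum_congr rfl fun v _ => ?_
  rw [DD_mod ω (mem_v v) h]

theorem XK_Pd {p : ℕ} (hp : p.Prime) : Pd p (XK ω μ p) := by
  intro c c' h
  unfold XK
  rw [gK_Pd hp c c' h]

theorem XK_mean {p : ℕ} (hp : p.Prime) : PM p (XK ω μ p) = 0 := by
  have e : XK ω μ p = fun w => gK ω μ p w + (-PM p (gK ω μ p)) := by
    funext w
    unfold XK
    ring
  rw [e, PM_add, PM_const hp.pos]
  ring

theorem PM_abs_le' {M : ℕ} (hM : 0 < M) {f : (ι → ℤ) → ℝ} {b : ℝ}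
    (h : ∀ w, |f w| ≤ b) : |PM M f| ≤ b := by
  rw [abs_le]
  constructor
  · rw [← PM_const (ι := ι) hM (-b)]
    exact PM_mono fun w => (abs_le.1 (h w)).1
  · rw [← PM_const (ι := ι) hM b]
    exact PM_mono fun w => (abs_le.1 (h w)).2

theorem XK_le (hμ : ∀ v j, ‖μ v j‖ ≤ 1) {p : ℕ} (hp : p.Prime) (w : ι → ℤ) :
    |XK ω μ p w| ≤ (8 * n * Module.finrank ℚ K) * ri p := by
  unfold XK
  have h1 := gK_le (ω := ω) hμ hp w
  have h2 := PM_abs_le' hp.pos (gK_le (ω := ω) hμ hp)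
  refine (abs_sub _ _).trans ?_
  linarith

theorem two_ne {p : Nat.Primes} (h2 : (p : ℕ) ≠ 2) (v : {v : HeightOneSpectrum (𝓞 K) // below v = p}) :
    (2 : 𝓞 K ⧸ v.1.asIdeal) ≠ 0 := by
  intro h
  have h3 : ((2 : 𝓞 K)) ∈ v.1.asIdeal := by
    rw [← Ideal.Quotient.eq_zero_iff_mem]
    have h9 : Ideal.Quotient.mk v.1.asIdeal (2 : 𝓞 K) = 2 := map_ofNat _ 2
    rw [h9]
    exact h
  have h4 : ((2 : ℕ) : 𝓞 K) ∈ v.1.asIdeal := by exact_mod_cast h3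
  have h5 := below_eq_of_mem (p := ⟨2, Nat.prime_two⟩) h4
  rw [v.2] at h5
  exact h2 (by rw [h5])

theorem mv_eq {p : Nat.Primes} (h2 : (p : ℕ) ≠ 2) (v : {v : HeightOneSpectrum (𝓞 K) // below v = p}) :
    mv μ v.1 = (1 - 1 / (nm v.1 : ℝ)) * ((gT (μ v.1) (nm v.1) 1 + gT (μ v.1) (nm v.1) (-1)) / 2) ∧
    (∑ y, gv μ v.1 y ^ 2) / Fintype.card (𝓞 K ⧸ v.1.asIdeal) =
      (1 - 1 / (nm v.1 : ℝ)) * ((gT (μ v.1) (nm v.1) 1 ^ 2 + gT (μ v.1) (nm v.1) (-1) ^ 2) / 2) := by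
  constructor
  · have h := ff_mean' (isField_q v.1) (two_ne h2 v) (f := gT (μ v.1) (nm v.1)) (gT_zero _ _)
    unfold mv gv
    rw [h, card_q]
  · have h := ff_mean' (isField_q v.1) (two_ne h2 v) (f := fun s => gT (μ v.1) (nm v.1) s ^ 2)
      (by simp [gT_zero])
    unfold gv
    rw [h, card_q]

theorem PM_gK (p : Nat.Primes) : PM (p : ℕ) (gK ω μ (p : ℕ)) =
    ∑ v : {v : HeightOneSpectrum (𝓞 K) // below v = p}, mv μ v.1 := by
  have e : gK ω μ (p : ℕ) = fun w => ∑ v : {v : HeightOneSpectrum (𝓞 K) // below v = p},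
      gv μ v.1 (Ideal.Quotient.mk v.1.asIdeal (DD ω w)) := by
    funext w
    unfold gK
    rw [dif_pos p.2]
    rfl
  rw [e, PM_sum]
  refine Finset.sum_congr rfl fun v _ => ?_
  exact PM_place1 ω p v (gv μ v.1)

theorem mean_gK' (hμ : ∀ v j, ‖μ v j‖ ≤ 1) (p : Nat.Primes) (h2 : (p : ℕ) ≠ 2) :
    |PM (p : ℕ) (gK ω μ (p : ℕ)) - kK μ (p : ℕ)| ≤ (6 * n * Module.finrank ℚ K) * ri (p : ℕ) ^ 3 := by
  have e : kK μ (p : ℕ) = ∑ v : {v : HeightOneSpectrum (𝓞 K) // below v = p},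
      (∑ j, (μ v.1 j ^ 2).re) / 2 * ri (nm v.1) ^ 2 := by
    unfold kK
    rw [dif_pos p.2]
    rfl
  rw [PM_gK, e, ← Finset.sum_sub_distrib]
  refine (Finset.abs_sum_le_sum_abs _ _).trans ?_
  have h : ∀ v ∈ (Finset.univ : Finset {v : HeightOneSpectrum (𝓞 K) // below v = p}),
      |mv μ v.1 - (∑ j, (μ v.1 j ^ 2).re) / 2 * ri (nm v.1) ^ 2| ≤ 6 * n * ri (p : ℕ) ^ 3 := by
    intro v _
    rw [(mv_eq h2 v).1]
    refine (gT_mean (hμ v.1) (two_le_nm v.1)).1.trans ?_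
    exact mul_le_mul_of_nonneg_left (pow_le_pow_left₀ (ri_nonneg _) (ri_mono v) 3) (by positivity)
  refine (Finset.sum_le_sum h).trans ?_
  rw [Finset.sum_const, nsmul_eq_mul, Finset.card_univ]
  calc _ ≤ (Module.finrank ℚ K : ℝ) * (6 * n * ri (p : ℕ) ^ 3) :=
        mul_le_mul_of_nonneg_right card_le (by have := ri_nonneg (p : ℕ); positivity)
    _ = _ := by ring

theorem var_gK' (hμ : ∀ v j, ‖μ v j‖ ≤ 1) (p : Nat.Primes) (h2 : (p : ℕ) ≠ 2) :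
    |PM (p : ℕ) (fun w => XK ω μ (p : ℕ) w ^ 2) - vK μ (p : ℕ)| ≤ (60 * n ^ 2 * Module.finrank ℚ K) * ri (p : ℕ) ^ 3 := by
  classical
  have hX : (fun w => XK ω μ (p : ℕ) w ^ 2) = fun w => ∑ v : {v : HeightOneSpectrum (𝓞 K) // below v = p},
      ∑ v' : {v : HeightOneSpectrum (𝓞 K) // below v = p},
      (gv μ v.1 (Ideal.Quotient.mk v.1.asIdeal (DD ω w)) - mv μ v.1) *
      (gv μ v'.1 (Ideal.Quotient.mk v'.1.asIdeal (DD ω w)) - mv μ v'.1) := by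
    funext w
    rw [← Finset.sum_mul_sum, ← sq]
    congr 1
    unfold XK
    rw [PM_gK, Finset.sum_sub_distrib]
    congr 1
    unfold gK
    rw [dif_pos p.2]
    rfl
  have hterm : ∀ v v' : {v : HeightOneSpectrum (𝓞 K) // below v = p}, PM (p : ℕ) (fun w =>
      (gv μ v.1 (Ideal.Quotient.mk v.1.asIdeal (DD ω w)) - mv μ v.1) *
      (gv μ v'.1 (Ideal.Quotient.mk v'.1.asIdeal (DD ω w)) - mv μ v'.1)) =
      if v = v' then (∑ y, gv μ v.1 y ^ 2) / Fintype.card (𝓞 K ⧸ v.1.asIdeal) - mv μ v.1 ^ 2 else 0 := by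
    intro v v'
    have hc : (0 : ℝ) < Fintype.card (𝓞 K ⧸ v.1.asIdeal) := by
      haveI : Nonempty (𝓞 K ⧸ v.1.asIdeal) := ⟨0⟩
      exact_mod_cast Fintype.card_pos
    have hs : ∑ y, gv μ v.1 y = mv μ v.1 * Fintype.card (𝓞 K ⧸ v.1.asIdeal) := by
      unfold mv
      field_simp
    split_ifs with hvv
    · subst hvv
      have h := PM_place1 ω p v (fun y => (gv μ v.1 y - mv μ v.1) * (gv μ v.1 y - mv μ v.1))
      rw [h]
      have e1 : ∀ y, (gv μ v.1 y - mv μ v.1) * (gv μ v.1 y - mv μ v.1) =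
          gv μ v.1 y ^ 2 + (-(2 * mv μ v.1) * gv μ v.1 y + mv μ v.1 ^ 2) := fun y => by ring
      simp only [e1]
      rw [Finset.sum_add_distrib, Finset.sum_add_distrib, ← Finset.mul_sum, hs, Finset.sum_const, nsmul_eq_mul,
        Finset.card_univ]
      field_simp
      ring
    · have h := PM_place ω p v (fun y => gv μ v.1 y - mv μ v.1)
        (fun w => gv μ v'.1 (Ideal.Quotient.mk v'.1.asIdeal (DD ω w)) - mv μ v'.1)
        (by
          intro c c' h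
          show gv μ v'.1 _ - _ = gv μ v'.1 _ - _
          rw [DD_mod ω (mem_v v') h])
        (by
          intro e he w
          have h1 := he v' (fun h => hvv h.symm)
          rw [DD_add, map_add, Ideal.Quotient.eq_zero_iff_mem.2 h1, add_zero])
      rw [h, Finset.sum_sub_distrib, hs, Finset.sum_const, nsmul_eq_mul, Finset.card_univ]
      have : mv μ v.1 * (Fintype.card (𝓞 K ⧸ v.1.asIdeal) : ℝ) - (Fintype.card (𝓞 K ⧸ v.1.asIdeal) : ℝ) * mv μ v.1 = 0 := by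
        ring
      rw [this]
      simp
  have e : vK μ (p : ℕ) = ∑ v : {v : HeightOneSpectrum (𝓞 K) // below v = p},
      (∑ j, (μ v.1 j).re) ^ 2 * ri (nm v.1) ^ 2 := by
    unfold vK
    rw [dif_pos p.2]
    rfl
  rw [hX, PM_sum]
  have e2 : ∀ v : {v : HeightOneSpectrum (𝓞 K) // below v = p}, PM (p : ℕ) (fun w =>
      ∑ v' : {v : HeightOneSpectrum (𝓞 K) // below v = p},
      (gv μ v.1 (Ideal.Quotient.mk v.1.asIdeal (DD ω w)) - mv μ v.1) *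
      (gv μ v'.1 (Ideal.Quotient.mk v'.1.asIdeal (DD ω w)) - mv μ v'.1)) =
      (∑ y, gv μ v.1 y ^ 2) / Fintype.card (𝓞 K ⧸ v.1.asIdeal) - mv μ v.1 ^ 2 := by
    intro v
    rw [PM_sum]
    simp only [hterm]
    rw [Finset.sum_ite_eq, if_pos (Finset.mem_univ _)]
  rw [Finset.sum_congr rfl fun v _ => e2 v, e, ← Finset.sum_sub_distrib]
  refine (Finset.abs_sum_le_sum_abs _ _).trans ?_
  have h : ∀ v ∈ (Finset.univ : Finset {v : HeightOneSpectrum (𝓞 K) // below v = p}),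
      |(∑ y, gv μ v.1 y ^ 2) / Fintype.card (𝓞 K ⧸ v.1.asIdeal) - mv μ v.1 ^ 2 -
        (∑ j, (μ v.1 j).re) ^ 2 * ri (nm v.1) ^ 2| ≤ 60 * n ^ 2 * ri (p : ℕ) ^ 3 := by
    intro v _
    rw [(mv_eq h2 v).1, (mv_eq h2 v).2]
    refine (gT_mean (hμ v.1) (two_le_nm v.1)).2.trans ?_
    exact mul_le_mul_of_nonneg_left (pow_le_pow_left₀ (ri_nonneg _) (ri_mono v) 3) (by positivity)
  refine (Finset.sum_le_sum h).trans ?_
  rw [Finset.sum_const, nsmul_eq_mul, Finset.card_univ]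
  calc _ ≤ (Module.finrank ℚ K : ℝ) * (60 * n ^ 2 * ri (p : ℕ) ^ 3) :=
        mul_le_mul_of_nonneg_right card_le (by have := ri_nonneg (p : ℕ); positivity)
    _ = _ := by ring

theorem mean_gK (hμ : ∀ v j, ‖μ v j‖ ≤ 1) {p : ℕ} (hp : p.Prime) (h2 : p ≠ 2) :
    |PM p (gK ω μ p) - kK μ p| ≤ (6 * n * Module.finrank ℚ K) * ri p ^ 3 := mean_gK' hμ ⟨p, hp⟩ h2

theorem var_gK (hμ : ∀ v j, ‖μ v j‖ ≤ 1) {p : ℕ} (hp : p.Prime) (h2 : p ≠ 2) :
    |PM p (fun w => XK ω μ p w ^ 2) - vK μ p| ≤ (60 * n ^ 2 * Module.finrank ℚ K) * ri p ^ 3 := var_gK' hμ ⟨p, hp⟩ h2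

/-- the centred logarithm of the product over the odd primes -/
noncomputable def DK (ω : Module.Basis ι ℤ (𝓞 K)) (μ : HeightOneSpectrum (𝓞 K) → Fin n → ℂ) (x : ℕ) (w : ι → ℤ) : ℝ :=
  ∑ p ∈ OP x, gK ω μ p w - ∑ p ∈ OP x, kK μ p

theorem DK_near (hμ : ∀ v j, ‖μ v j‖ ≤ 1) : ∃ C0 : ℝ, 0 ≤ C0 ∧
    ∀ x : ℕ, 3 ≤ x → ∀ w, |DK ω μ x w - ∑ p ∈ OP x, XK ω μ p w| ≤ C0 := by
  set Z := ∑' n : ℕ, (n : ℝ) ^ (-(3 / 2) : ℝ) with hZ
  have hZ0 : 0 ≤ Z := tsum_nonneg fun n => by positivity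
  refine ⟨(6 * n * Module.finrank ℚ K) * Z, by positivity, fun x hx w => ?_⟩
  have e3 : DK ω μ x w - ∑ p ∈ OP x, XK ω μ p w = ∑ p ∈ OP x, (PM p (gK ω μ p) - kK μ p) := by
    unfold DK XK
    simp only [Finset.sum_sub_distrib]
    ring
  rw [e3]
  refine (Finset.abs_sum_le_sum_abs _ _).trans
    ((Finset.sum_le_sum fun p hp => mean_gK hμ (mem_OP.1 hp).2.1 (mem_OP.1 hp).2.2).trans ?_)
  rw [← Finset.mul_sum]
  exact mul_le_mul_of_nonneg_left (sum_ri x) (by positivity)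

theorem XK_V (hμ : ∀ v j, ‖μ v j‖ ≤ 1) {V : ℝ}
    (h : Tendsto (fun x : ℕ => (∑ p ∈ OP x, vK μ p) / Real.log (Real.log x)) atTop (𝓝 V)) :
    Tendsto (fun x : ℕ => (∑ p ∈ OP x, PM p (fun w => XK ω μ p w ^ 2)) / Real.log (Real.log x)) atTop (𝓝 V) := by
  set Z := ∑' n : ℕ, (n : ℝ) ^ (-(3 / 2) : ℝ) with hZ
  have hZ0 : 0 ≤ Z := tsum_nonneg fun n => by positivity
  have hll : Tendsto (fun x : ℕ => Real.log (Real.log x)) atTop atTop :=
    Real.tendsto_log_atTop.comp (Real.tendsto_log_atTop.comp tendsto_natCast_atTop_atTop)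
  have h2 : Tendsto (fun x : ℕ => (∑ p ∈ OP x, PM p (fun w => XK ω μ p w ^ 2) - ∑ p ∈ OP x, vK μ p) /
      Real.log (Real.log x)) atTop (𝓝 0) := by
    have h0 : Tendsto (fun x : ℕ => ((60 * n ^ 2 * Module.finrank ℚ K) * Z) / Real.log (Real.log x)) atTop (𝓝 0) :=
      tendsto_const_nhds.div_atTop hll
    refine squeeze_zero_norm' ?_ h0
    filter_upwards [hll.eventually_gt_atTop 0] with x hx
    rw [Real.norm_eq_abs, abs_div, abs_of_pos hx]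
    apply div_le_div_of_nonneg_right _ hx.le
    rw [← Finset.sum_sub_distrib]
    refine (Finset.abs_sum_le_sum_abs _ _).trans
      ((Finset.sum_le_sum fun p hp => var_gK hμ (mem_OP.1 hp).2.1 (mem_OP.1 hp).2.2).trans ?_)
    rw [← Finset.mul_sum]
    exact mul_le_mul_of_nonneg_left (sum_ri x) (by positivity)
  have h3 := h2.add h
  rw [zero_add] at h3
  refine h3.congr fun x => ?_
  rw [← add_div, sub_add_cancel]

theorem sum_sq_ri (b0 : ℝ) : ∃ B : ℝ, 0 ≤ B ∧ ∀ x : ℕ, 16 ≤ x →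
    ∑ p ∈ OP x, (b0 * ri p) ^ 2 ≤ B * Real.log (Real.log x) := by
  obtain ⟨C3, h3⟩ := Pool.Agent.Helper256.KM.mertens_inv
  have hC3 : 0 ≤ C3 := (abs_nonneg _).trans (h3 3 le_rfl)
  refine ⟨b0 ^ 2 * (1 + C3), by positivity, fun x hx => ?_⟩
  have h5 := (abs_le.1 (h3 x (by omega))).2
  have hL1 : 1 ≤ Real.log (Real.log x) := one_le_loglog hx
  have h6 : ∀ p ∈ OP x, (b0 * ri p) ^ 2 = b0 ^ 2 * (1 / (p : ℝ)) := by
    intro p _
    rw [mul_pow, ri_sq, one_div]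
  rw [Finset.sum_congr rfl h6, ← Finset.mul_sum, mul_assoc]
  apply mul_le_mul_of_nonneg_left _ (by positivity)
  have h4 : ∑ p ∈ OP x, (1 : ℝ) / p ≤ ∑ p ∈ (Icc 1 x).filter Nat.Prime, (1 : ℝ) / p :=
    Finset.sum_le_sum_of_subset_of_nonneg (Finset.filter_subset _ _) fun p _ _ => by positivity
  have h8 : C3 ≤ C3 * Real.log (Real.log x) := le_mul_of_one_le_right hC3 hL1
  linarith

end

end Pool.Agent.N666.TB
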